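import Pool.Agent.Lib.MP_1a91b9_ntH.R.Eis

/-!
# MP_1a91b9_nt (TwistDensity), leaf L2: quadratic symbols in `ℤ[w]` as Jacobi symbols
-/

set_option autoImplicit false

namespace Pool.Agent.Lib.MP_1a91b9_ntH.R

open ZMod NumberTheorySymbols

open Classical in
/-- The quadratic symbol of `α` modulo `β` as a sign: `1` if `α` is a square modulo `β`,
`-1` otherwise. -/
noncomputable def qs {O : Type*} [CommRing O] (α β : O) : ℤ :=
  if ∃ z : O, β ∣ z ^ 2 - α then 1 else -1

theorem qs_eq_one_iff {O : Type*} [CommRing O] (α β : O) :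
    qs α β = 1 ↔ ∃ z : O, β ∣ z ^ 2 - α := by
  classical
  unfold qs
  split_ifs with h
  · simp [h]
  · simp [h]

theorem qs_or {O : Type*} [CommRing O] (α β : O) : qs α β = 1 ∨ qs α β = -1 := by
  classical
  unfold qs
  split_ifs <;> simp

theorem qs_eq_of_iff {O : Type*} [CommRing O] (α β : O) (j : ℤ) (hj : j = 1 ∨ j = -1)
    (h : (∃ z : O, β ∣ z ^ 2 - α) ↔ j = 1) : qs α β = j := by
  rcases hj with rfl | rfl
  · exact (qs_eq_one_iff α β).2 (h.2 rfl)
  · rcases qs_or α β with h1 | h1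
    · have := h.1 ((qs_eq_one_iff α β).1 h1)
      omega
    · exact h1

/-- The value of the Jacobi symbol at a prime, for an element which is not divisible by it. -/
theorem jac_one_iff {p : ℕ} (hp : p.Prime) {a : ℤ} (ha : ¬ (p : ℤ) ∣ a) :
    (jacobiSym a p = 1 ∨ jacobiSym a p = -1) ∧
      (jacobiSym a p = 1 ↔ ∃ n : ℤ, (p : ℤ) ∣ n ^ 2 - a) := by
  haveI : Fact p.Prime := ⟨hp⟩
  rw [← jacobiSym.legendreSym.to_jacobiSym]
  have ha0 : (a : ZMod p) ≠ 0 := by
    rw [Ne, ZMod.intCast_zmod_eq_zero_iff_dvd]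
    exact ha
  refine ⟨legendreSym.eq_one_or_neg_one p ha0, ?_⟩
  rw [legendreSym.eq_one_iff p ha0]
  constructor
  · rintro ⟨t, ht⟩
    obtain ⟨n, rfl⟩ := ZMod.intCast_surjective t
    refine ⟨n, ?_⟩
    rw [← ZMod.intCast_zmod_eq_zero_iff_dvd]
    push_cast
    rw [ht]
    ring
  · rintro ⟨n, hn⟩
    refine ⟨(n : ZMod p), ?_⟩
    rw [← ZMod.intCast_zmod_eq_zero_iff_dvd] at hn
    push_cast at hn
    linear_combination -hn

variable {O : Type*} [CommRing O] {w : O}

/-- The symbol modulo an element of prime norm. -/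
theorem qs_split (h : IsEis O w) {p : ℕ} (hp : p.Prime) {c d : ℤ} (hN : nm c d = p)
    {x y : ℤ} (hD : ¬ (p : ℤ) ∣ x * d - y * c) :
    qs ((x : O) + (y : O) * w) ((c : O) + (d : O) * w) = jacobiSym ((x * d - y * c) * d) p := by
  have hpZ : Prime (p : ℤ) := Nat.prime_iff_prime_int.1 hp
  have hcop : IsCoprime c d := isCoprime_of_nm hp hN
  have hd : ¬ (p : ℤ) ∣ d := by
    intro hd
    have h1 : (p : ℤ) ∣ c ^ 2 := by
      obtain ⟨e, he⟩ := hd
      refine ⟨1 + c * e - d * e, ?_⟩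
      unfold nm at hN
      linear_combination hN + (c - d) * he
    have h2 : (p : ℤ) ∣ c := hpZ.dvd_of_dvd_pow h1
    have h3 := hcop.isUnit_of_dvd' h2 hd
    exact hpZ.not_unit h3
  have ha : ¬ (p : ℤ) ∣ (x * d - y * c) * d := by
    intro hh
    rcases hpZ.dvd_or_dvd hh with h1 | h1
    · exact hD h1
    · exact hd h1
  obtain ⟨hj1, hj2⟩ := jac_one_iff hp ha
  refine qs_eq_of_iff _ _ _ hj1 ?_
  rw [hj2]
  obtain ⟨u, v, huv⟩ : IsCoprime d (p : ℤ) := by
    rw [isCoprime_comm]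
    exact (Prime.coprime_iff_not_dvd hpZ).2 hd
  constructor
  · rintro ⟨z, hz⟩
    obtain ⟨e, f, rfl⟩ := h.span z
    -- `z ≡ n` with `n d ≡ e d - f c`
    refine ⟨e * d - f * c, ?_⟩
    have h1 : ((e : O) + (f : O) * w) ^ 2 - ((x : O) + (y : O) * w) =
        ((e * e - f * f - x : ℤ) : O) + ((e * f + f * e - f * f - y : ℤ) : O) * w := by
      rw [pow_two, h.mul_eq]
      push_cast
      ring
    rw [h1, h.dvd_split_iff hp hN] at hz
    obtain ⟨k, hk⟩ := hz
    refine ⟨k * d + f ^ 2, ?_⟩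
    unfold nm at hN
    linear_combination d * hk + f ^ 2 * hN
  · rintro ⟨n, k, hk⟩
    refine ⟨((n * u : ℤ) : O), ?_⟩
    have h1 : (((n * u : ℤ) : O)) ^ 2 - ((x : O) + (y : O) * w) =
        (((n * u) ^ 2 - x : ℤ) : O) + ((-y : ℤ) : O) * w := by
      push_cast
      ring
    rw [h1, h.dvd_split_iff hp hN]
    -- `(n u)² d - x d + y c`
    have h2 : (p : ℤ) ∣ d * (((n * u) ^ 2 - x) * d - -y * c) := by
      refine ⟨k - n ^ 2 * v * (u * d + 1), ?_⟩
      linear_combination hk + n ^ 2 * (u * d + 1) * huv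
    exact (hpZ.dvd_or_dvd h2).resolve_left hd

/-- `-3` is not a square modulo a prime `q ≡ 2 mod 3`. -/
theorem jac_neg_three {q : ℕ} (hodd : q % 2 = 1) : jacobiSym (-3) q = jacobiSym q 3 := by
  have ho : Odd q := Nat.odd_iff.2 hodd
  rw [show (-3 : ℤ) = -((3 : ℕ) : ℤ) by norm_num, jacobiSym.neg _ ho,
    jacobiSym.quadratic_reciprocity (by decide : Odd 3) ho]
  have h1 : ZMod.χ₄ (q : ZMod 4) = (-1) ^ (q / 2) := by
    rw [ZMod.χ₄_eq_neg_one_pow hodd]
  rw [h1]
  rw [show 3 / 2 * (q / 2) = q / 2 by norm_num]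
  rw [← mul_assoc, ← pow_add, ← two_mul, pow_mul]
  norm_num

theorem jac_neg_three_inert {q : ℕ} (hodd : q % 2 = 1) (h3 : q % 3 = 2) :
    jacobiSym (-3) q = -1 := by
  rw [jac_neg_three hodd, jacobiSym.mod_left]
  have : (q : ℤ) % (3 : ℕ) = 2 := by push_cast; omega
  rw [this]
  norm_num

theorem jac_neg_three_split {q : ℕ} (hodd : q % 2 = 1) (h3 : q % 3 = 1) :
    jacobiSym (-3) q = 1 := by
  rw [jac_neg_three hodd, jacobiSym.mod_left]
  have : (q : ℤ) % (3 : ℕ) = 1 := by push_cast; omega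
  rw [this]
  norm_num

/-- The symbol modulo an inert prime. -/
theorem qs_inert (h : IsEis O w) {q : ℕ} (hq : q.Prime) (hodd : q % 2 = 1) (h3 : q % 3 = 2)
    {x y : ℤ} (hD : ¬ (q : ℤ) ∣ nm x y) :
    qs ((x : O) + (y : O) * w) ((q : ℤ) : O) = jacobiSym (nm x y) q := by
  have hqZ : Prime (q : ℤ) := Nat.prime_iff_prime_int.1 hq
  obtain ⟨hj1, hj2⟩ := jac_one_iff hq hD
  refine qs_eq_of_iff _ _ _ hj1 ?_
  rw [hj2]
  -- divisibility by `q` in coordinates
  have hdv : ∀ s t : ℤ, ((q : ℤ) : O) ∣ (s : O) + (t : O) * w ↔ (q : ℤ) ∣ s ∧ (q : ℤ) ∣ t :=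
    fun s t => h.int_dvd_iff _ s t
  constructor
  · rintro ⟨z, hz⟩
    obtain ⟨e, f, rfl⟩ := h.span z
    refine ⟨nm e f, ?_⟩
    have h1 : ((e : O) + (f : O) * w) ^ 2 - ((x : O) + (y : O) * w) =
        ((e * e - f * f - x : ℤ) : O) + ((e * f + f * e - f * f - y : ℤ) : O) * w := by
      rw [pow_two, h.mul_eq]
      push_cast
      ring
    rw [h1, hdv] at hz
    obtain ⟨⟨k, hk⟩, ⟨l, hl⟩⟩ := hz
    have h2 : nm e f ^ 2 = nm (e * e - f * f) (e * f + f * e - f * f) := by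
      rw [nm_mul]; ring
    rw [h2, show e * e - f * f = x + q * k by linarith,
      show e * f + f * e - f * f = y + q * l by linarith]
    refine ⟨2 * x * k + q * k ^ 2 - x * l - k * y - q * k * l + 2 * y * l + q * l ^ 2, ?_⟩
    unfold nm
    ring
  · rintro ⟨n, hn⟩
    -- choose the sign of `n`
    obtain ⟨m, hm, ht⟩ : ∃ m : ℤ, (q : ℤ) ∣ m ^ 2 - nm x y ∧ ¬ (q : ℤ) ∣ 2 * x - y + 2 * m := by
      by_cases hc : (q : ℤ) ∣ 2 * x - y + 2 * n
      · refine ⟨-n, ?_, ?_⟩
        · rw [neg_sq]; exact hn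
        · intro hc2
          have h4 : (q : ℤ) ∣ 4 * n := by
            have := dvd_sub hc hc2
            rw [show 2 * x - y + 2 * n - (2 * x - y + 2 * -n) = 4 * n by ring] at this
            exact this
          rcases hqZ.dvd_or_dvd h4 with h5 | h5
          · have h6 : (q : ℤ) ∣ 2 ^ 2 := by norm_num; exact h5
            have h7 := hqZ.dvd_of_dvd_pow h6
            have h8 := Int.le_of_dvd (by norm_num) h7
            have h9 := hq.two_le
            omega
          · apply hD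
            have h6 : (q : ℤ) ∣ n ^ 2 := dvd_pow h5 (by norm_num)
            have := dvd_sub h6 hn
            rw [sub_sub_cancel] at this
            exact this
      · exact ⟨n, hn, hc⟩
    obtain ⟨T, hT⟩ : ∃ T : ℤ, T = 2 * x - y + 2 * m := ⟨_, rfl⟩
    rw [← hT] at ht
    -- `(α + m)² ≡ T α`
    have hsq : ((q : ℤ) : O) ∣ ((x : O) + (y : O) * w + (m : O)) ^ 2
        - (T : O) * ((x : O) + (y : O) * w) := by
      have e : ((x : O) + (y : O) * w + (m : O)) ^ 2 - (T : O) * ((x : O) + (y : O) * w) =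
          ((m ^ 2 - nm x y : ℤ) : O) := by
        rw [hT]
        unfold nm
        push_cast
        linear_combination ((y : O) ^ 2) * h.sq
      rw [e]
      obtain ⟨k, hk⟩ := hm
      rw [hk]
      exact ⟨(k : O), by push_cast; ring⟩
    -- `T` is a square modulo `q` in `O`
    obtain ⟨u, hu⟩ : ∃ u : O, ((q : ℤ) : O) ∣ u ^ 2 - (T : O) := by
      obtain ⟨hT1, hT2⟩ := jac_one_iff hq ht
      rcases hT1 with h5 | h5
      · obtain ⟨r, k, hk⟩ := hT2.1 h5
        refine ⟨(r : O), (k : O), ?_⟩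
        have := congrArg (fun t : ℤ => (t : O)) hk
        push_cast at this
        rw [this]
        push_cast
        ring
      · have h6 : jacobiSym (-3 * T) q = 1 := by
          rw [jacobiSym.mul_left, jac_neg_three_inert hodd h3, h5]; norm_num
        have h3' : ¬ (q : ℤ) ∣ 3 := by
          intro hh
          have : q ∣ 3 := by exact_mod_cast hh
          have := (Nat.prime_dvd_prime_iff_eq hq (by norm_num)).1 this
          omega
        have h7 : ¬ (q : ℤ) ∣ -3 * T := by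
          intro hh
          rcases hqZ.dvd_or_dvd hh with h8 | h8
          · rw [show (-3 : ℤ) = -(3 : ℤ) by norm_num, dvd_neg] at h8
            exact h3' h8
          · exact ht h8
        obtain ⟨r, k, hk⟩ := (jac_one_iff hq h7).2.1 h6
        obtain ⟨a, b, hab⟩ : IsCoprime (3 : ℤ) (q : ℤ) := by
          rw [isCoprime_comm]
          exact (Prime.coprime_iff_not_dvd hqZ).2 h3'
        -- `r² + 3 T = q k`, `u = a r (1 + 2 w)`, `u² = - 3 a² r²`
        refine ⟨((a * r : ℤ) : O) * (1 + 2 * w), ?_⟩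
        refine ⟨((-3 * a ^ 2 * k - (3 * a + 1) * b * T : ℤ) : O), ?_⟩
        have hk' := congrArg (fun t : ℤ => (t : O)) hk
        have hab' := congrArg (fun t : ℤ => (t : O)) hab
        push_cast at hk' hab' ⊢
        linear_combination (4 * (a : O) ^ 2 * (r : O) ^ 2) * h.sq - 3 * (a : O) ^ 2 * hk'
          + ((3 * (a : O) + 1) * (T : O)) * hab'
    -- `u` is invertible modulo `q`
    obtain ⟨v, hv⟩ : ∃ v : O, ((q : ℤ) : O) ∣ (T : O) * v ^ 2 * (T : O) - (T : O) ∧
        ((q : ℤ) : O) ∣ u ^ 2 * v ^ 2 - 1 := by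
      obtain ⟨a, b, hab⟩ : IsCoprime T (q : ℤ) := by
        rw [isCoprime_comm]
        exact (Prime.coprime_iff_not_dvd hqZ).2 ht
      -- `v = a u`
      have hab' := congrArg (fun t : ℤ => (t : O)) hab
      push_cast at hab'
      obtain ⟨g, hg⟩ := hu
      push_cast at hg
      refine ⟨(a : O) * u, ⟨(T : O) ^ 2 * (a : O) ^ 2 * g - (T : O) * (b : O) * ((a : O) * T + 1), ?_⟩,
        ⟨(u ^ 2 + T) * (a : O) ^ 2 * g - (b : O) * ((a : O) * T + 1), ?_⟩⟩
      · push_cast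
        linear_combination ((T : O) ^ 2 * (a : O) ^ 2) * hg + ((T : O) * ((a : O) * T + 1)) * hab'
      · push_cast
        linear_combination ((u ^ 2 + T) * (a : O) ^ 2) * hg + ((a : O) * T + 1) * hab'
    obtain ⟨g, hg⟩ := hsq
    obtain ⟨g2, hg2⟩ := hu
    obtain ⟨-, g3, hg3⟩ := hv
    refine ⟨((x : O) + (y : O) * w + (m : O)) * v, ?_⟩
    refine ⟨v ^ 2 * g - v ^ 2 * ((x : O) + (y : O) * w) * g2 + ((x : O) + (y : O) * w) * g3, ?_⟩
    linear_combination v ^ 2 * hg - v ^ 2 * ((x : O) + (y : O) * w) * hg2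
      + ((x : O) + (y : O) * w) * hg3

end Pool.Agent.Lib.MP_1a91b9_ntH.R
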