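import Pool.Agent.Lib.MP_1a91b9_ntH.R.Rec

/-!
# MP_1a91b9_nt (TwistDensity), leaf L2: elements of prime norm are prime, inert primes are prime,
multiplicativity of the symbol, the symbols of `-1` and `1 + 2 w`
-/

set_option autoImplicit false

namespace Pool.Agent.Lib.MP_1a91b9_ntH.R

open ZMod NumberTheorySymbols

variable {O : Type*} [CommRing O] {w : O}

/-- The symbol depends only on the class of `α` modulo `β`. -/
theorem qs_congr_left {α α' β : O} (hd : β ∣ α - α') : qs α β = qs α' β := by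
  classical
  unfold qs
  congr 1
  apply propext
  constructor
  · rintro ⟨z, hz⟩
    exact ⟨z, by have := dvd_add hz hd; rwa [show z ^ 2 - α + (α - α') = z ^ 2 - α' by ring] at this⟩
  · rintro ⟨z, hz⟩
    exact ⟨z, by have := dvd_sub hz hd; rwa [show z ^ 2 - α' - (α - α') = z ^ 2 - α by ring] at this⟩

/-- The key identity for products modulo an element of prime norm. -/
theorem det_mul {c d x y x' y' p : ℤ} (hN : nm c d = p) :
    ((x * x' - y * y') * d - (x * y' + y * x' - y * y') * c) * d =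
      (x * d - y * c) * (x' * d - y' * c) - y * y' * p := by
  rw [← hN]
  unfold nm
  ring

/-- Elements of prime norm are prime. -/
theorem IsEis.prime_of_nm (h : IsEis O w) {p : ℕ} (hp : p.Prime) {c d : ℤ} (hN : nm c d = p) :
    Prime ((c : O) + (d : O) * w) := by
  have hpZ : Prime (p : ℤ) := Nat.prime_iff_prime_int.1 hp
  refine ⟨?_, ?_, ?_⟩
  · intro h0
    obtain ⟨rfl, rfl⟩ := h.inj _ _ h0
    have h1 : nm 0 0 = 0 := by norm_num [nm]
    rw [h1] at hN
    exact hp.ne_zero (by exact_mod_cast hN.symm)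
  · rw [h.isUnit_iff, hN]
    intro h1
    exact hp.ne_one (by exact_mod_cast h1)
  · intro a b hab
    obtain ⟨x, y, rfl⟩ := h.span a
    obtain ⟨x', y', rfl⟩ := h.span b
    rw [h.mul_eq, h.dvd_split_iff hp hN] at hab
    rw [h.dvd_split_iff hp hN, h.dvd_split_iff hp hN]
    have h1 : (p : ℤ) ∣ (x * d - y * c) * (x' * d - y' * c) := by
      have h2 := det_mul (x := x) (y := y) (x' := x') (y' := y') hN
      obtain ⟨k, hk⟩ := hab
      refine ⟨k * d + y * y', ?_⟩
      linear_combination -h2 + d * hk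
    exact hpZ.dvd_or_dvd h1

/-- A rational prime `q ≡ 2 mod 3` which divides a norm divides both coordinates. -/
theorem inert_dvd_nm {q : ℕ} (hq : q.Prime) (h3 : q % 3 = 2) {x y : ℤ} (hd : (q : ℤ) ∣ nm x y) :
    (q : ℤ) ∣ x ∧ (q : ℤ) ∣ y := by
  have hqZ : Prime (q : ℤ) := Nat.prime_iff_prime_int.1 hq
  have hy : (q : ℤ) ∣ y := by
    by_contra hy
    rcases Nat.mod_two_eq_zero_or_one q with h2 | h2
    · have hq2 : q = 2 := by
        have := (Nat.prime_dvd_prime_iff_eq Nat.prime_two hq).1 (Nat.dvd_of_mod_eq_zero h2)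
        exact this.symm
      subst hq2
      have hy1 : y % 2 = 1 := by push_cast at hy; omega
      have hxx : (x * (x - y)) % 2 = (x * (x - 1)) % 2 := by
        rw [Int.mul_emod x (x - y), Int.mul_emod x (x - 1)]
        have : (x - y) % 2 = (x - 1) % 2 := by omega
        rw [this]
      have hx1 : (x * (x - 1)) % 2 = 0 := by
        rcases Int.emod_two_eq_zero_or_one x with h | h
        · rw [Int.mul_emod, h]; norm_num
        · have : (x - 1) % 2 = 0 := by omega
          rw [Int.mul_emod, this]; norm_num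
      have hyy : (y * y) % 2 = 1 := by rw [Int.mul_emod, hy1]; norm_num
      have e : nm x y = x * (x - y) + y * y := by unfold nm; ring
      push_cast at hd
      rw [e] at hd
      omega
    · have hj := jac_neg_three_inert h2 h3
      obtain ⟨a, b, hab⟩ : IsCoprime y (q : ℤ) := by
        rw [isCoprime_comm]
        exact (Prime.coprime_iff_not_dvd hqZ).2 hy
      have hnd : ¬ (q : ℤ) ∣ -3 := by
        intro hh
        rw [show (-3 : ℤ) = -(3 : ℤ) by norm_num, dvd_neg] at hh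
        have : q ∣ 3 := by exact_mod_cast hh
        have := (Nat.prime_dvd_prime_iff_eq hq (by norm_num)).1 this
        omega
      have h1 := (jac_one_iff hq hnd).2.2 (by
        obtain ⟨k, hk⟩ := hd
        -- `((2x - y) a)² + 3 = 4 a² nm + 3 (1 - a² y²)`
        refine ⟨(2 * x - y) * a, 4 * a ^ 2 * k + 3 * b * (1 + a * y), ?_⟩
        unfold nm at hk
        linear_combination 4 * a ^ 2 * hk - 3 * (1 + a * y) * hab)
      rw [hj] at h1
      norm_num at h1
  refine ⟨?_, hy⟩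
  have h1 : (q : ℤ) ∣ x ^ 2 := by
    have h2 : (q : ℤ) ∣ nm x y + (x - y) * y := dvd_add hd (Dvd.dvd.mul_left hy _)
    rwa [show nm x y + (x - y) * y = x ^ 2 by unfold nm; ring] at h2
  exact hqZ.dvd_of_dvd_pow h1

/-- Rational primes `q ≡ 2 mod 3` are prime. -/
theorem IsEis.prime_of_inert (h : IsEis O w) {q : ℕ} (hq : q.Prime) (h3 : q % 3 = 2) :
    Prime ((q : ℤ) : O) := by
  have hqZ : Prime (q : ℤ) := Nat.prime_iff_prime_int.1 hq
  refine ⟨?_, ?_, ?_⟩
  · intro h0
    have h1 := h.int_eq (m := (q : ℤ)) (n := 0) (by rw [h0]; simp)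
    exact hq.ne_zero (by exact_mod_cast h1)
  · have e : ((q : ℤ) : O) = ((q : ℤ) : O) + ((0 : ℤ) : O) * w := by simp
    rw [e, h.isUnit_iff]
    intro h1
    have h2 : (q : ℤ) * q = 1 := by rw [← h1]; unfold nm; ring
    have h4 : (2 : ℤ) ≤ q := by exact_mod_cast hq.two_le
    nlinarith
  · intro a b hab
    obtain ⟨x, y, rfl⟩ := h.span a
    obtain ⟨x', y', rfl⟩ := h.span b
    rw [h.mul_eq, h.int_dvd_iff] at hab
    obtain ⟨⟨k, hk⟩, ⟨l, hl⟩⟩ := hab
    have h1 : (q : ℤ) ∣ nm x y * nm x' y' := by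
      rw [← nm_mul]
      rw [hk, hl]
      refine ⟨q * k ^ 2 - q * k * l + q * l ^ 2, ?_⟩
      unfold nm
      ring
    rw [h.int_dvd_iff, h.int_dvd_iff]
    rcases hqZ.dvd_or_dvd h1 with h2 | h2
    · exact Or.inl (inert_dvd_nm hq h3 h2)
    · exact Or.inr (inert_dvd_nm hq h3 h2)

/-- The symbol is multiplicative. -/
theorem qs_mul (h : IsEis O w) {c d : ℤ} (hβ : Prime ((c : O) + (d : O) * w))
    (hc : c % 2 = 1) (hd : d % 2 = 0) {α α' : O} (h1 : ¬ ((c : O) + (d : O) * w) ∣ α)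
    (h2 : ¬ ((c : O) + (d : O) * w) ∣ α') :
    qs (α * α') ((c : O) + (d : O) * w) =
      qs α ((c : O) + (d : O) * w) * qs α' ((c : O) + (d : O) * w) := by
  have h3 : ¬ ((c : O) + (d : O) * w) ∣ α * α' := fun hh => by
    rcases hβ.dvd_or_dvd hh with h4 | h4
    · exact h1 h4
    · exact h2 h4
  obtain ⟨x, y, rfl⟩ := h.span α
  obtain ⟨x', y', rfl⟩ := h.span α'
  rcases prime_cases h hβ hc hd with ⟨p, hp, hN, hp2⟩ | ⟨q, hq, hq2, hq3, hcq, hdq⟩
  · rw [h.mul_eq] at h3 ⊢
    rw [h.dvd_split_iff hp hN] at h1 h2 h3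
    rw [qs_split h hp hN h1, qs_split h hp hN h2, qs_split h hp hN h3, ← jacobiSym.mul_left]
    have hpZ : Prime (p : ℤ) := Nat.prime_iff_prime_int.1 hp
    have hcop : IsCoprime c d := isCoprime_of_nm hp hN
    have hdp : ¬ (p : ℤ) ∣ d := by
      intro hd
      have h1 : (p : ℤ) ∣ c ^ 2 := by
        obtain ⟨e, he⟩ := hd
        refine ⟨1 + c * e - d * e, ?_⟩
        unfold nm at hN
        linear_combination hN + (c - d) * he
      have h2 : (p : ℤ) ∣ c := hpZ.dvd_of_dvd_pow h1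
      have h3 := hcop.isUnit_of_dvd' h2 hd
      exact hpZ.not_unit h3
    have e1 : jacobiSym (((x * x' - y * y') * d - (x * y' + y * x' - y * y') * c) * d) p =
        jacobiSym (((x * x' - y * y') * d - (x * y' + y * x' - y * y') * c) * d * d ^ 2) p := by
      rw [jacobiSym.mul_left _ (d ^ 2), jacobiSym.sq_one', mul_one]
      rw [← Int.isCoprime_iff_gcd_eq_one, isCoprime_comm]
      exact (Prime.coprime_iff_not_dvd hpZ).2 hdp
    rw [e1]
    apply jacobiSym.mod_left'
    apply Int.ModEq.eq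
    rw [Int.modEq_iff_dvd]
    refine ⟨y * y' * d ^ 2, ?_⟩
    have h5 := det_mul (x := x) (y := y) (x' := x') (y' := y') hN
    linear_combination -(d ^ 2) * h5
  · subst hdq
    have hass : Associated ((c : O) + ((0 : ℤ) : O) * w) ((q : ℤ) : O) := by
      rcases hcq with h4 | h4
      · rw [h4]; simp
      · rw [h4]
        have : (((-(q : ℤ)) : ℤ) : O) + ((0 : ℤ) : O) * w = -((q : ℤ) : O) := by simp
        rw [this]
        exact Associated.neg_left (Associated.refl _)
    have hqP := h.prime_of_inert hq hq3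
    rw [hass.dvd_iff_dvd_left] at h1 h2 h3
    rw [qs_congr_right hass, qs_congr_right hass, qs_congr_right hass]
    have g1 := h.inert_not_dvd_nm hqP h1
    have g2 := h.inert_not_dvd_nm hqP h2
    rw [h.mul_eq] at h3 ⊢
    have g3 := h.inert_not_dvd_nm hqP h3
    rw [qs_inert h hq hq2 hq3 g1, qs_inert h hq hq2 hq3 g2, qs_inert h hq hq2 hq3 g3,
      ← jacobiSym.mul_left, nm_mul]

/-- The symbol of `-1` modulo `β = 1 + 2 b`. -/
theorem qs_neg_one (h : IsEis O w) (b0 b1 : ℤ)
    (hβ : Prime (((1 + 2 * b0 : ℤ) : O) + ((2 * b1 : ℤ) : O) * w)) :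
    qs (-1 : O) (((1 + 2 * b0 : ℤ) : O) + ((2 * b1 : ℤ) : O) * w) =
      if b1 % 2 = 0 then 1 else -1 := by
  have e : (-1 : O) = ((-1 : ℤ) : O) + ((0 : ℤ) : O) * w := by simp
  rw [e]
  rcases prime_cases h hβ (by omega) (by omega) with ⟨p, hp, hN, hp2⟩ | ⟨q, hq, hq2, hq3, hcq, hdq⟩
  · have hpo : Odd p := Nat.odd_iff.2 hp2
    have hpZ : Prime (p : ℤ) := Nat.prime_iff_prime_int.1 hp
    have hcop : IsCoprime (1 + 2 * b0) (2 * b1) := isCoprime_of_nm hp hN
    have hdp : ¬ (p : ℤ) ∣ 2 * b1 := by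
      intro hd
      have h1 : (p : ℤ) ∣ (1 + 2 * b0) ^ 2 := by
        obtain ⟨e, he⟩ := hd
        refine ⟨1 + (1 + 2 * b0) * e - (2 * b1) * e, ?_⟩
        unfold nm at hN
        linear_combination hN + ((1 + 2 * b0) - (2 * b1)) * he
      have h2 : (p : ℤ) ∣ (1 + 2 * b0) := hpZ.dvd_of_dvd_pow h1
      have h3 := hcop.isUnit_of_dvd' h2 hd
      exact hpZ.not_unit h3
    rw [qs_split h hp hN]
    · rw [show (-1 * (2 * b1) - 0 * (1 + 2 * b0)) * (2 * b1) = -((2 * b1) ^ 2) by ring,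
        jacobiSym.neg _ hpo, jacobiSym.sq_one', mul_one, ZMod.χ₄_nat_eq_if_mod_four]
      · have hp4 : (p : ℤ) % 4 = (1 + 2 * b1) % 4 := by
          rw [← hN]
          have hb : ((1 + 2 * b0) * b1) % 2 = b1 % 2 := by
            rw [Int.mul_emod, show (1 + 2 * b0) % 2 = 1 by omega]; omega
          have e : nm (1 + 2 * b0) (2 * b1) =
              1 + 4 * (b0 + b0 ^ 2) - 2 * ((1 + 2 * b0) * b1) + 4 * b1 ^ 2 := by unfold nm; ring
          rw [e]
          omega
        rcases Int.emod_two_eq_zero_or_one b1 with h2 | h2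
        · rw [if_neg (by omega), if_pos (by omega), if_pos h2]
        · rw [if_neg (by omega), if_neg (by omega), if_neg (by omega)]
      · rw [← Int.isCoprime_iff_gcd_eq_one, isCoprime_comm]
        exact (Prime.coprime_iff_not_dvd hpZ).2 hdp
    · rw [show -1 * (2 * b1) - 0 * (1 + 2 * b0) = -(2 * b1) by ring, dvd_neg]
      exact hdp
  · have hb1 : b1 = 0 := by omega
    subst hb1
    have hass : Associated (((1 + 2 * b0 : ℤ) : O) + ((2 * 0 : ℤ) : O) * w) ((q : ℤ) : O) := by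
      rcases hcq with h4 | h4
      · rw [h4]; simp
      · rw [h4]
        have : (((-(q : ℤ)) : ℤ) : O) + ((2 * 0 : ℤ) : O) * w = -((q : ℤ) : O) := by simp
        rw [this]
        exact Associated.neg_left (Associated.refl _)
    rw [qs_congr_right hass, qs_inert h hq hq2 hq3]
    · have : nm (-1) 0 = 1 := by norm_num [nm]
      rw [this]
      simp
    · have : nm (-1) 0 = 1 := by norm_num [nm]
      rw [this]
      intro hh
      have h1 := Int.le_of_dvd (by norm_num) hh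
      have h2 := hq.two_le
      omega

/-- The symbol of `s3 = 1 + 2 w` modulo a prime `β = 1 + 2 b` with `β ≡ 1` modulo `s3`. -/
theorem qs_s3 (h : IsEis O w) (b0 b1 : ℤ)
    (hβ : Prime (((1 + 2 * b0 : ℤ) : O) + ((2 * b1 : ℤ) : O) * w))
    (h3 : (1 + 2 * w) ∣ (((1 + 2 * b0 : ℤ) : O) + ((2 * b1 : ℤ) : O) * w) - 1) :
    qs (1 + 2 * w : O) (((1 + 2 * b0 : ℤ) : O) + ((2 * b1 : ℤ) : O) * w) =
      if (b0 + b1) % 2 = 0 then 1 else -1 := by
  have hs : (1 + 2 * w : O) = ((1 + 2 * 0 : ℤ) : O) + ((2 * 1 : ℤ) : O) * w := by push_cast; ring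
  have hps : Prime (((1 + 2 * 0 : ℤ) : O) + ((2 * 1 : ℤ) : O) * w) :=
    h.prime_of_nm (p := 3) (by norm_num) (by norm_num [nm])
  have hne : ¬ Associated (((1 + 2 * 0 : ℤ) : O) + ((2 * 1 : ℤ) : O) * w)
      (((1 + 2 * b0 : ℤ) : O) + ((2 * b1 : ℤ) : O) * w) := by
    intro ha
    rw [← hs] at ha hps
    have h4 : (1 + 2 * w) ∣ (1 : O) := by
      have := dvd_sub ha.dvd h3
      rwa [sub_sub_cancel] at this
    exact hps.not_unit (isUnit_of_dvd_one h4)
  have h5 := recip h 0 1 b0 b1 hps hβ hne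
  rw [← hs] at h5
  have h6 : qs (((1 + 2 * b0 : ℤ) : O) + ((2 * b1 : ℤ) : O) * w) (1 + 2 * w) = 1 := by
    rw [qs_eq_one_iff]
    refine ⟨1, ?_⟩
    rw [one_pow, ← dvd_neg, neg_sub]
    exact h3
  rw [h6, mul_one] at h5
  rw [h5]
  have e : (0 * b1 + 1 * b0 + 1 * b1) = b0 + b1 := by ring
  rw [e]

end Pool.Agent.Lib.MP_1a91b9_ntH.R
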