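import Pool.Agent.Lib.MP_1a91b9_ntH.R.Defs
import Pool.Agent.Lib.MP_1a91b9_ntH.R.Sup

/-!
# MP_1a91b9_nt (TwistDensity), part R, item (r2): the symbols of the primary primes
-/

set_option autoImplicit false

namespace Pool.Agent.Lib.MP_1a91b9_ntH

open NumberField Finset Pool.Agent.Lib.MP_1a91b9_ntT

theorem isEis : R.IsEis (𝓞 K) wO where
  sq := wO_quad
  span z := by
    obtain ⟨p, hp⟩ := exists_coords z
    exact ⟨p.1, p.2, hp⟩
  inj x y h := coords_inj (p' := 0) (q' := 0) (by rw [h]; simp)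

theorem nm_eq_Nz (x y : ℤ) : R.nm x y = Nz ((x : 𝓞 K) + (y : 𝓞 K) * wO) := by
  rw [Nz_coords]; rfl

theorem isSquare_mk_iff (p x : 𝓞 K) :
    IsSquare (Ideal.Quotient.mk (Ideal.span {p}) x) ↔ ∃ z : 𝓞 K, p ∣ z ^ 2 - x := by
  constructor
  · rintro ⟨r, hr⟩
    obtain ⟨z, rfl⟩ := Ideal.Quotient.mk_surjective r
    refine ⟨z, ?_⟩
    rw [← Ideal.mem_span_singleton, ← Ideal.Quotient.eq_zero_iff_mem, map_sub, hr, map_pow]
    ring
  · rintro ⟨z, hz⟩
    refine ⟨Ideal.Quotient.mk _ z, ?_⟩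
    rw [← Ideal.mem_span_singleton, ← Ideal.Quotient.eq_zero_iff_mem, map_sub, map_pow] at hz
    linear_combination -hz

open Classical in
theorem qs_eq (p : Pq) (x : 𝓞 K) : qs p x = if p.1 ∣ x then 0 else R.qs x p.1 := by
  classical
  unfold qs R.qs
  rw [isSquare_mk_iff]

theorem qs_of_not_dvd {p : Pq} {x : 𝓞 K} (h : ¬ p.1 ∣ x) : qs p x = R.qs x p.1 := by
  rw [qs_eq, if_neg h]

theorem qs_of_dvd {p : Pq} {x : 𝓞 K} (h : p.1 ∣ x) : qs p x = 0 := by
  rw [qs_eq, if_pos h]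

theorem qs_one_or {p : Pq} {x : 𝓞 K} (h : ¬ p.1 ∣ x) : qs p x = 1 ∨ qs p x = -1 := by
  rw [qs_of_not_dvd h]
  exact R.qs_or _ _

theorem qs_eq_zero_iff {p : Pq} {x : 𝓞 K} : qs p x = 0 ↔ p.1 ∣ x := by
  constructor
  · intro h
    by_contra hn
    rcases qs_one_or hn with h1 | h1 <;> omega
  · exact qs_of_dvd

theorem qs_congr {p : Pq} {x y : 𝓞 K} (h : p.1 ∣ x - y) : qs p x = qs p y := by
  by_cases hx : p.1 ∣ x
  · have hy : p.1 ∣ y := by
      have := dvd_sub hx h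
      rwa [sub_sub_cancel] at this
    rw [qs_of_dvd hx, qs_of_dvd hy]
  · have hy : ¬ p.1 ∣ y := by
      intro hy
      apply hx
      have := dvd_add h hy
      rwa [sub_add_cancel] at this
    rw [qs_of_not_dvd hx, qs_of_not_dvd hy, R.qs_congr_left h]

namespace Pq

theorem prime (p : Pq) : Prime p.1 := p.2.1

theorem two_s3_dvd (p : Pq) : 2 * s3 ∣ p.1 - 1 := p.2.2

theorem two_dvd (p : Pq) : (2 : 𝓞 K) ∣ p.1 - 1 := (dvd_mul_right _ _).trans p.2.2

theorem s3_dvd (p : Pq) : s3 ∣ p.1 - 1 := (dvd_mul_left _ _).trans p.2.2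

/-- The coordinates of the class of a prime. -/
noncomputable def c0 (p : Pq) : ℤ := (cp (half p.1)).1

/-- The coordinates of the class of a prime. -/
noncomputable def c1 (p : Pq) : ℤ := (cp (half p.1)).2

theorem eq_coords (p : Pq) :
    p.1 = ((1 + 2 * p.c0 : ℤ) : 𝓞 K) + ((2 * p.c1 : ℤ) : 𝓞 K) * wO := by
  have h1 := half_spec p.two_dvd
  have h2 := eq_cp (half p.1)
  push_cast
  unfold c0 c1
  linear_combination h1 + 2 * h2

theorem a_eq (p : Pq) : qd.a p = ⟨(p.c0 : ZMod 2), (p.c1 : ZMod 2)⟩ := rfl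

end Pq

/-- A unit which is `1` modulo `2 s3` is `1`. -/
theorem unit_eq_one {u : 𝓞 K} (hu : IsUnit u) (h : 2 * s3 ∣ u - 1) : u = 1 := by
  obtain ⟨p, rfl⟩ := exists_coords u
  have h1 := (isEis.isUnit_iff p.1 p.2).1 hu
  obtain ⟨t, ht⟩ := h
  obtain ⟨q, rfl⟩ := exists_coords t
  have h2 : ((p.1 - 1 : ℤ) : 𝓞 K) + ((p.2 : ℤ) : 𝓞 K) * wO =
      ((2 * q.1 - 4 * q.2 : ℤ) : 𝓞 K) + ((4 * q.1 - 2 * q.2 : ℤ) : 𝓞 K) * wO := by
    push_cast
    unfold s3 at ht
    linear_combination ht + 4 * (q.2 : 𝓞 K) * wO_quad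
  obtain ⟨e1, e2⟩ := isEis.eq_iff.1 h2
  unfold R.nm at h1
  have h3 : q.1 = 0 ∧ q.2 = 0 := by
    have e3 : p.1 = 2 * q.1 - 4 * q.2 + 1 := by linarith
    rw [e3, e2] at h1
    have h4 : 12 * (q.1 ^ 2 - q.1 * q.2 + q.2 ^ 2) = 6 * q.2 := by linear_combination h1
    have h5 : 0 ≤ q.1 ^ 2 - q.1 * q.2 + q.2 ^ 2 := R.nm_nonneg q.1 q.2
    have h6 : 2 * (q.1 ^ 2 - q.1 * q.2 + q.2 ^ 2) = q.2 := by linarith
    have h7 : (2 * q.1 - q.2) ^ 2 + 3 * q.2 ^ 2 = 2 * q.2 := by linear_combination 2 * h6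
    have h8 : q.2 = 0 := by
      have h9 : 0 ≤ q.2 := by linarith
      by_contra hne
      have h10 : 1 ≤ q.2 := by omega
      nlinarith [sq_nonneg (2 * q.1 - q.2)]
    rw [h8] at h7
    have h9 : q.1 ^ 2 = 0 := by nlinarith
    exact ⟨by simpa using h9, h8⟩
  obtain ⟨h4, h5⟩ := h3
  rw [h4, h5] at e1 e2
  have e3 : p.1 = 1 := by linarith
  have e4 : p.2 = 0 := by linarith
  rw [e3, e4]
  simp

theorem Pq.ext {p q : Pq} (h : Associated p.1 q.1) : p = q := by
  apply Subtype.ext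
  obtain ⟨u, hu⟩ := h
  have h1 : 2 * s3 ∣ (u : 𝓞 K) - 1 := by
    have h2 := q.two_s3_dvd
    have h3 := Dvd.dvd.mul_left p.two_s3_dvd (u : 𝓞 K)
    have h4 := dvd_sub h2 h3
    have e : q.1 - 1 - (u : 𝓞 K) * (p.1 - 1) = (u : 𝓞 K) - 1 := by rw [← hu]; ring
    rwa [e] at h4
  have h5 := unit_eq_one u.isUnit h1
  rw [h5, mul_one] at hu
  exact hu

theorem Pq.not_assoc {p q : Pq} (h : p ≠ q) : ¬ Associated p.1 q.1 := fun ha => h (Pq.ext ha)

theorem Pq.not_dvd {p q : Pq} (h : p ≠ q) : ¬ p.1 ∣ q.1 := fun hd =>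
  Pq.not_assoc h (isEis.assoc_of_dvd p.prime q.prime hd)

/-- The sign of `s q p` is the symbol of `q` modulo `p`. -/
theorem s_eq_zero_iff (q p : Pq) : qd.s q p = 0 ↔ R.qs q.1 p.1 = 1 := by
  classical
  rw [R.qs_eq_one_iff, ← isSquare_mk_iff]
  change (if _ then (0 : ZMod 2) else 1) = 0 ↔ _
  split_ifs with h
  · simp [h]
  · simp [h]

/-- The sign of an element of `ZMod 2`, as an integer. -/
def sgz (x : ZMod 2) : ℤ := if x = 0 then 1 else -1

theorem sgz_add (x y : ZMod 2) : sgz (x + y) = sgz x * sgz y := by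
  revert x y; decide

theorem sgz_inj {x y : ZMod 2} (h : sgz x = sgz y) : x = y := by
  revert x y; decide

theorem sgz_zero : sgz 0 = 1 := rfl

theorem sgz_sum {α : Type*} (S : Finset α) (f : α → ZMod 2) :
    sgz (∑ x ∈ S, f x) = ∏ x ∈ S, sgz (f x) := by
  classical
  induction S using Finset.induction_on with
  | empty => simp [sgz_zero]
  | insert a S ha ih => rw [sum_insert ha, prod_insert ha, sgz_add, ih]

theorem sg_eq_sgz (x : ZMod 2) : sg x = (sgz x : ℝ) := by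
  unfold sg sgz
  split_ifs <;> simp

theorem sgz_int (n : ℤ) : sgz (n : ZMod 2) = if n % 2 = 0 then 1 else -1 := by
  have h : ((n : ZMod 2) = 0) ↔ n % 2 = 0 := by
    rw [ZMod.intCast_zmod_eq_zero_iff_dvd]
    omega
  unfold sgz
  simp only [h]

theorem sgz_s (q p : Pq) : sgz (qd.s q p) = R.qs q.1 p.1 := by
  have h := s_eq_zero_iff q p
  unfold sgz
  split_ifs with h1
  · exact (h.1 h1).symm
  · rcases R.qs_or q.1 p.1 with h2 | h2
    · exact absurd (h.2 h2) h1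
    · exact h2.symm

/-- **Reciprocity** for the system `qd`. -/
theorem qd_rec : qd.Rec := by
  intro p q hpq
  apply sgz_inj
  rw [sgz_add, sgz_s, sgz_s]
  have h := R.recip isEis p.c0 p.c1 q.c0 q.c1
    (by rw [← p.eq_coords]; exact p.prime) (by rw [← q.eq_coords]; exact q.prime)
    (by rw [← p.eq_coords, ← q.eq_coords]; exact Pq.not_assoc hpq)
  rw [← p.eq_coords, ← q.eq_coords] at h
  rw [h, ← sgz_int]
  congr 1
  rw [p.a_eq, q.a_eq]
  change _ = (p.c0 : ZMod 2) * q.c1 + p.c1 * q.c0 + p.c1 * q.c1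
  push_cast
  ring

/-- The symbol is multiplicative. -/
theorem qs_mul (p : Pq) (x y : 𝓞 K) : qs p (x * y) = qs p x * qs p y := by
  by_cases hx : p.1 ∣ x
  · rw [qs_of_dvd hx, qs_of_dvd (Dvd.dvd.mul_right hx y), zero_mul]
  by_cases hy : p.1 ∣ y
  · rw [qs_of_dvd hy, qs_of_dvd (Dvd.dvd.mul_left hy x), mul_zero]
  have hxy : ¬ p.1 ∣ x * y := fun h => by
    rcases p.prime.dvd_or_dvd h with h1 | h1
    · exact hx h1
    · exact hy h1
  rw [qs_of_not_dvd hx, qs_of_not_dvd hy, qs_of_not_dvd hxy]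
  have h := R.qs_mul isEis (c := 1 + 2 * p.c0) (d := 2 * p.c1)
    (by rw [← p.eq_coords]; exact p.prime) (by omega) (by omega) (α := x) (α' := y)
    (by rw [← p.eq_coords]; exact hx) (by rw [← p.eq_coords]; exact hy)
  rw [← p.eq_coords] at h
  exact h

theorem qs_one (p : Pq) : qs p 1 = 1 := by
  rw [qs_of_not_dvd (fun h => p.prime.not_unit (isUnit_of_dvd_one h)), R.qs_eq_one_iff]
  exact ⟨1, by simp⟩

theorem qs_prod (p : Pq) {α : Type*} (S : Finset α) (f : α → 𝓞 K) :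
    qs p (∏ x ∈ S, f x) = ∏ x ∈ S, qs p (f x) := by
  classical
  induction S using Finset.induction_on with
  | empty => simp [qs_one]
  | insert a S ha ih => rw [prod_insert ha, prod_insert ha, qs_mul, ih]

theorem qs_sq {p : Pq} {x : 𝓞 K} (h : ¬ p.1 ∣ x) : qs p (x ^ 2) = 1 := by
  rw [pow_two, qs_mul]
  rcases qs_one_or h with h1 | h1 <;> rw [h1] <;> norm_num

theorem qs_prime (p q : Pq) (h : p ≠ q) : qs p q.1 = sgz (qd.s q p) := by
  rw [qs_of_not_dvd (Pq.not_dvd h), sgz_s]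

theorem qs_neg_one (p : Pq) : qs p (-1) = sgz (F4.tr (qd.a p)) := by
  have h1 : ¬ p.1 ∣ (-1 : 𝓞 K) := fun h => by
    rw [dvd_neg] at h
    exact p.prime.not_unit (isUnit_of_dvd_one h)
  rw [qs_of_not_dvd h1]
  have h := R.qs_neg_one isEis p.c0 p.c1 (by rw [← p.eq_coords]; exact p.prime)
  rw [← p.eq_coords] at h
  rw [h, ← sgz_int]
  rfl

theorem not_dvd_s3 (p : Pq) : ¬ p.1 ∣ s3 := by
  intro h
  have hs : s3 = ((1 : ℤ) : 𝓞 K) + ((2 : ℤ) : 𝓞 K) * wO := by unfold s3; push_cast; rfl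
  have hps : Prime s3 := by
    rw [hs]
    exact isEis.prime_of_nm (p := 3) (by norm_num) (by norm_num [R.nm])
  have ha := isEis.assoc_of_dvd p.prime hps h
  have h1 : s3 ∣ 1 := by
    have h2 := dvd_sub ha.symm.dvd p.s3_dvd
    rwa [sub_sub_cancel] at h2
  exact hps.not_unit (isUnit_of_dvd_one h1)

theorem qs_s3 (p : Pq) : qs p s3 = sgz (F4.tr (F4.w * qd.a p)) := by
  rw [qs_of_not_dvd (not_dvd_s3 p)]
  have h := R.qs_s3 isEis p.c0 p.c1 (by rw [← p.eq_coords]; exact p.prime)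
    (by rw [← p.eq_coords]; exact p.s3_dvd)
  rw [← p.eq_coords] at h
  unfold s3
  rw [h, ← sgz_int]
  congr 1
  rw [p.a_eq]
  change _ = (0 : ZMod 2) * p.c1 + 1 * p.c0 + 1 * p.c1
  push_cast
  ring

/-- `chi S` is completely multiplicative. -/
theorem chi_mul (S : Finset Pq) (x y : 𝓞 K) : chi S (x * y) = chi S x * chi S y := by
  unfold chi
  rw [← prod_mul_distrib]
  exact prod_congr rfl fun p _ => qs_mul p x y

theorem chi_one (S : Finset Pq) : chi S 1 = 1 := by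
  unfold chi
  exact prod_eq_one fun p _ => qs_one p

theorem chi_empty (x : 𝓞 K) : chi ∅ x = 1 := rfl

theorem chi_union {S T : Finset Pq} (h : Disjoint S T) (x : 𝓞 K) :
    chi (S ∪ T) x = chi S x * chi T x := prod_union h

/-- `chi S` is periodic modulo `DD S`. -/
theorem chi_congr {S : Finset Pq} {x y : 𝓞 K} (h : DD S ∣ x - y) : chi S x = chi S y := by
  unfold chi
  exact prod_congr rfl fun p hp => qs_congr ((dvd_prod_of_mem (fun q : Pq => q.1) hp).trans h)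

theorem chi_prime {S : Finset Pq} {q : Pq} (h : q ∉ S) :
    chi S q.1 = sgz (∑ p ∈ S, qd.s q p) := by
  rw [sgz_sum]
  unfold chi
  exact prod_congr rfl fun p hp => qs_prime p q (fun e => h (e ▸ hp))

theorem chi_eq_zero_iff {S : Finset Pq} {x : 𝓞 K} : chi S x = 0 ↔ ∃ p ∈ S, p.1 ∣ x := by
  unfold chi
  rw [prod_eq_zero_iff]
  simp only [qs_eq_zero_iff]

theorem chi_sq_or (S : Finset Pq) (x : 𝓞 K) : chi S x = 0 ∨ chi S x = 1 ∨ chi S x = -1 := by
  classical
  unfold chi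
  induction S using Finset.induction_on with
  | empty => simp
  | insert a S ha ih =>
    rw [prod_insert ha]
    by_cases hd : a.1 ∣ x
    · left; rw [qs_of_dvd hd, zero_mul]
    · rcases qs_one_or hd with h1 | h1 <;> rcases ih with h2 | h2 | h2 <;> rw [h1, h2] <;> simp

theorem qd_A (S : Finset Pq) : qd.A S = ∑ q ∈ S, qd.a q := rfl

theorem F4.tr_add (x y : F4) : F4.tr (x + y) = F4.tr x + F4.tr y := rfl

theorem F4.tr_sum {α : Type*} (S : Finset α) (f : α → F4) :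
    F4.tr (∑ x ∈ S, f x) = ∑ x ∈ S, F4.tr (f x) := by
  classical
  induction S using Finset.induction_on with
  | empty => simp; rfl
  | insert a S ha ih => rw [sum_insert ha, sum_insert ha, F4.tr_add, ih]

theorem chi_neg_one (S : Finset Pq) : chi S (-1) = sgz (F4.tr (qd.A S)) := by
  rw [qd_A, F4.tr_sum, sgz_sum]
  unfold chi
  exact prod_congr rfl fun p _ => qs_neg_one p

theorem chi_s3 (S : Finset Pq) : chi S s3 = sgz (F4.tr (F4.w * qd.A S)) := by
  rw [qd_A, mul_sum, F4.tr_sum, sgz_sum]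
  unfold chi
  exact prod_congr rfl fun p _ => qs_s3 p

/-- The symbol of the twisting element: `(dl S / α) = chi S α`. -/
theorem qs_dl (S : Finset Pq) (p : Pq) : qs p (dl S) = chi S p.1 := by
  by_cases hp : p ∈ S
  · have h1 : chi S p.1 = 0 := chi_eq_zero_iff.2 ⟨p, hp, dvd_refl _⟩
    have h2 : p.1 ∣ dl S := by
      unfold dl
      exact Dvd.dvd.mul_left (dvd_prod_of_mem (fun q : Pq => q.1) hp) _
    rw [h1, qs_of_dvd h2]
  · have h1 : qs p (DD S) = sgz (∑ q ∈ S, qd.s q p) := by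
      unfold DD
      rw [qs_prod, sgz_sum]
      exact prod_congr rfl fun q hq => qs_prime p q (fun e => hp (e ▸ hq))
    have h2 : ∑ q ∈ S, qd.s q p = ∑ q ∈ S, qd.s p q + F4.tr (qd.A S * qd.a p) := by
      rw [qd_A, sum_mul, F4.tr_sum, ← sum_add_distrib]
      apply sum_congr rfl
      intro q hq
      have h3 := qd_rec q p (fun e => hp (e ▸ hq))
      rw [← h3]
      have : qd.s p q + qd.s p q = 0 := CharTwo.add_self_eq_zero _
      linear_combination -this
    have h4 : qs p (if (qd.A S).b = 0 then 1 else s3) =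
        sgz ((qd.A S).b * F4.tr (F4.w * qd.a p)) := by
      split_ifs with hb
      · rw [hb, zero_mul, qs_one]; rfl
      · have hb1 : (qd.A S).b = 1 := by
          have : ∀ x : ZMod 2, x ≠ 0 → x = 1 := by decide
          exact this _ hb
        rw [hb1, one_mul, qs_s3]
    have h5 : qs p (if (qd.A S).a = 0 then 1 else -1) = sgz ((qd.A S).a * F4.tr (qd.a p)) := by
      split_ifs with hb
      · rw [hb, zero_mul, qs_one]; rfl
      · have hb1 : (qd.A S).a = 1 := by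
          have : ∀ x : ZMod 2, x ≠ 0 → x = 1 := by decide
          exact this _ hb
        rw [hb1, one_mul, qs_neg_one]
    unfold dl
    rw [qs_mul, qs_mul, h4, h5, h1, h2, chi_prime hp, ← sgz_add, ← sgz_add]
    congr 1
    have key : ∀ x y : F4, x.b * F4.tr (F4.w * y) + x.a * F4.tr y = F4.tr (x * y) := by decide
    have h6 := key (qd.A S) (qd.a p)
    have h7 : F4.tr (qd.A S * qd.a p) + F4.tr (qd.A S * qd.a p) = 0 := CharTwo.add_self_eq_zero _
    linear_combination h6 + h7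

end Pool.Agent.Lib.MP_1a91b9_ntH
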