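import Pool.Agent.Lib.MP_1a91b9_ntH.R.Defs
import Pool.Agent.Lib.MP_1a91b9_ntH.R.Lat
import Pool.Agent.Lib.MP_1a91b9_ntH.R.Qd

/-!
# MP_1a91b9_nt (TwistDensity), part R: the ring `O = ℤ[w]`, normalised elements, factorisation
-/

set_option autoImplicit false

namespace Pool.Agent.Lib.MP_1a91b9_ntH

open NumberField Finset Pool.Agent.Lib.MP_1a91b9_ntT

noncomputable section

theorem cp_add (x y : 𝓞 K) : cp (x + y) = cp x + cp y := by
  have : cp (x + y) = ((cp x).1 + (cp y).1, (cp x).2 + (cp y).2) := by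
    rw [← cp_coords]
    congr 1
    conv_lhs => rw [eq_cp x, eq_cp y]
    push_cast
    ring
  exact this

theorem cp_mul (x y : 𝓞 K) : cp (x * y) = mulE (cp x) (cp y) := by
  have : cp (x * y) = ((cp x).1 * (cp y).1 - (cp x).2 * (cp y).2,
      (cp x).1 * (cp y).2 + (cp x).2 * (cp y).1 - (cp x).2 * (cp y).2) := by
    rw [← cp_coords]
    congr 1
    conv_lhs => rw [eq_cp x, eq_cp y]
    push_cast
    linear_combination ((cp x).2 : 𝓞 K) * (cp y).2 * wO_quad
  exact this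

instance eisO : Eis (𝓞 K) where
  co := {
    toFun := cp
    invFun := fun p => (p.1 : 𝓞 K) + p.2 * wO
    left_inv := fun x => (eq_cp x).symm
    right_inv := fun p => cp_coords p.1 p.2
    map_add' := cp_add }
  co_mul := cp_mul

theorem nE_eq (x : 𝓞 K) : nE x = Nz x := by
  have h1 := nE_cast x
  have h2 := Nz_coords (cp x).1 (cp x).2
  rw [← eq_cp x] at h2
  have h3 : ((nE x : ℕ) : ℤ) = (Nz x : ℤ) := by
    rw [h1, h2]
    rfl
  exact_mod_cast h3

theorem mem_disc {X : ℕ} {x : 𝓞 K} : x ∈ discE (𝓞 K) X ↔ Nz x ≤ X := by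
  rw [mem_discE, nE_eq]

theorem Nz_eq_zero {x : 𝓞 K} : Nz x = 0 ↔ x = 0 := by
  rw [← nE_eq]
  exact nE_eq_zero

theorem isUnit_iff_Nz {x : 𝓞 K} : IsUnit x ↔ Nz x = 1 := by
  have h := isEis.isUnit_iff (cp x).1 (cp x).2
  rw [← eq_cp x] at h
  rw [h]
  have h2 := nm_eq_Nz (cp x).1 (cp x).2
  rw [← eq_cp x] at h2
  rw [h2]
  exact_mod_cast Iff.rfl

instance pidO : IsPrincipalIdealRing (𝓞 K) where
  principal I := by
    by_cases hI : I = ⊥
    · subst hI
      exact ⟨⟨0, by simp⟩⟩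
    · obtain ⟨x, hx, hx0⟩ := Submodule.exists_mem_ne_zero_of_ne_bot hI
      have hex : ∃ n, ∃ y ∈ I, y ≠ 0 ∧ Nz y = n := ⟨_, x, hx, hx0, rfl⟩
      classical
      obtain ⟨y, hy, hy0, hyn⟩ := Nat.find_spec hex
      refine ⟨⟨y, le_antisymm ?_ ((Ideal.span_singleton_le_iff_mem I).2 hy)⟩⟩
      intro z hz
      obtain ⟨q, hq⟩ := exists_rem' y z hy0
      rw [nE_eq, nE_eq] at hq
      have h1 : z - y * q ∈ I := I.sub_mem hz (I.mul_mem_right q hy)
      have h2 : z - y * q = 0 := by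
        by_contra h3
        have h4 : Nz y ≠ 0 := fun h => hy0 (Nz_eq_zero.1 h)
        exact Nat.find_min hex (by omega) ⟨_, h1, h3, rfl⟩
      exact Ideal.mem_span_singleton.2 ⟨q, sub_eq_zero.1 h2⟩

theorem card_quot (x : 𝓞 K) : Nat.card (𝓞 K ⧸ Ideal.span {x}) = Nz x := by
  have h := Ideal.absNorm_span_singleton x
  rw [Ideal.absNorm_apply, Submodule.cardQuot_apply] at h
  exact h

/-- The elements congruent to `1` modulo `2 √-3`. -/
def InP (x : 𝓞 K) : Prop := 2 * s3 ∣ x - 1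

theorem inP_iff (x : 𝓞 K) : InP x ↔
    (cp x).1 % 2 = 1 ∧ (cp x).2 % 2 = 0 ∧ ((cp x).1 + (cp x).2) % 3 = 1 := by
  constructor
  · rintro ⟨t, ht⟩
    have h1 : x = ((1 + 2 * (cp t).1 - 4 * (cp t).2 : ℤ) : 𝓞 K) +
        ((4 * (cp t).1 - 2 * (cp t).2 : ℤ) : 𝓞 K) * wO := by
      have h2 := eq_cp t
      unfold s3 at ht
      push_cast
      linear_combination ht + (2 * (1 + 2 * wO)) * h2 + 4 * ((cp t).2 : 𝓞 K) * wO_quad
    have h3 : cp x = (1 + 2 * (cp t).1 - 4 * (cp t).2, 4 * (cp t).1 - 2 * (cp t).2) := by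
      rw [h1]
      exact cp_coords _ _
    rw [h3]
    dsimp only
    omega
  · rintro ⟨h1, h2, h3⟩
    obtain ⟨c, d, h4, h5⟩ : ∃ c d : ℤ, (cp x).1 = 1 + 2 * c - 4 * d ∧ (cp x).2 = 4 * c - 2 * d := by
      refine ⟨(1 + 2 * (cp x).2 - (cp x).1) / 6,
        2 * ((1 + 2 * (cp x).2 - (cp x).1) / 6) - (cp x).2 / 2, ?_, ?_⟩ <;> omega
    refine ⟨(c : 𝓞 K) + d * wO, ?_⟩
    conv_lhs => rw [eq_cp x, h4, h5]
    unfold s3
    push_cast
    linear_combination (-4 * (d : 𝓞 K)) * wO_quad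

theorem inP_one : InP 1 := by
  unfold InP
  simp

theorem InP.two {x : 𝓞 K} (h : InP x) : (2 : 𝓞 K) ∣ x - 1 := (dvd_mul_right _ _).trans h

theorem InP.mul {x y : 𝓞 K} (hx : InP x) (hy : InP y) : InP (x * y) := by
  obtain ⟨a, ha⟩ := hx
  obtain ⟨b, hb⟩ := hy
  refine ⟨a * y + b, ?_⟩
  linear_combination y * ha + hb

theorem InP.of_mul {x y : 𝓞 K} (hx : InP x) (h : InP (x * y)) : InP y := by
  obtain ⟨a, ha⟩ := hx
  obtain ⟨b, hb⟩ := h
  refine ⟨b - a * y, ?_⟩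
  linear_combination hb - y * ha

theorem InP.Nz_mod {x : 𝓞 K} (hx : InP x) : Nz x % 6 = 1 := by
  obtain ⟨h1, h2, h3⟩ := (inP_iff x).1 hx
  have h4 := Nz_coords (cp x).1 (cp x).2
  rw [← eq_cp x] at h4
  obtain ⟨k, hk⟩ : ∃ k, (cp x).2 = 2 * k := ⟨(cp x).2 / 2, by omega⟩
  obtain ⟨l, hl⟩ : ∃ l, (cp x).1 = 1 + 6 * l - 2 * k ∨ (cp x).1 = 4 + 6 * l - 2 * k := by
    refine ⟨((cp x).1 + 2 * k - 1) / 6, ?_⟩
    omega
  have hl' : (cp x).1 = 1 + 6 * l - 2 * k := by omega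
  rw [hl', hk] at h4
  have h5 : (Nz x : ℤ) = 1 + 6 * (2 * l + 6 * l ^ 2 - k - 6 * l * k + 2 * k ^ 2) := by
    rw [h4]
    ring
  omega

theorem InP.ne_zero {x : 𝓞 K} (hx : InP x) : x ≠ 0 := by
  intro h
  have h1 := hx.Nz_mod
  rw [Nz_eq_zero.2 h] at h1
  omega

theorem Pq.inP (q : Pq) : InP q.1 := q.2.2

theorem inP_coords {p q : ℤ} (h1 : p % 2 = 1) (h2 : q % 2 = 0) (h3 : (p + q) % 3 = 1) :
    InP ((p : 𝓞 K) + q * wO) := by
  rw [inP_iff, cp_coords]
  exact ⟨h1, h2, h3⟩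

theorem exists_unit {x : 𝓞 K} (h2 : ¬ (2 : 𝓞 K) ∣ x) (h3 : ¬ s3 ∣ x) :
    ∃ u : 𝓞 K, IsUnit u ∧ InP (u * x) := by
  obtain ⟨⟨p, q⟩, hx⟩ := exists_coords x
  dsimp only at hx
  have h4 : ¬ (p % 2 = 0 ∧ q % 2 = 0) := by
    rintro ⟨hp, hq⟩
    apply h2
    obtain ⟨a, ha⟩ := Int.dvd_of_emod_eq_zero hp
    obtain ⟨b, hb⟩ := Int.dvd_of_emod_eq_zero hq
    refine ⟨a + b * wO, ?_⟩
    rw [hx, ha, hb]
    push_cast
    ring
  have h5 : (p + q) % 3 ≠ 0 := by
    intro h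
    apply h3
    obtain ⟨a, ha⟩ := Int.dvd_of_emod_eq_zero h
    refine ⟨-s3 * a + q * (1 + wO), ?_⟩
    have hp : (p : 𝓞 K) = 3 * a - q := by
      have : p = 3 * a - q := by omega
      rw [this]
      push_cast
      ring
    rw [hx, hp]
    have hs := s3_sq
    unfold s3 at hs ⊢
    linear_combination (a : 𝓞 K) * hs - 2 * (q : 𝓞 K) * wO_quad
  have hw3 : wO * (wO * wO) = 1 := by linear_combination (wO - 1) * wO_quad
  have hw : IsUnit wO := IsUnit.of_mul_eq_one _ hw3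
  have hm : ∀ u : 𝓞 K, IsUnit u → IsUnit (-u) := fun u hu => hu.neg
  obtain ⟨s, hs⟩ : ∃ s : ℤ, (s = 1 ∨ s = -1) ∧ (s * (p + q)) % 3 = 1 := by
    by_cases h : (p + q) % 3 = 1
    · exact ⟨1, Or.inl rfl, by omega⟩
    · exact ⟨-1, Or.inr rfl, by omega⟩
  have hsu : IsUnit (s : 𝓞 K) := by
    rcases hs.1 with h | h <;> rw [h] <;> simp
  rcases Int.emod_two_eq_zero_or_one p with hp | hp
  · refine ⟨s * (wO * wO), hsu.mul (hw.mul hw), ?_⟩
    have e : (s : 𝓞 K) * (wO * wO) * x = ((s * (q - p) : ℤ) : 𝓞 K) + ((s * (-p) : ℤ) : 𝓞 K) * wO := by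
      rw [hx]
      push_cast
      linear_combination (s : 𝓞 K) * (p + q * (wO - 1)) * wO_quad
    rw [e]
    rcases hs with ⟨h | h, h'⟩ <;> subst h <;> apply inP_coords <;> omega
  · rcases Int.emod_two_eq_zero_or_one q with hq | hq
    · refine ⟨s, hsu, ?_⟩
      have e : (s : 𝓞 K) * x = ((s * p : ℤ) : 𝓞 K) + ((s * q : ℤ) : 𝓞 K) * wO := by
        rw [hx]
        push_cast
        ring
      rw [e]
      rcases hs with ⟨h | h, h'⟩ <;> subst h <;> apply inP_coords <;> omega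
    · refine ⟨s * wO, hsu.mul hw, ?_⟩
      have e : (s : 𝓞 K) * wO * x = ((s * (-q) : ℤ) : 𝓞 K) + ((s * (p - q) : ℤ) : 𝓞 K) * wO := by
        rw [hx]
        push_cast
        linear_combination (s : 𝓞 K) * q * wO_quad
      rw [e]
      rcases hs with ⟨h | h, h'⟩ <;> subst h <;> apply inP_coords <;> omega

theorem eq_of_associated {x y : 𝓞 K} (hx : InP x) (hy : InP y) (h : Associated x y) : x = y := by
  obtain ⟨u, hu⟩ := h
  have h1 : InP (u : 𝓞 K) := InP.of_mul hx (hu ▸ hy)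
  rw [unit_eq_one u.isUnit h1, mul_one] at hu
  exact hu

theorem exists_prime_dvd {x : 𝓞 K} (hx : InP x) (h1 : x ≠ 1) : ∃ q : Pq, q.1 ∣ x := by
  have h2 : ¬ IsUnit x := fun h => h1 (unit_eq_one h hx)
  obtain ⟨p, hp, hpx⟩ := WfDvdMonoid.exists_irreducible_factor h2 hx.ne_zero
  have h3 : ¬ (2 : 𝓞 K) ∣ p := by
    intro h
    have h4 := dvd_sub (h.trans hpx) hx.two
    rw [sub_sub_cancel] at h4
    have h5 := isUnit_iff_Nz.1 (isUnit_of_dvd_one h4)
    have h6 : Nz 2 = 4 := by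
      have := Nz_coords 2 0
      simp at this
      exact_mod_cast this
    omega
  have h4 : ¬ s3 ∣ p := by
    intro h
    have h4 := dvd_sub (h.trans hpx) ((dvd_mul_left _ _).trans hx)
    rw [sub_sub_cancel] at h4
    have h5 := isUnit_iff_Nz.1 (isUnit_of_dvd_one h4)
    have h6 : Nz s3 = 3 := by
      have := Nz_coords 1 2
      unfold s3
      simp at this
      exact_mod_cast this
    omega
  obtain ⟨u, hu, hup⟩ := exists_unit h3 h4
  have h5 : Prime (u * p) := by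
    have h6 : Associated p (u * p) := by
      obtain ⟨v, rfl⟩ := hu
      exact ⟨v, mul_comm _ _⟩
    exact h6.prime hp.prime
  refine ⟨⟨u * p, h5, hup⟩, ?_⟩
  exact (hu.mul_left_dvd).2 hpx

theorem half_one_add (y : 𝓞 K) : half (1 + 2 * y) = y := half_eq y

/-- The class of a product. -/
theorem cls_mul {x y : 𝓞 K} (hx : (2 : 𝓞 K) ∣ x - 1) (hy : (2 : 𝓞 K) ∣ y - 1) :
    red (half (x * y)) = red (half x) + red (half y) := by
  have h1 := half_spec hx
  have h2 := half_spec hy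
  have h3 : x * y = 1 + 2 * (half x + half y + 2 * (half x * half y)) := by
    conv_lhs => rw [h1, h2]
    ring
  rw [h3, half_eq, map_add, map_add, map_mul]
  have h4 : red 2 = 0 := by
    have : (2 : F4) = 0 := CharTwo.two_eq_zero
    rw [map_ofNat, this]
  rw [h4, zero_mul, add_zero]

theorem cls_one : red (half 1) = 0 := by
  have h : (1 : 𝓞 K) = 1 + 2 * 0 := by ring
  rw [h, half_eq, map_zero]

theorem red_eq_zero_iff {x : 𝓞 K} : red x = 0 ↔ (2 : 𝓞 K) ∣ x := by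
  constructor
  · intro h
    have h1 : (((cp x).1 : ℤ) : ZMod 2) = 0 := congrArg F4.a h
    have h2 : (((cp x).2 : ℤ) : ZMod 2) = 0 := congrArg F4.b h
    rw [ZMod.intCast_zmod_eq_zero_iff_dvd] at h1 h2
    obtain ⟨a, ha⟩ := h1
    obtain ⟨b, hb⟩ := h2
    refine ⟨a + b * wO, ?_⟩
    conv_lhs => rw [eq_cp x, ha, hb]
    push_cast
    ring
  · rintro ⟨y, rfl⟩
    have h4 : red 2 = 0 := by
      have : (2 : F4) = 0 := CharTwo.two_eq_zero
      rw [map_ofNat, this]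
    rw [map_mul, h4, zero_mul]

/-- The class only depends on the residue modulo 4. -/
theorem cls_congr {x y : 𝓞 K} (hx : (2 : 𝓞 K) ∣ x - 1) (h : (4 : 𝓞 K) ∣ x - y) :
    red (half x) = red (half y) := by
  obtain ⟨t, ht⟩ := h
  have h1 := half_spec hx
  have h2 : y = 1 + 2 * (half x - 2 * t) := by
    linear_combination h1 - ht
  rw [h2, half_eq, map_sub, map_mul, red_eq_zero_iff.2 (dvd_refl _), zero_mul, sub_zero]

theorem cls_eq_zero {x : 𝓞 K} (hx : (2 : 𝓞 K) ∣ x - 1) :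
    red (half x) = 0 ↔ (4 : 𝓞 K) ∣ x - 1 := by
  rw [red_eq_zero_iff]
  have h1 := half_spec hx
  have h2 : x - 1 = 2 * half x := by linear_combination h1
  rw [h2]
  have h3 : (4 : 𝓞 K) = 2 * 2 := by norm_num
  rw [h3]
  exact (mul_dvd_mul_iff_left two_ne_zero).symm

theorem DD_empty : DD ∅ = 1 := rfl

theorem DD_insert {q : Pq} {S : Finset Pq} (h : q ∉ S) : DD (insert q S) = q.1 * DD S :=
  prod_insert h

theorem DD_inP (S : Finset Pq) : InP (DD S) := by
  induction S using Finset.induction_on with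
  | empty => exact inP_one
  | insert q S hq ih =>
    rw [DD_insert hq]
    exact q.inP.mul ih

theorem cls_DD (S : Finset Pq) : red (half (DD S)) = qd.A S := by
  induction S using Finset.induction_on with
  | empty => exact cls_one
  | insert q S hq ih =>
    rw [DD_insert hq, cls_mul q.inP.two (DD_inP S).two, ih, qd_A, qd_A, sum_insert hq]
    rfl

theorem Nz_DD (S : Finset Pq) : Nz (DD S) = nm S := by
  induction S using Finset.induction_on with
  | empty => exact Nz_one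
  | insert q S hq ih =>
    rw [DD_insert hq, Nz_mul, ih, nm, nm, prod_insert hq]
    rfl

theorem dvd_DD {q : Pq} {S : Finset Pq} : q.1 ∣ DD S ↔ q ∈ S := by
  constructor
  · intro h
    obtain ⟨p, hp, hqp⟩ := (q.prime.dvd_finsetProd_iff _).1 h
    by_contra hq
    exact Pq.not_dvd (fun e : q = p => hq (by rw [e]; exact hp)) hqp
  · intro h
    exact dvd_prod_of_mem (fun q : Pq => q.1) h

theorem DD_inj : Function.Injective DD := by
  intro S T h
  ext q
  rw [← dvd_DD, ← dvd_DD, h]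

theorem DD_squarefree (S : Finset Pq) : Squarefree (DD S) := by
  rw [squarefree_iff_no_irreducibles (DD_inP S).ne_zero]
  intro p hp hpp
  have hp' : Prime p := hp.prime
  have h1 : p ∣ DD S := (dvd_mul_right _ _).trans hpp
  obtain ⟨q, hq, hpq⟩ := (hp'.dvd_finsetProd_iff _).1 h1
  have h2 : Associated p q.1 := isEis.assoc_of_dvd hp' q.prime hpq
  have h3 : q.1 * q.1 ∣ DD S := (h2.symm.mul_mul h2.symm).dvd.trans hpp
  rw [← insert_erase hq, DD_insert (notMem_erase q S)] at h3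
  have h4 : q.1 ∣ DD (S.erase q) := (mul_dvd_mul_iff_left q.prime.ne_zero).1 h3
  exact notMem_erase q S (dvd_DD.1 h4)

theorem exists_DD {x : 𝓞 K} (hx : InP x) (hs : Squarefree x) : ∃ S : Finset Pq, DD S = x := by
  obtain ⟨n, hn⟩ : ∃ n, Nz x = n := ⟨_, rfl⟩
  induction n using Nat.strong_induction_on generalizing x with
  | _ n ih =>
    by_cases h1 : x = 1
    · exact ⟨∅, by rw [DD_empty, h1]⟩
    · obtain ⟨q, y, hy⟩ := exists_prime_dvd hx h1
      have h2 : InP y := InP.of_mul q.inP (hy ▸ hx)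
      have h3 : Squarefree y := hs.squarefree_of_dvd ⟨q.1, by rw [hy, mul_comm]⟩
      have h4 : Nz y < n := by
        rw [← hn, hy, Nz_mul]
        have h5 := Nz_two_le q.prime
        have h6 : Nz y ≠ 0 := fun h => h2.ne_zero (Nz_eq_zero.1 h)
        nlinarith [Nat.pos_of_ne_zero h6]
      obtain ⟨S, hS⟩ := ih _ h4 h2 h3 rfl
      have h5 : q ∉ S := by
        intro hq
        have h6 : q.1 ∣ y := hS ▸ dvd_DD.2 hq
        have h7 : q.1 * q.1 ∣ x := by
          rw [hy]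
          exact mul_dvd_mul_left _ h6
        exact q.prime.not_isUnit (hs _ h7)
      exact ⟨insert q S, by rw [DD_insert h5, hS, hy]⟩

end

end Pool.Agent.Lib.MP_1a91b9_ntH
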