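import Pool.Agent.Lib.MP_1a91b9_ntH.R.Ring

/-!
# MP_1a91b9_nt (TwistDensity), part R: Euler products by sieving (R5 and the analytic half of R6)
-/

set_option autoImplicit false

namespace Pool.Agent.Lib.MP_1a91b9_ntH

open NumberField Finset Pool.Agent.Lib.MP_1a91b9_ntT

noncomputable section

/-- A completely multiplicative function on the normalised elements. -/
structure MulP (F : 𝓞 K → ℝ) : Prop where
  one : F 1 = 1
  mul : ∀ x y, InP x → InP y → F (x * y) = F x * F y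
  zero : ∀ x, ¬ InP x → F x = 0
  le : ∀ x, |F x| ≤ 1

theorem Nz_nonneg_rpow (x : 𝓞 K) (σ : ℝ) : 0 ≤ (Nz x : ℝ) ^ (-σ) :=
  Real.rpow_nonneg (Nat.cast_nonneg _) _

theorem sum_disc_two_pow (σ : ℝ) (h : 1 < σ) (n : ℕ) :
    ∑ x ∈ discE (𝓞 K) (2 ^ n), (Nz x : ℝ) ^ (-σ) ≤
      25 + 50 * ∑ k ∈ range n, ((2 : ℝ) ^ (-(σ - 1))) ^ k := by
  classical
  induction n with
  | zero =>
    simp only [pow_zero, range_zero, sum_empty, mul_zero, add_zero]
    calc ∑ x ∈ discE (𝓞 K) 1, (Nz x : ℝ) ^ (-σ) ≤ ∑ x ∈ discE (𝓞 K) 1, (1 : ℝ) := by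
          apply sum_le_sum
          intro x hx
          rw [mem_disc] at hx
          rcases Nat.eq_zero_or_pos (Nz x) with h0 | h0
          · rw [h0, Nat.cast_zero, Real.zero_rpow (by linarith)]
            norm_num
          · have : Nz x = 1 := by omega
            rw [this, Nat.cast_one, Real.one_rpow]
      _ = ((discE (𝓞 K) 1).card : ℝ) := by simp
      _ ≤ 25 := by
          have := card_discE_le' (R := 𝓞 K) 1 le_rfl
          exact_mod_cast this
  | succ n ih =>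
    have hsub : discE (𝓞 K) (2 ^ n) ⊆ discE (𝓞 K) (2 ^ (n + 1)) := by
      intro x hx
      rw [mem_disc] at hx ⊢
      exact hx.trans (Nat.pow_le_pow_right (by norm_num) (by omega))
    rw [← sum_sdiff hsub, sum_range_succ, mul_add]
    have h1 : ∑ x ∈ discE (𝓞 K) (2 ^ (n + 1)) \ discE (𝓞 K) (2 ^ n), (Nz x : ℝ) ^ (-σ) ≤
        50 * ((2 : ℝ) ^ (-(σ - 1))) ^ n := by
      calc ∑ x ∈ discE (𝓞 K) (2 ^ (n + 1)) \ discE (𝓞 K) (2 ^ n), (Nz x : ℝ) ^ (-σ)
          ≤ ∑ x ∈ discE (𝓞 K) (2 ^ (n + 1)) \ discE (𝓞 K) (2 ^ n), ((2 : ℝ) ^ n) ^ (-σ) := by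
            apply sum_le_sum
            intro x hx
            rw [mem_sdiff, mem_disc, mem_disc] at hx
            apply Real.rpow_le_rpow_of_nonpos (by positivity) _ (by linarith)
            have : 2 ^ n ≤ Nz x := by omega
            exact_mod_cast this
        _ = ((discE (𝓞 K) (2 ^ (n + 1)) \ discE (𝓞 K) (2 ^ n)).card : ℝ) * ((2 : ℝ) ^ n) ^ (-σ) := by
            rw [sum_const, nsmul_eq_mul]
        _ ≤ (25 * 2 ^ (n + 1) : ℝ) * ((2 : ℝ) ^ n) ^ (-σ) := by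
            apply mul_le_mul_of_nonneg_right _ (by positivity)
            have h2 := card_discE_le' (R := 𝓞 K) (2 ^ (n + 1)) Nat.one_le_two_pow
            have h3 := card_le_card (sdiff_subset (s := discE (𝓞 K) (2 ^ (n + 1)))
              (t := discE (𝓞 K) (2 ^ n)))
            exact_mod_cast h3.trans h2
        _ = 50 * ((2 : ℝ) ^ (-(σ - 1))) ^ n := by
            have h4 : ((2 : ℝ) ^ n) ^ (-σ) = ((2 : ℝ) ^ (-σ)) ^ n := by
              rw [← Real.rpow_natCast, ← Real.rpow_natCast, ← Real.rpow_mul (by norm_num),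
                ← Real.rpow_mul (by norm_num), mul_comm]
            have h5 : (2 : ℝ) ^ (-(σ - 1)) = 2 * (2 : ℝ) ^ (-σ) := by
              rw [show -(σ - 1) = 1 + -σ by ring, Real.rpow_add (by norm_num), Real.rpow_one]
            rw [h4, h5, mul_pow, pow_succ]
            ring
    linarith

theorem two_rpow_lt {σ : ℝ} (h : 1 < σ) : (2 : ℝ) ^ (-(σ - 1)) < 1 :=
  Real.rpow_lt_one_of_one_lt_of_neg (by norm_num) (by linarith)

theorem sum_finset_le (σ : ℝ) (h : 1 < σ) (s : Finset (𝓞 K)) :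
    ∑ x ∈ s, (Nz x : ℝ) ^ (-σ) ≤ 25 + 50 / (1 - (2 : ℝ) ^ (-(σ - 1))) := by
  obtain ⟨n, hn⟩ : ∃ n : ℕ, ∀ x ∈ s, Nz x ≤ n := ⟨s.sup Nz, fun x hx => le_sup (f := Nz) hx⟩
  have h1 : s ⊆ discE (𝓞 K) (2 ^ n) := by
    intro x hx
    rw [mem_disc]
    exact (hn x hx).trans (Nat.lt_two_pow_self).le
  have h2 := sum_disc_two_pow σ h n
  have h3 : ∑ k ∈ range n, ((2 : ℝ) ^ (-(σ - 1))) ^ k ≤ 1 / (1 - (2 : ℝ) ^ (-(σ - 1))) := by
    have h4 := two_rpow_lt h
    have h5 : (0 : ℝ) ≤ (2 : ℝ) ^ (-(σ - 1)) := by positivity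
    rw [one_div, ← tsum_geometric_of_lt_one h5 h4]
    exact (summable_geometric_of_lt_one h5 h4).sum_le_tsum _ (fun _ _ => by positivity)
  calc ∑ x ∈ s, (Nz x : ℝ) ^ (-σ) ≤ ∑ x ∈ discE (𝓞 K) (2 ^ n), (Nz x : ℝ) ^ (-σ) :=
        sum_le_sum_of_subset_of_nonneg h1 fun x _ _ => Nz_nonneg_rpow x σ
    _ ≤ 25 + 50 * ∑ k ∈ range n, ((2 : ℝ) ^ (-(σ - 1))) ^ k := h2
    _ ≤ 25 + 50 * (1 / (1 - (2 : ℝ) ^ (-(σ - 1)))) := by linarith
    _ = 25 + 50 / (1 - (2 : ℝ) ^ (-(σ - 1))) := by ring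

theorem summable_Nz (σ : ℝ) (h : 1 < σ) : Summable fun x : 𝓞 K => (Nz x : ℝ) ^ (-σ) :=
  summable_of_sum_le (fun x => Nz_nonneg_rpow x σ) (sum_finset_le σ h)

theorem tsum_Nz_le : ∃ C : ℝ, ∀ σ : ℝ, 1 < σ → σ ≤ 3 → ∑' x : 𝓞 K, (Nz x : ℝ) ^ (-σ) ≤ C / (σ - 1) := by
  refine ⟨300, fun σ h1 h3 => ?_⟩
  have h4 : ∑' x : 𝓞 K, (Nz x : ℝ) ^ (-σ) ≤ 25 + 50 / (1 - (2 : ℝ) ^ (-(σ - 1))) :=
    (summable_Nz σ h1).tsum_le_of_sum_le (sum_finset_le σ h1)
  refine h4.trans ?_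
  have ht : 0 < σ - 1 := by linarith
  obtain ⟨t, htd⟩ : ∃ t, t = σ - 1 := ⟨_, rfl⟩
  rw [← htd] at ht ⊢
  have ht2 : t ≤ 2 := by linarith
  have h5 : (1 / 4) * t ≤ 1 - (2 : ℝ) ^ (-t) := by
    have h6 : (2 : ℝ) ^ (-t) = (Real.exp (t * Real.log 2))⁻¹ := by
      rw [← Real.exp_neg, Real.rpow_def_of_pos (by norm_num)]
      congr 1
      ring
    have h7 : 1 + t * Real.log 2 ≤ Real.exp (t * Real.log 2) := by
      have := Real.add_one_le_exp (t * Real.log 2)
      linarith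
    have h8 := Real.log_two_gt_d9
    have h9 := Real.log_two_lt_d9
    have h10 : 0 < 1 + t * Real.log 2 := by nlinarith
    have h11 : (Real.exp (t * Real.log 2))⁻¹ ≤ (1 + t * Real.log 2)⁻¹ :=
      inv_anti₀ h10 h7
    rw [h6]
    have h12 : (1 + t * Real.log 2)⁻¹ ≤ 1 - 1 / 4 * t := by
      have h13 : 0 ≤ t * (Real.log 2 - 1 / 4 - t * Real.log 2 / 4) :=
        mul_nonneg ht.le (by nlinarith)
      rw [inv_le_iff_one_le_mul₀ h10]
      nlinarith
    linarith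
  have h6 : 50 / (1 - (2 : ℝ) ^ (-t)) ≤ 50 / ((1 / 4) * t) :=
    div_le_div_of_nonneg_left (by norm_num) (by linarith) h5
  have h7 : (25 : ℝ) ≤ 50 / t := by
    rw [le_div_iff₀ ht]
    linarith
  calc 25 + 50 / (1 - (2 : ℝ) ^ (-t)) ≤ 50 / t + 50 / ((1 / 4) * t) := by linarith
    _ = 250 / t := by
        field_simp
        norm_num
    _ ≤ 300 / t := by
        apply div_le_div_of_nonneg_right (by norm_num) ht.le

theorem MulP.term_le {F : 𝓞 K → ℝ} (hF : ∀ x, |F x| ≤ 1) (σ : ℝ) (x : 𝓞 K) :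
    ‖F x * (Nz x : ℝ) ^ (-σ)‖ ≤ (Nz x : ℝ) ^ (-σ) := by
  rw [norm_mul, Real.norm_eq_abs, Real.norm_eq_abs, abs_of_nonneg (Nz_nonneg_rpow x σ)]
  exact mul_le_of_le_one_left (Nz_nonneg_rpow x σ) (hF x)

/-- Not divisible by the primes of `s`. -/
def NoDiv (s : Finset Pq) (x : 𝓞 K) : Prop := ∀ q ∈ s, ¬ q.1 ∣ x

theorem noDiv_insert {q : Pq} {s : Finset Pq} {x : 𝓞 K} :
    NoDiv (insert q s) x ↔ ¬ q.1 ∣ x ∧ NoDiv s x := by
  unfold NoDiv
  exact forall_mem_insert _ _ _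

theorem noDiv_one (s : Finset Pq) : NoDiv s 1 := by
  intro q _ hq
  exact q.prime.not_isUnit (isUnit_of_dvd_one hq)

theorem term_ite_le {F : 𝓞 K → ℝ} (hF : ∀ x, |F x| ≤ 1) (σ : ℝ) (p : 𝓞 K → Prop)
    [DecidablePred p] (x : 𝓞 K) :
    ‖if p x then F x * (Nz x : ℝ) ^ (-σ) else 0‖ ≤ (Nz x : ℝ) ^ (-σ) := by
  split_ifs
  · exact MulP.term_le hF σ x
  · rw [norm_zero]
    exact Nz_nonneg_rpow x σ

theorem summable_ite {F : 𝓞 K → ℝ} (hF : ∀ x, |F x| ≤ 1) (σ : ℝ) (h : 1 < σ)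
    (p : 𝓞 K → Prop) [DecidablePred p] :
    Summable fun x => if p x then F x * (Nz x : ℝ) ^ (-σ) else 0 :=
  Summable.of_norm_bounded (summable_Nz σ h) (term_ite_le hF σ p)

theorem summable_F {F : 𝓞 K → ℝ} (hF : ∀ x, |F x| ≤ 1) (σ : ℝ) (h : 1 < σ) :
    Summable fun x => F x * (Nz x : ℝ) ^ (-σ) :=
  Summable.of_norm_bounded (summable_Nz σ h) (MulP.term_le hF σ)

open Classical in
theorem sieve {F : 𝓞 K → ℝ} (hF : MulP F) (σ : ℝ) (h : 1 < σ) (s : Finset Pq) :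
    (∑' x, F x * (Nz x : ℝ) ^ (-σ)) * ∏ q ∈ s, (1 - F q.1 * (Nz q.1 : ℝ) ^ (-σ)) =
      ∑' x, if NoDiv s x then F x * (Nz x : ℝ) ^ (-σ) else 0 := by
  induction s using Finset.induction_on with
  | empty =>
    rw [prod_empty, mul_one]
    apply tsum_congr
    intro x
    have h2 : NoDiv ∅ x := fun q hq => absurd hq (notMem_empty q)
    rw [if_pos h2]
  | insert q s hq ih =>
    have h1 : ∑' x, (if NoDiv s x then F x * (Nz x : ℝ) ^ (-σ) else 0) =
        ∑' x, (if NoDiv (insert q s) x then F x * (Nz x : ℝ) ^ (-σ) else 0) +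
        ∑' x, (if NoDiv s x ∧ q.1 ∣ x then F x * (Nz x : ℝ) ^ (-σ) else 0) := by
      rw [← (summable_ite hF.le σ h (fun x => NoDiv (insert q s) x)).tsum_add
        (summable_ite hF.le σ h (fun x => NoDiv s x ∧ q.1 ∣ x))]
      apply tsum_congr
      intro x
      by_cases h2 : NoDiv s x
      · by_cases h3 : q.1 ∣ x
        · rw [if_pos h2, if_neg (by rw [noDiv_insert]; tauto), if_pos ⟨h2, h3⟩, zero_add]
        · rw [if_pos h2, if_pos (noDiv_insert.2 ⟨h3, h2⟩), if_neg (by tauto), add_zero]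
      · rw [if_neg h2, if_neg (by rw [noDiv_insert]; tauto), if_neg (by tauto), add_zero]
    have h2 : ∑' x, (if NoDiv s x ∧ q.1 ∣ x then F x * (Nz x : ℝ) ^ (-σ) else 0) =
        (F q.1 * (Nz q.1 : ℝ) ^ (-σ)) *
          ∑' x, (if NoDiv s x then F x * (Nz x : ℝ) ^ (-σ) else 0) := by
      rw [← (mul_right_injective₀ q.prime.ne_zero).tsum_eq, ← tsum_mul_left]
      · apply tsum_congr
        intro y
        by_cases hy : InP y
        · have h3 : (NoDiv s (q.1 * y) ∧ q.1 ∣ q.1 * y) ↔ NoDiv s y := by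
            constructor
            · intro h4 p hp hpy
              exact h4.1 p hp (hpy.mul_left _)
            · intro h4
              refine ⟨fun p hp hpy => ?_, dvd_mul_right _ _⟩
              rcases p.prime.dvd_or_dvd hpy with h5 | h5
              · exact Pq.not_dvd (fun e : p = q => hq (by rw [← e]; exact hp)) h5
              · exact h4 p hp h5
          rw [if_congr h3 rfl rfl]
          split_ifs
          · rw [hF.mul _ _ q.inP hy, Nz_mul, Nat.cast_mul,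
              Real.mul_rpow (Nat.cast_nonneg _) (Nat.cast_nonneg _)]
            ring
          · rw [mul_zero]
        · have h3 : ¬ InP (q.1 * y) := fun h4 => hy (InP.of_mul q.inP h4)
          rw [hF.zero _ h3, hF.zero _ hy]
          simp
      · intro x hx
        rw [Function.mem_support] at hx
        have h3 : q.1 ∣ x := by
          by_contra h4
          apply hx
          rw [if_neg (by tauto)]
        obtain ⟨y, hy⟩ := h3
        exact ⟨y, hy.symm⟩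
    rw [prod_insert hq]
    have h3 : (∑' x, F x * (Nz x : ℝ) ^ (-σ)) *
        ((1 - F q.1 * (Nz q.1 : ℝ) ^ (-σ)) * ∏ q ∈ s, (1 - F q.1 * (Nz q.1 : ℝ) ^ (-σ))) =
        ((∑' x, F x * (Nz x : ℝ) ^ (-σ)) * ∏ q ∈ s, (1 - F q.1 * (Nz q.1 : ℝ) ^ (-σ))) *
          (1 - F q.1 * (Nz q.1 : ℝ) ^ (-σ)) := by ring
    rw [h3, ih]
    rw [h2] at h1
    linear_combination h1

open Classical in
/-- The indicator function of the normalised elements. -/
def indP (x : 𝓞 K) : ℝ := if InP x then 1 else 0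

theorem indP_mulP : MulP indP where
  one := if_pos inP_one
  mul x y hx hy := by
    unfold indP
    rw [if_pos hx, if_pos hy, if_pos (hx.mul hy), one_mul]
  zero x hx := if_neg hx
  le x := by
    unfold indP
    split_ifs <;> simp

theorem one_sub_pos {F : 𝓞 K → ℝ} (hF : MulP F) (σ : ℝ) (h : 1 < σ) (q : Pq) :
    0 < 1 - F q.1 * (Nz q.1 : ℝ) ^ (-σ) := by
  have h1 : (Nz q.1 : ℝ) ^ (-σ) < 1 := by
    apply Real.rpow_lt_one_of_one_lt_of_neg _ (by linarith)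
    have := Nz_two_le q.prime
    have h2 : 1 < Nz q.1 := by omega
    exact_mod_cast h2
  have h2 := hF.le q.1
  have h3 := Nz_nonneg_rpow q.1 σ
  have h4 := abs_le.1 h2
  nlinarith

theorem zt : ∃ C, Zt Pq C := by
  classical
  obtain ⟨C, hC⟩ := tsum_Nz_le
  refine ⟨C, fun σ x h1 h3 => ?_⟩
  have h4 := sieve indP_mulP σ h1 (pr Pq x)
  have h5 : ∑' x, indP x * (Nz x : ℝ) ^ (-σ) ≤ C / (σ - 1) := by
    refine le_trans ?_ (hC σ h1 h3)
    refine (summable_F indP_mulP.le σ h1).tsum_le_tsum (fun y => ?_) (summable_Nz σ h1)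
    exact (le_abs_self _).trans (MulP.term_le indP_mulP.le σ y)
  have h6 : (1 : ℝ) ≤ ∑' y, if NoDiv (pr Pq x) y then indP y * (Nz y : ℝ) ^ (-σ) else 0 := by
    have h7 := (summable_ite indP_mulP.le σ h1 (fun y => NoDiv (pr Pq x) y)).le_tsum
      (1 : 𝓞 K) (fun y _ => by
        split_ifs
        · refine mul_nonneg ?_ (Nz_nonneg_rpow y σ)
          unfold indP
          split_ifs <;> norm_num
        · exact le_rfl)
    refine le_trans (le_of_eq ?_) h7
    rw [if_pos (noDiv_one _), indP_mulP.one, Nz_one]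
    simp
  have h7 : ∏ q ∈ pr Pq x, (1 - indP q.1 * (Nz q.1 : ℝ) ^ (-σ)) =
      ∏ q ∈ pr Pq x, (1 - (PS.N q : ℝ) ^ (-σ)) := by
    apply prod_congr rfl
    intro q _
    unfold indP
    rw [if_pos q.inP, one_mul]
    rfl
  have h8 : 0 < ∏ q ∈ pr Pq x, (1 - (PS.N q : ℝ) ^ (-σ)) := by
    rw [← h7]
    exact prod_pos fun q _ => one_sub_pos indP_mulP σ h1 q
  rw [← h4, h7] at h6
  rw [prod_inv_distrib, inv_le_iff_one_le_mul₀ h8]
  exact h6.trans (mul_le_mul_of_nonneg_right h5 h8.le)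

theorem u_diff (σ : ℝ) (h1 : 1 < σ) (h3 : σ ≤ 3) (k : ℕ) (hk : 1 ≤ k) :
    0 ≤ (k : ℝ) ^ (-σ) - ((k + 1 : ℕ) : ℝ) ^ (-σ) ∧
      (k : ℝ) ^ (-σ) - ((k + 1 : ℕ) : ℝ) ^ (-σ) ≤ 3 / (k : ℝ) ^ 2 := by
  have hk0 : (0 : ℝ) < k := by exact_mod_cast hk
  have hk1 : (1 : ℝ) ≤ k := by exact_mod_cast hk
  constructor
  · rw [sub_nonneg]
    apply Real.rpow_le_rpow_of_nonpos hk0 _ (by linarith)
    push_cast
    linarith
  · have h4 : ((k + 1 : ℕ) : ℝ) ^ (-σ) = (k : ℝ) ^ (-σ) * (1 + 1 / (k : ℝ)) ^ (-σ) := by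
      rw [← Real.mul_rpow hk0.le (by positivity)]
      congr 1
      push_cast
      field_simp
    have h5 : (1 + 1 / (k : ℝ)) ^ (-(3 : ℝ)) ≤ (1 + 1 / (k : ℝ)) ^ (-σ) := by
      apply Real.rpow_le_rpow_of_exponent_le _ (by linarith)
      have : 0 < 1 / (k : ℝ) := by positivity
      linarith
    have h6 : 1 - 3 / (k : ℝ) ≤ (1 + 1 / (k : ℝ)) ^ (-(3 : ℝ)) := by
      rw [Real.rpow_neg (by positivity), show (3 : ℝ) = ((3 : ℕ) : ℝ) by norm_num,
        Real.rpow_natCast, ← one_div, le_div_iff₀ (by positivity)]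
      push_cast
      obtain ⟨t, ht⟩ : ∃ t, t = 1 / (k : ℝ) := ⟨_, rfl⟩
      have ht0 : 0 < t := by rw [ht]; positivity
      rw [show (3 : ℝ) / k = 3 * t by rw [ht]; ring, ← ht]
      nlinarith [pow_pos ht0 2, pow_pos ht0 3, pow_pos ht0 4]
    have h7 : (k : ℝ) ^ (-σ) ≤ 1 / k := by
      rw [one_div, ← Real.rpow_neg_one]
      exact Real.rpow_le_rpow_of_exponent_le hk1 (by linarith)
    have h8 : (0 : ℝ) ≤ (k : ℝ) ^ (-σ) := by positivity
    calc (k : ℝ) ^ (-σ) - ((k + 1 : ℕ) : ℝ) ^ (-σ) =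
          (k : ℝ) ^ (-σ) * (1 - (1 + 1 / (k : ℝ)) ^ (-σ)) := by rw [h4]; ring
      _ ≤ (k : ℝ) ^ (-σ) * (3 / k) := by
          apply mul_le_mul_of_nonneg_left _ h8
          linarith
      _ ≤ (1 / k) * (3 / k) := by
          apply mul_le_mul_of_nonneg_right h7
          positivity
      _ = 3 / (k : ℝ) ^ 2 := by
          field_simp

theorem Ioc_succ_eq {a n : ℕ} (h : a ≤ n) : Ioc a (n + 1) = insert (n + 1) (Ioc a n) := by
  ext k
  simp only [mem_insert, mem_Ioc]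
  omega

theorem sum_tail (M n : ℕ) (hM : 1 ≤ M) :
    ∑ k ∈ Ioc M n, Real.sqrt k / (k : ℝ) ^ 2 ≤ 2 / Real.sqrt M := by
  rcases Nat.lt_or_ge n M with hn | hn
  · rw [Ioc_eq_empty (by omega), sum_empty]
    positivity
  have key : ∑ k ∈ Ioc M n, Real.sqrt k / (k : ℝ) ^ 2 ≤ 2 / Real.sqrt M - 2 / Real.sqrt n := by
    induction n, hn using Nat.le_induction with
    | base => simp
    | succ n hn ih =>
      rw [Ioc_succ_eq (by omega), sum_insert (by simp)]
      obtain ⟨a, ha⟩ : ∃ a, a = Real.sqrt n := ⟨_, rfl⟩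
      obtain ⟨b, hb⟩ : ∃ b, b = Real.sqrt ((n + 1 : ℕ) : ℝ) := ⟨_, rfl⟩
      rw [← hb]
      rw [← ha] at ih
      have hn0 : (0 : ℝ) < n := by
        have : 0 < n := by omega
        exact_mod_cast this
      have ha0 : 0 < a := by rw [ha]; exact Real.sqrt_pos.2 hn0
      have hb0 : 0 < b := by rw [hb]; exact Real.sqrt_pos.2 (by positivity)
      have ha2 : a ^ 2 = n := by rw [ha]; exact Real.sq_sqrt hn0.le
      have hb2 : b ^ 2 = n + 1 := by
        rw [hb, Real.sq_sqrt (by positivity)]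
        push_cast
        rfl
      have hab : a ≤ b := by
        by_contra hc
        push Not at hc
        nlinarith
      have h1 : b / (((n + 1 : ℕ) : ℝ)) ^ 2 ≤ 2 / a - 2 / b := by
        have h2 : (((n + 1 : ℕ) : ℝ)) = b ^ 2 := by
          rw [hb2]
          push_cast
          rfl
        have h3 : 2 / a - 2 / b = 2 / (a * b * (a + b)) := by
          have h4 : (b - a) * (a + b) = 1 := by nlinarith
          field_simp
          linear_combination h4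
        rw [h2, h3, div_le_div_iff₀ (by positivity) (by positivity)]
        have h5 : a * b * (a + b) ≤ b * b * (b + b) := by gcongr
        nlinarith [mul_le_mul_of_nonneg_left h5 hb0.le]
      linarith
  have h1 : 0 ≤ 2 / Real.sqrt n := by positivity
  linarith

theorem abel (F : 𝓞 K → ℝ) (σ : ℝ) (h1 : 1 < σ) (n : ℕ) :
    ∑ x ∈ discE (𝓞 K) n, F x * (Nz x : ℝ) ^ (-σ) =
      ∑ k ∈ Ioc 0 n, (∑ x ∈ discE (𝓞 K) k, F x) * ((k : ℝ) ^ (-σ) - ((k + 1 : ℕ) : ℝ) ^ (-σ)) +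
      (∑ x ∈ discE (𝓞 K) n, F x) * ((n + 1 : ℕ) : ℝ) ^ (-σ) - ∑ x ∈ discE (𝓞 K) 0, F x := by
  classical
  induction n with
  | zero =>
    have h2 : ∑ x ∈ discE (𝓞 K) 0, F x * (Nz x : ℝ) ^ (-σ) = 0 := by
      apply sum_eq_zero
      intro x hx
      rw [mem_disc, Nat.le_zero] at hx
      rw [hx, Nat.cast_zero, Real.zero_rpow (by linarith), mul_zero]
    rw [h2]
    simp
  | succ n ih =>
    have hsub : discE (𝓞 K) n ⊆ discE (𝓞 K) (n + 1) := by
      intro x hx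
      rw [mem_disc] at hx ⊢
      omega
    have h2 : ∀ x ∈ discE (𝓞 K) (n + 1) \ discE (𝓞 K) n, Nz x = n + 1 := by
      intro x hx
      rw [mem_sdiff, mem_disc, mem_disc] at hx
      omega
    have h3 : ∑ x ∈ discE (𝓞 K) (n + 1) \ discE (𝓞 K) n, F x * (Nz x : ℝ) ^ (-σ) =
        (∑ x ∈ discE (𝓞 K) (n + 1) \ discE (𝓞 K) n, F x) * ((n + 1 : ℕ) : ℝ) ^ (-σ) := by
      rw [sum_mul]
      apply sum_congr rfl
      intro x hx
      rw [h2 x hx]
    rw [← sum_sdiff hsub, h3, ih, Ioc_succ_eq (by omega), sum_insert (by simp)]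
    have h4 := sum_sdiff (f := F) hsub
    linear_combination ((n + 1 : ℕ) : ℝ) ^ (-σ) * h4

/-- Partial summation. -/
theorem tsum_le_log : ∃ C : ℝ, 1 ≤ C ∧ ∀ (F : 𝓞 K → ℝ) (M : ℕ), (∀ x, |F x| ≤ 1) → 1 ≤ M →
    (∀ X : ℕ, 1 ≤ X → |∑ x ∈ discE (𝓞 K) X, F x| ≤ 20 * Real.sqrt (M * X)) →
    ∀ σ : ℝ, 1 < σ → σ ≤ 3 → |∑' x, F x * (Nz x : ℝ) ^ (-σ)| ≤ C * (1 + Real.log M) := by
  refine ⟨246, by norm_num, fun F M hF hM hX σ h1 h3 => ?_⟩
  have hlog : 0 ≤ Real.log M := Real.log_nonneg (by exact_mod_cast hM)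
  have hA : ∀ k : ℕ, 1 ≤ k → |∑ x ∈ discE (𝓞 K) k, F x| ≤ 25 * k := by
    intro k hk
    calc |∑ x ∈ discE (𝓞 K) k, F x| ≤ ∑ x ∈ discE (𝓞 K) k, |F x| := abs_sum_le_sum_abs _ _
      _ ≤ ∑ x ∈ discE (𝓞 K) k, (1 : ℝ) := sum_le_sum fun x _ => hF x
      _ = ((discE (𝓞 K) k).card : ℝ) := by simp
      _ ≤ 25 * k := by exact_mod_cast card_discE_le' (R := 𝓞 K) k hk
  have hA0 : |∑ x ∈ discE (𝓞 K) 0, F x| ≤ 25 := by
    have h4 : discE (𝓞 K) 0 ⊆ discE (𝓞 K) 1 := by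
      intro x hx
      rw [mem_disc] at hx ⊢
      omega
    calc |∑ x ∈ discE (𝓞 K) 0, F x| ≤ ∑ x ∈ discE (𝓞 K) 0, |F x| := abs_sum_le_sum_abs _ _
      _ ≤ ∑ x ∈ discE (𝓞 K) 0, (1 : ℝ) := sum_le_sum fun x _ => hF x
      _ = ((discE (𝓞 K) 0).card : ℝ) := by simp
      _ ≤ ((discE (𝓞 K) 1).card : ℝ) := by exact_mod_cast card_le_card h4
      _ ≤ 25 := by exact_mod_cast card_discE_le' (R := 𝓞 K) 1 le_rfl
  have key : ∀ n : ℕ, |∑ x ∈ discE (𝓞 K) n, F x * (Nz x : ℝ) ^ (-σ)| ≤ 246 * (1 + Real.log M) := by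
    intro n
    rw [abel F σ h1 n]
    have h4 : |(∑ x ∈ discE (𝓞 K) n, F x) * ((n + 1 : ℕ) : ℝ) ^ (-σ)| ≤ 25 := by
      rw [abs_mul, abs_of_nonneg (show (0 : ℝ) ≤ ((n + 1 : ℕ) : ℝ) ^ (-σ) by positivity)]
      have h5 : ((n + 1 : ℕ) : ℝ) ^ (-σ) ≤ 1 / ((n + 1 : ℕ) : ℝ) := by
        rw [one_div, ← Real.rpow_neg_one]
        apply Real.rpow_le_rpow_of_exponent_le _ (by linarith)
        have : 1 ≤ n + 1 := by omega
        exact_mod_cast this
      rcases Nat.eq_zero_or_pos n with h0 | h0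
      · subst h0
        calc |∑ x ∈ discE (𝓞 K) 0, F x| * ((0 + 1 : ℕ) : ℝ) ^ (-σ)
            ≤ 25 * ((0 + 1 : ℕ) : ℝ) ^ (-σ) := by
              apply mul_le_mul_of_nonneg_right hA0
              positivity
          _ ≤ 25 := by simp
      · calc |∑ x ∈ discE (𝓞 K) n, F x| * ((n + 1 : ℕ) : ℝ) ^ (-σ)
            ≤ (25 * n) * (1 / ((n + 1 : ℕ) : ℝ)) := by
              apply mul_le_mul (hA n h0) h5 (by positivity) (by positivity)
          _ ≤ 25 := by
              rw [mul_one_div, div_le_iff₀ (by positivity)]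
              push_cast
              linarith
    have h5 : |∑ k ∈ Ioc 0 n, (∑ x ∈ discE (𝓞 K) k, F x) *
        ((k : ℝ) ^ (-σ) - ((k + 1 : ℕ) : ℝ) ^ (-σ))| ≤ 75 * (1 + Real.log M) + 120 := by
      have h6 : ∀ k ∈ Ioc 0 n, |(∑ x ∈ discE (𝓞 K) k, F x) *
          ((k : ℝ) ^ (-σ) - ((k + 1 : ℕ) : ℝ) ^ (-σ))| ≤
          (if k ≤ M then 75 * (1 / (k : ℝ)) else 0) +
          (if M < k then 60 * Real.sqrt M * (Real.sqrt k / (k : ℝ) ^ 2) else 0) := by
        intro k hk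
        rw [mem_Ioc] at hk
        have hk1 : 1 ≤ k := hk.1
        have hk0 : (0 : ℝ) < k := by exact_mod_cast hk1
        obtain ⟨hd0, hd⟩ := u_diff σ h1 h3 k hk1
        rw [abs_mul, abs_of_nonneg hd0]
        by_cases hkM : k ≤ M
        · rw [if_pos hkM, if_neg (by omega), add_zero]
          calc |∑ x ∈ discE (𝓞 K) k, F x| * ((k : ℝ) ^ (-σ) - ((k + 1 : ℕ) : ℝ) ^ (-σ))
              ≤ (25 * k) * (3 / (k : ℝ) ^ 2) := mul_le_mul (hA k hk1) hd hd0 (by positivity)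
            _ = 75 * (1 / (k : ℝ)) := by
                field_simp
                norm_num
        · rw [if_neg hkM, if_pos (by omega), zero_add]
          calc |∑ x ∈ discE (𝓞 K) k, F x| * ((k : ℝ) ^ (-σ) - ((k + 1 : ℕ) : ℝ) ^ (-σ))
              ≤ (20 * Real.sqrt (M * k)) * (3 / (k : ℝ) ^ 2) :=
                mul_le_mul (hX k hk1) hd hd0 (by positivity)
            _ = 60 * Real.sqrt M * (Real.sqrt k / (k : ℝ) ^ 2) := by
                rw [Real.sqrt_mul (Nat.cast_nonneg _)]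
                ring
      have h7 := (abs_sum_le_sum_abs (fun k : ℕ => (∑ x ∈ discE (𝓞 K) k, F x) *
        ((k : ℝ) ^ (-σ) - ((k + 1 : ℕ) : ℝ) ^ (-σ))) (Ioc 0 n)).trans (sum_le_sum h6)
      refine h7.trans ?_
      rw [sum_add_distrib, ← sum_filter, ← sum_filter, ← mul_sum, ← mul_sum]
      have h8 : ∑ k ∈ (Ioc 0 n).filter (fun k => k ≤ M), 1 / (k : ℝ) ≤ 1 + Real.log M := by
        calc ∑ k ∈ (Ioc 0 n).filter (fun k => k ≤ M), 1 / (k : ℝ)
            ≤ ∑ k ∈ Icc 1 M, 1 / (k : ℝ) := by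
              apply sum_le_sum_of_subset_of_nonneg
              · intro k hk
                rw [mem_filter, mem_Ioc] at hk
                rw [mem_Icc]
                omega
              · intro k _ _
                positivity
          _ ≤ 1 + Real.log M := by
              have h9 := harmonic_le_one_add_log M
              rw [harmonic_eq_sum_Icc] at h9
              push_cast at h9
              simpa [one_div] using h9
      have h9 : ∑ k ∈ (Ioc 0 n).filter (fun k => M < k), Real.sqrt k / (k : ℝ) ^ 2 ≤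
          2 / Real.sqrt M := by
        refine le_trans (le_of_eq ?_) (sum_tail M n hM)
        apply sum_congr _ fun _ _ => rfl
        ext k
        rw [mem_filter, mem_Ioc, mem_Ioc]
        omega
      have hs : 0 < Real.sqrt M := Real.sqrt_pos.2 (by exact_mod_cast hM)
      have h10 : 60 * Real.sqrt M *
          ∑ k ∈ (Ioc 0 n).filter (fun k => M < k), Real.sqrt k / (k : ℝ) ^ 2 ≤ 120 := by
        calc 60 * Real.sqrt M *
          ∑ k ∈ (Ioc 0 n).filter (fun k => M < k), Real.sqrt k / (k : ℝ) ^ 2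
            ≤ 60 * Real.sqrt M * (2 / Real.sqrt M) :=
              mul_le_mul_of_nonneg_left h9 (by positivity)
          _ = 120 := by
              field_simp
              norm_num
      linarith
    have h6 := abs_add_three
      (∑ k ∈ Ioc 0 n, (∑ x ∈ discE (𝓞 K) k, F x) * ((k : ℝ) ^ (-σ) - ((k + 1 : ℕ) : ℝ) ^ (-σ)))
      ((∑ x ∈ discE (𝓞 K) n, F x) * ((n + 1 : ℕ) : ℝ) ^ (-σ)) (-(∑ x ∈ discE (𝓞 K) 0, F x))
    rw [abs_neg, ← sub_eq_add_neg] at h6
    linarith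
  have h4 : Filter.Tendsto (fun n : ℕ => ∑ x ∈ discE (𝓞 K) n, F x * (Nz x : ℝ) ^ (-σ))
      Filter.atTop (nhds (∑' x, F x * (Nz x : ℝ) ^ (-σ))) := by
    refine (summable_F hF σ h1).hasSum.comp (Filter.tendsto_atTop_finset_of_monotone ?_ ?_)
    · intro m n hmn x hx
      rw [mem_disc] at hx ⊢
      exact hx.trans hmn
    · intro x
      exact ⟨Nz x, mem_disc.2 le_rfl⟩
  exact le_of_tendsto h4.abs (Filter.Eventually.of_forall key)

theorem charB_of : ∃ C : ℝ, 1 ≤ C ∧ ∀ (F : 𝓞 K → ℝ) (M : ℕ), MulP F → 1 ≤ M →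
    (∀ X : ℕ, 1 ≤ X → |∑ x ∈ discE (𝓞 K) X, F x| ≤ 20 * Real.sqrt (M * X)) →
    CharB (fun q : Pq => F q.1) (C * (1 + Real.log M)) := by
  classical
  obtain ⟨C, hC1, hC⟩ := tsum_le_log
  refine ⟨2 * C, by linarith, fun F M hF hM hX => ⟨fun q => hF.le _, ?_, ?_⟩⟩
  · have hlog : 0 ≤ Real.log M := Real.log_nonneg (by exact_mod_cast hM)
    nlinarith
  · intro σ h1 h3
    have hL := hC F M hF.le hM hX σ h1 h3
    have h4 : Filter.Tendsto (fun n : ℕ => ∑' x, if NoDiv (pr Pq n) x then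
        F x * (Nz x : ℝ) ^ (-σ) else 0) Filter.atTop
        (nhds (∑' x : 𝓞 K, if x = 1 then (1 : ℝ) else 0)) := by
      refine tendsto_tsum_of_dominated_convergence (summable_Nz σ h1) ?_ ?_
      · intro x
        apply tendsto_const_nhds.congr'
        by_cases hx : x = 1
        · refine Filter.Eventually.of_forall fun n => ?_
          have h5 : (if NoDiv (pr Pq n) x then F x * (Nz x : ℝ) ^ (-σ) else 0) = 1 := by
            rw [hx, if_pos (noDiv_one _), hF.one, Nz_one]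
            simp
          rw [if_pos hx]
          exact h5.symm
        · rw [if_neg hx]
          by_cases hP : InP x
          · obtain ⟨q, hq⟩ := exists_prime_dvd hP hx
            filter_upwards [Filter.eventually_ge_atTop (Nz q.1)] with n hn
            have h5 : (if NoDiv (pr Pq n) x then F x * (Nz x : ℝ) ^ (-σ) else 0) = 0 := by
              rw [if_neg]
              intro h5
              exact h5 q (mem_pr.2 hn) hq
            exact h5.symm
          · refine Filter.Eventually.of_forall fun n => ?_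
            have h5 : (if NoDiv (pr Pq n) x then F x * (Nz x : ℝ) ^ (-σ) else 0) = 0 := by
              rw [hF.zero x hP, zero_mul]
              simp
            exact h5.symm
      · exact Filter.Eventually.of_forall fun n x =>
          term_ite_le hF.le σ (fun x => NoDiv (pr Pq n) x) x
    rw [tsum_ite_eq] at h4
    have h5 : ∀ᶠ n : ℕ in Filter.atTop, (1 / 2 : ℝ) ≤ ∑' x, if NoDiv (pr Pq n) x then
        F x * (Nz x : ℝ) ^ (-σ) else 0 := by
      filter_upwards [h4.eventually (eventually_gt_nhds (by norm_num : (1 / 2 : ℝ) < 1))]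
        with n hn
      exact hn.le
    filter_upwards [h5] with n hn
    rw [← sieve hF σ h1] at hn
    have h6 : 0 < ∏ q ∈ pr Pq n, (1 - F q.1 * (Nz q.1 : ℝ) ^ (-σ)) :=
      prod_pos fun q _ => one_sub_pos hF σ h1 q
    have h7 : ∏ q ∈ pr Pq n, (1 - F q.1 * (PS.N q : ℝ) ^ (-σ))⁻¹ =
        (∏ q ∈ pr Pq n, (1 - F q.1 * (Nz q.1 : ℝ) ^ (-σ)))⁻¹ := by
      rw [← prod_inv_distrib]
      rfl
    rw [h7, inv_le_iff_one_le_mul₀ h6]
    have h8 := (le_abs_self _).trans hL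
    nlinarith [mul_le_mul_of_nonneg_right h8 h6.le]

end

end Pool.Agent.Lib.MP_1a91b9_ntH
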