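import Pool.Agent.Lib.MP_1a91b9_ntH.R.Qd

/-!
# MP_1a91b9_nt (TwistDensity): counting with the symbols of the primary primes
-/

set_option autoImplicit false

namespace Pool.Agent.Lib.MP_1a91b9_ntH

open NumberField Finset Pool.Agent.Lib.MP_1a91b9_ntT

/-- The sum of all characters is the indicator function of the squares. -/
theorem sum_chi {S : Finset Pq} {c : 𝓞 K} (hc : ∀ p ∈ S, ¬ p.1 ∣ c) :
    ∑ T ∈ S.powerset, chi T c = if ∀ p ∈ S, qs p c = 1 then (2 : ℤ) ^ S.card else 0 := by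
  classical
  have h1 : ∑ T ∈ S.powerset, chi T c = ∏ p ∈ S, (1 + qs p c) := by
    rw [prod_one_add]
    rfl
  rw [h1]
  split_ifs with h
  · rw [prod_congr rfl (fun p hp => by rw [h p hp])]
    norm_num
  · push Not at h
    obtain ⟨p, hp, h2⟩ := h
    apply prod_eq_zero hp
    rcases qs_one_or (hc p hp) with h3 | h3
    · exact absurd h3 h2
    · rw [h3]; norm_num

/-- The value `q - chi T q` is twice an element of known class. -/
theorem sub_chi (T : Finset Pq) {q : Pq} (hq : q ∉ T) :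
    ∃ b : 𝓞 K, q.1 - ((chi T q.1 : ℤ) : 𝓞 K) = 2 * b ∧
      red b = qd.a q + F4.of (∑ p ∈ T, qd.s q p) := by
  have h0 := half_spec q.two_dvd
  rw [chi_prime hq]
  generalize ∑ p ∈ T, qd.s q p = x
  have hx : x = 0 ∨ x = 1 := by revert x; decide
  rcases hx with rfl | rfl
  · refine ⟨half q.1, ?_, ?_⟩
    · have : sgz 0 = 1 := rfl
      rw [this]
      push_cast
      linear_combination h0
    · have : F4.of 0 = 0 := rfl
      rw [this, add_zero]
      rfl
  · refine ⟨half q.1 + 1, ?_, ?_⟩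
    · have : sgz 1 = -1 := rfl
      rw [this]
      push_cast
      linear_combination h0
    · have : F4.of 1 = 1 := rfl
      rw [this, map_add, map_one]
      rfl

/-- The norm of a primary prime. -/
theorem Nz_q (q : Pq) : (Nz q.1 : ℤ) = 1 + 2 * (q.c1 +
    2 * (q.c0 + q.c0 ^ 2 - q.c1 - q.c0 * q.c1 + q.c1 ^ 2)) := by
  rw [q.eq_coords, Nz_coords]
  ring

theorem Nz_q_odd (q : Pq) : Nz q.1 % 2 = 1 := by
  have h := Nz_q q
  omega

/-- The class of `(N q - 1) / 2` modulo `2`. -/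
theorem Nz_half (q : Pq) : (((Nz q.1 - 1) / 2 : ℕ) : ZMod 2) = F4.tr (qd.a q) := by
  have h := Nz_q q
  have h1 : (((Nz q.1 - 1) / 2 : ℕ) : ℤ) =
      q.c1 + 2 * (q.c0 + q.c0 ^ 2 - q.c1 - q.c0 * q.c1 + q.c1 ^ 2) := by
    have h2 := Nz_two_le q.prime
    omega
  have h3 : (((Nz q.1 - 1) / 2 : ℕ) : ZMod 2) =
      ((((Nz q.1 - 1) / 2 : ℕ) : ℤ) : ZMod 2) := by push_cast; rfl
  rw [h3, h1]
  have h4 : F4.tr (qd.a q) = (q.c1 : ZMod 2) := rfl
  rw [h4]
  push_cast
  have : (2 : ZMod 2) = 0 := rfl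
  rw [this]
  ring

/-- The residue field of a primary prime. -/
noncomputable abbrev RF (p : Pq) : Type := 𝓞 K ⧸ Ideal.span {p.1}

instance RF_max (p : Pq) : (Ideal.span {p.1}).IsMaximal := by
  have h1 : (Ideal.span {p.1}).IsPrime := by
    rw [Ideal.span_singleton_prime p.prime.ne_zero]
    exact p.prime
  exact h1.isMaximal (by
    rw [Ne, Ideal.span_singleton_eq_bot]
    exact p.prime.ne_zero)

theorem card_RF (p : Pq) : Nat.card (RF p) = Nz p.1 := by
  rw [Nz, ← Ideal.absNorm_span_singleton, Ideal.absNorm_apply, Submodule.cardQuot_apply]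

instance RF_finite (p : Pq) : Finite (RF p) := by
  apply Nat.finite_of_card_ne_zero
  rw [card_RF]
  have := Nz_two_le p.prime
  omega

open Classical in
/-- The number of the nonzero squares in the residue field. -/
theorem card_squares (p : Pq) :
    Nat.card {x : RF p // x ≠ 0 ∧ IsSquare x} = (Nz p.1 - 1) / 2 := by
  letI : Field (RF p) := Ideal.Quotient.field _
  letI : Fintype (RF p) := Fintype.ofFinite _
  have hcard : Fintype.card (RF p) = Nz p.1 := by rw [← card_RF, Nat.card_eq_fintype_card]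
  have hchar : ringChar (RF p) ≠ 2 := by
    intro h
    have h1 := FiniteField.even_card_of_char_two h
    rw [hcard, Nz_q_odd] at h1
    norm_num at h1
  have hsum := quadraticChar_sum_zero hchar
  rw [Nat.card_eq_fintype_card, Fintype.card_subtype]
  have h1 : ∑ a : RF p, quadraticChar (RF p) a =
      ((univ.filter fun x : RF p => x ≠ 0 ∧ IsSquare x).card : ℤ) -
        ((univ.filter fun x : RF p => x ≠ 0 ∧ ¬ IsSquare x).card : ℤ) := by
    rw [card_filter, card_filter]
    push_cast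
    rw [← sum_sub_distrib]
    apply sum_congr rfl
    intro x _
    by_cases hx : x = 0
    · subst hx; simp
    · by_cases hs : IsSquare x
      · rw [(quadraticChar_one_iff_isSquare hx).2 hs]
        simp [hx, hs]
      · rw [quadraticChar_neg_one_iff_not_isSquare.2 hs]
        simp [hx, hs]
  have h2 : (univ.filter fun x : RF p => x ≠ 0 ∧ IsSquare x).card +
      (univ.filter fun x : RF p => x ≠ 0 ∧ ¬ IsSquare x).card = Nz p.1 - 1 := by
    rw [← card_union_of_disjoint]
    · have h3 : (univ.filter fun x : RF p => x ≠ 0 ∧ IsSquare x) ∪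
          (univ.filter fun x : RF p => x ≠ 0 ∧ ¬ IsSquare x) = univ.erase 0 := by
        ext x
        simp only [mem_union, mem_filter, mem_univ, true_and, mem_erase, and_true]
        tauto
      rw [h3, card_erase_of_mem (mem_univ _), card_univ, hcard]
    · rw [disjoint_left]
      intro x hx hx'
      rw [mem_filter] at hx hx'
      exact hx'.2.2 hx.2.2
  rw [hsum] at h1
  omega

theorem qs_eq_one_iff {p : Pq} {c : 𝓞 K} :
    qs p c = 1 ↔ (Ideal.Quotient.mk (Ideal.span {p.1}) c ≠ 0 ∧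
      IsSquare (Ideal.Quotient.mk (Ideal.span {p.1}) c)) := by
  classical
  rw [Ne, Ideal.Quotient.eq_zero_iff_mem, Ideal.mem_span_singleton]
  unfold qs
  split_ifs with h1 h2
  · simp [h1]
  · simp [h1, h2]
  · simp [h1, h2]

theorem isCoprime_pq {p q : Pq} (h : p ≠ q) : IsCoprime p.1 q.1 := by
  rw [← Ideal.isCoprime_span_singleton_iff]
  refine Ideal.isCoprime_of_isMaximal ?_
  intro e
  rw [Ideal.span_singleton_eq_span_singleton] at e
  exact h (Pq.ext e)

/-- The Chinese remainder theorem for the primary primes. -/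
theorem crt (S : Finset Pq) (g : Pq → 𝓞 K) : ∃ r : 𝓞 K, ∀ p ∈ S, p.1 ∣ r - g p := by
  have h := Ideal.exists_forall_sub_mem_ideal (I := fun p : S => Ideal.span {p.1.1})
    (fun p q hpq => (Ideal.isCoprime_span_singleton_iff _ _).2
      (isCoprime_pq (fun e => hpq (Subtype.ext e)))) (fun p => g p.1)
  obtain ⟨r, hr⟩ := h
  exact ⟨r, fun p hp => Ideal.mem_span_singleton.1 (hr ⟨p, hp⟩)⟩

theorem DD_dvd_iff (S : Finset Pq) (x : 𝓞 K) : DD S ∣ x ↔ ∀ p ∈ S, p.1 ∣ x := by
  constructor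
  · intro h p hp
    exact (dvd_prod_of_mem (fun q : Pq => q.1) hp).trans h
  · intro h
    exact Finset.prod_dvd_of_coprime (fun p _ q _ hpq => isCoprime_pq hpq) h

/-- The number of the classes modulo `DD S` which are nonzero squares modulo every prime of `S`. -/
theorem card_Sq (S : Finset Pq) :
    Nat.card {x : 𝓞 K ⧸ Ideal.span {DD S} // ∃ c : 𝓞 K, Ideal.Quotient.mk _ c = x ∧
      ∀ p ∈ S, qs p c = 1} = ∏ p ∈ S, (Nz p.1 - 1) / 2 := by
  classical
  have h0 : ∏ p ∈ S, (Nz p.1 - 1) / 2 =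
      ∏ p : S, Nat.card {x : RF p.1 // x ≠ 0 ∧ IsSquare x} := by
    rw [← prod_coe_sort S (fun p => (Nz p.1 - 1) / 2)]
    exact prod_congr rfl fun p _ => (card_squares p.1).symm
  rw [h0, ← Nat.card_pi]
  have hle : ∀ p : S, Ideal.span {DD S} ≤ Ideal.span {p.1.1} := fun p => by
    rw [Ideal.span_singleton_le_span_singleton]
    exact dvd_prod_of_mem (fun q : Pq => q.1) p.2
  apply Nat.card_congr
  refine Equiv.ofBijective (fun x => fun p : S => ⟨Ideal.Quotient.factor (hle p) x.1, ?_⟩) ⟨?_, ?_⟩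
  · obtain ⟨x, c, rfl, hc⟩ := x
    rw [Ideal.Quotient.factor_mk]
    exact qs_eq_one_iff.1 (hc p.1 p.2)
  · rintro ⟨x, c, rfl, hc⟩ ⟨y, d, rfl, hd⟩ hxy
    apply Subtype.ext
    change Ideal.Quotient.mk _ c = Ideal.Quotient.mk _ d
    rw [Ideal.Quotient.eq, Ideal.mem_span_singleton, DD_dvd_iff]
    intro p hp
    have h1 := congrArg Subtype.val (congrFun hxy ⟨p, hp⟩)
    change Ideal.Quotient.factor (hle ⟨p, hp⟩) (Ideal.Quotient.mk _ c) =
      Ideal.Quotient.factor (hle ⟨p, hp⟩) (Ideal.Quotient.mk _ d) at h1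
    rw [Ideal.Quotient.factor_mk, Ideal.Quotient.factor_mk, Ideal.Quotient.eq,
      Ideal.mem_span_singleton] at h1
    exact h1
  · intro f
    have hg : ∀ p : Pq, ∃ g : 𝓞 K, ∀ hp : p ∈ S,
        Ideal.Quotient.mk (Ideal.span {p.1}) g = (f ⟨p, hp⟩).1 := by
      intro p
      by_cases hp : p ∈ S
      · obtain ⟨g, hg⟩ := Ideal.Quotient.mk_surjective (f ⟨p, hp⟩).1
        exact ⟨g, fun _ => hg⟩
      · exact ⟨0, fun h => absurd h hp⟩
    choose g hg using hg
    obtain ⟨r, hr⟩ := crt S g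
    have hr' : ∀ p (hp : p ∈ S), Ideal.Quotient.mk (Ideal.span {p.1}) r = (f ⟨p, hp⟩).1 := by
      intro p hp
      rw [← hg p hp, Ideal.Quotient.eq, Ideal.mem_span_singleton]
      exact hr p hp
    refine ⟨⟨Ideal.Quotient.mk _ r, r, rfl, fun p hp => ?_⟩, ?_⟩
    · rw [qs_eq_one_iff, hr' p hp]
      exact (f ⟨p, hp⟩).2
    · funext p
      apply Subtype.ext
      change Ideal.Quotient.factor (hle p) (Ideal.Quotient.mk _ r) = _
      rw [Ideal.Quotient.factor_mk]
      exact hr' p.1 p.2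

end Pool.Agent.Lib.MP_1a91b9_ntH
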