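import Pool.Agent.Lib.MP_1a91b9_ntH.R.Chi
import Pool.Agent.Lib.MP_1a91b9_ntH.R.Cheb
import Pool.Agent.Lib.MP_1a91b9_ntH.R.Cnt

/-!
# MP_1a91b9_nt (TwistDensity), part R: sums over squarefree elements (R7, R8)
-/

set_option autoImplicit false

namespace Pool.Agent.Lib.MP_1a91b9_ntH

open NumberField Finset Pool.Agent.Lib.MP_1a91b9_ntT

noncomputable section

namespace SqF

theorem Nz_two : Nz 2 = 4 := by
  have h := Nz_coords 2 0
  simp at h
  exact_mod_cast h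

theorem Nz_s3 : Nz s3 = 3 := by
  have h := Nz_coords 1 2
  have e : ((1 : ℤ) : 𝓞 K) + ((2 : ℤ) : 𝓞 K) * wO = s3 := by
    unfold s3
    push_cast
    ring
  rw [e] at h
  norm_num at h
  exact_mod_cast h

theorem Nz_dvd {x y : 𝓞 K} (h : x ∣ y) : Nz x ∣ Nz y := by
  obtain ⟨z, rfl⟩ := h
  exact ⟨Nz z, Nz_mul x z⟩

theorem Nz_pow (x : 𝓞 K) (n : ℕ) : Nz (x ^ n) = Nz x ^ n := by
  induction n with
  | zero => simp [Nz_one]
  | succ n ih => rw [pow_succ, pow_succ, Nz_mul, ih]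

theorem not_two_dvd {x : 𝓞 K} (hx : InP x) : ¬ (2 : 𝓞 K) ∣ x := by
  intro h
  have h1 := Nz_dvd h
  rw [Nz_two] at h1
  have h2 := hx.Nz_mod
  omega

theorem not_s3_dvd {x : 𝓞 K} (hx : InP x) : ¬ s3 ∣ x := by
  intro h
  have h1 := Nz_dvd h
  rw [Nz_s3] at h1
  have h2 := hx.Nz_mod
  omega

theorem exists_sq_dvd {x : 𝓞 K} (hx : InP x) (h : ¬ Squarefree x) : ∃ q : Pq, q.1 ^ 2 ∣ x := by
  unfold Squarefree at h
  push Not at h
  obtain ⟨z, hz, hu⟩ := h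
  have h2 : ¬ (2 : 𝓞 K) ∣ z := fun h => not_two_dvd hx ((h.trans (dvd_mul_right z z)).trans hz)
  have h3 : ¬ s3 ∣ z := fun h => not_s3_dvd hx ((h.trans (dvd_mul_right z z)).trans hz)
  obtain ⟨u, hu1, hu2⟩ := exists_unit h2 h3
  have hne : u * z ≠ 1 := by
    intro h
    exact hu (IsUnit.of_mul_eq_one u (by rw [mul_comm]; exact h))
  obtain ⟨q, hq⟩ := exists_prime_dvd hu2 hne
  refine ⟨q, ?_⟩
  have hq' : q.1 ∣ z := (hu1.dvd_mul_left).1 hq
  rw [pow_two]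
  exact (mul_dvd_mul hq' hq').trans hz

theorem DD_sq_dvd_iff (S : Finset Pq) (x : 𝓞 K) : DD S ^ 2 ∣ x ↔ ∀ p ∈ S, p.1 ^ 2 ∣ x := by
  constructor
  · intro h p hp
    exact (pow_dvd_pow_of_dvd (dvd_prod_of_mem (fun q : Pq => q.1) hp) 2).trans h
  · intro h
    have e : DD S ^ 2 = ∏ q ∈ S, q.1 ^ 2 := by
      unfold DD
      rw [prod_pow]
    rw [e]
    exact Finset.prod_dvd_of_coprime (fun p _ q _ hpq => (isCoprime_pq hpq).pow) h

theorem not_inP_zero : ¬ InP 0 := fun h => h.ne_zero rfl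

open Classical in
theorem sum_Sx (F : 𝓞 K → ℝ) (hF : ∀ x, ¬ InP x → F x = 0) (X : ℕ) :
    ∑ S ∈ Sx Pq X, F (DD S) = ∑ x ∈ (discE (𝓞 K) X).filter (fun x => Squarefree x), F x := by
  refine Finset.sum_of_injOn DD DD_inj.injOn ?_ ?_ (fun S _ => rfl)
  · intro S hS
    have hS' : S ∈ Sx Pq X := hS
    rw [mem_coe, mem_filter, mem_disc, Nz_DD]
    exact ⟨mem_Sx.1 hS', DD_squarefree S⟩
  · intro x hx hn
    rw [mem_filter, mem_disc] at hx
    by_cases h : InP x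
    · exfalso
      obtain ⟨S, rfl⟩ := exists_DD h hx.2
      apply hn
      refine ⟨S, ?_, rfl⟩
      rw [mem_coe, mem_Sx, ← Nz_DD]
      exact hx.1
    · exact hF x h

open Classical in
theorem sum_dvd {F : 𝓞 K → ℝ} (hF : MulP F) {b : 𝓞 K} (hb : InP b) (X : ℕ) :
    ∑ y ∈ (discE (𝓞 K) X).filter (fun y => b ∣ y), F y =
      F b * ∑ x ∈ discE (𝓞 K) (X / Nz b), F x := by
  have hN : 0 < Nz b := by
    have := hb.Nz_mod
    omega
  rw [mul_sum]
  symm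
  refine Finset.sum_of_injOn (fun x => b * x) (mul_right_injective₀ hb.ne_zero).injOn ?_ ?_ ?_
  · intro x hx
    rw [mem_coe, mem_disc, Nat.le_div_iff_mul_le hN] at hx
    rw [mem_coe, mem_filter, mem_disc, Nz_mul]
    exact ⟨by rw [mul_comm]; exact hx, dvd_mul_right _ _⟩
  · intro y hy hn
    exfalso
    rw [mem_filter, mem_disc] at hy
    obtain ⟨x, rfl⟩ := hy.2
    apply hn
    refine ⟨x, ?_, rfl⟩
    rw [mem_coe, mem_disc, Nat.le_div_iff_mul_le hN, mul_comm, ← Nz_mul]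
    exact hy.1
  · intro x _
    change F b * F x = F (b * x)
    by_cases h : InP x
    · rw [hF.mul b x hb h]
    · rw [hF.zero x h, hF.zero (b * x) (fun h' => h (hb.of_mul h')), mul_zero]

theorem inP_DD_sq (T : Finset Pq) : InP (DD T ^ 2) := by
  rw [pow_two]
  exact (DD_inP T).mul (DD_inP T)

theorem Nz_DD_sq (T : Finset Pq) : Nz (DD T ^ 2) = nm T ^ 2 := by
  rw [Nz_pow, Nz_DD]

open Classical in
/-- Inclusion and exclusion. -/
theorem sieve_sq {F : 𝓞 K → ℝ} (hF : MulP F) (s : Finset Pq) (X : ℕ) :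
    ∑ T ∈ s.powerset, (-1 : ℝ) ^ T.card * F (DD T ^ 2) *
      ∑ x ∈ discE (𝓞 K) (X / nm T ^ 2), F x =
    ∑ y ∈ (discE (𝓞 K) X).filter (fun y => ∀ q ∈ s, ¬ q.1 ^ 2 ∣ y), F y := by
  have h1 : ∀ T ∈ s.powerset, (-1 : ℝ) ^ T.card * F (DD T ^ 2) *
      ∑ x ∈ discE (𝓞 K) (X / nm T ^ 2), F x =
      ∑ y ∈ discE (𝓞 K) X, if DD T ^ 2 ∣ y then (-1 : ℝ) ^ T.card * F y else 0 := by
    intro T _
    rw [mul_assoc, ← Nz_DD_sq, ← sum_dvd hF (inP_DD_sq T), mul_sum, sum_filter]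
  rw [sum_congr rfl h1, sum_comm, sum_filter]
  refine sum_congr rfl fun y _ => ?_
  rw [← sum_filter, ← sum_mul]
  have h2 : s.powerset.filter (fun T => DD T ^ 2 ∣ y) =
      (s.filter fun q => q.1 ^ 2 ∣ y).powerset := by
    ext T
    rw [mem_filter, mem_powerset, mem_powerset, DD_sq_dvd_iff, subset_iff, subset_iff]
    constructor
    · rintro ⟨h, h'⟩ q hq
      exact mem_filter.2 ⟨h hq, h' q hq⟩
    · intro h
      exact ⟨fun q hq => (mem_filter.1 (h hq)).1, fun q hq => (mem_filter.1 (h hq)).2⟩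
  have h3 : ∑ T ∈ (s.filter fun q => q.1 ^ 2 ∣ y).powerset, (-1 : ℝ) ^ T.card =
      if (s.filter fun q => q.1 ^ 2 ∣ y) = ∅ then 1 else 0 := by
    have h := Finset.sum_powerset_neg_one_pow_card (x := s.filter fun q => q.1 ^ 2 ∣ y)
    have h' := congrArg (fun z : ℤ => (z : ℝ)) h
    push_cast at h'
    exact h'
  rw [h2, h3]
  by_cases h : ∀ q ∈ s, ¬ q.1 ^ 2 ∣ y
  · rw [if_pos h, if_pos (filter_eq_empty_iff.2 h), one_mul]
  · rw [if_neg h, if_neg (fun h' => h (filter_eq_empty_iff.1 h')), zero_mul]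

open Classical in
/-- The indicator function of the normalised elements. -/
def F0 (x : 𝓞 K) : ℝ := if InP x then 1 else 0

theorem F0_mulP : MulP F0 where
  one := if_pos inP_one
  mul x y hx hy := by
    unfold F0
    rw [if_pos hx, if_pos hy, if_pos (hx.mul hy), mul_one]
  zero x hx := if_neg hx
  le x := by
    unfold F0
    split_ifs <;> simp

theorem F0_nonneg (x : 𝓞 K) : 0 ≤ F0 x := by
  unfold F0
  split_ifs <;> simp

theorem F0_le_one (x : 𝓞 K) : F0 x ≤ 1 := by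
  unfold F0
  split_ifs <;> simp

theorem abs_le_F0 {F : 𝓞 K → ℝ} (hF : MulP F) (x : 𝓞 K) : |F x| ≤ F0 x := by
  by_cases h : InP x
  · rw [F0, if_pos h]
    exact hF.le x
  · rw [hF.zero x h, abs_zero]
    exact F0_nonneg x

theorem disc_zero {x : 𝓞 K} (h : x ∈ discE (𝓞 K) 0) : x = 0 := by
  rw [mem_disc] at h
  exact Nz_eq_zero.1 (by omega)

theorem sum_disc_zero {F : 𝓞 K → ℝ} (hF : MulP F) : ∑ x ∈ discE (𝓞 K) 0, F x = 0 :=
  sum_eq_zero fun x hx => by rw [disc_zero hx]; exact hF.zero 0 not_inP_zero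

theorem sum_F0_le (X : ℕ) : ∑ x ∈ discE (𝓞 K) X, F0 x ≤ 25 * X := by
  rcases Nat.eq_zero_or_pos X with rfl | hX
  · rw [sum_disc_zero F0_mulP]
    simp
  · have h1 : ∑ x ∈ discE (𝓞 K) X, F0 x ≤ ∑ x ∈ discE (𝓞 K) X, (1 : ℝ) :=
      sum_le_sum fun x _ => F0_le_one x
    rw [sum_const, nsmul_eq_mul, mul_one] at h1
    refine h1.trans ?_
    exact_mod_cast card_discE_le' X hX

open Classical in
theorem sum_F0_dvd_le (q : Pq) (X : ℕ) :
    ∑ y ∈ (discE (𝓞 K) X).filter (fun y => q.1 ^ 2 ∣ y), F0 y ≤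
      25 * (X * (1 / (Nz q.1 : ℝ) ^ 2)) := by
  have hb : InP (q.1 ^ 2) := by
    rw [pow_two]
    exact q.inP.mul q.inP
  rw [sum_dvd F0_mulP hb, Nz_pow]
  have h1 : F0 (q.1 ^ 2) = 1 := if_pos hb
  rw [h1, one_mul]
  refine (sum_F0_le _).trans ?_
  have h2 : ((X / Nz q.1 ^ 2 : ℕ) : ℝ) ≤ X / (Nz q.1 : ℝ) ^ 2 := by
    have := @Nat.cast_div_le ℝ _ _ _ X (Nz q.1 ^ 2)
    push_cast at this
    exact this
  calc (25 : ℝ) * ((X / Nz q.1 ^ 2 : ℕ) : ℝ) ≤ 25 * (X / (Nz q.1 : ℝ) ^ 2) := by gcongr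
    _ = 25 * (X * (1 / (Nz q.1 : ℝ) ^ 2)) := by ring

/-- The squarefree sums and the sums over the elements not divisible by the square of a prime in a
finite set. -/
theorem sqf_diff (F : 𝓞 K → ℝ) (hF : MulP F) (ε : ℝ) (hε : 0 < ε) : ∃ s : Finset Pq, ∀ X : ℕ,
    |∑ S ∈ Sx Pq X, F (DD S) - ∑ T ∈ s.powerset, (-1 : ℝ) ^ T.card * F (DD T ^ 2) *
      ∑ x ∈ discE (𝓞 K) (X / nm T ^ 2), F x| ≤ ε * X := by
  classical
  obtain ⟨Y, hY⟩ := sum_inv_sq_tail (ε / 25) (by positivity)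
  refine ⟨pr Pq Y, fun X => ?_⟩
  rw [sieve_sq hF, sum_Sx F hF.zero, sum_filter, sum_filter, ← sum_sub_distrib]
  have hpt : ∀ x ∈ discE (𝓞 K) X,
      |(if Squarefree x then F x else 0) - (if ∀ q ∈ pr Pq Y, ¬ q.1 ^ 2 ∣ x then F x else 0)| ≤
      ∑ q ∈ pr Pq X \ pr Pq Y, if q.1 ^ 2 ∣ x then F0 x else 0 := by
    intro x hx
    rw [mem_disc] at hx
    have hnn : ∀ q ∈ pr Pq X \ pr Pq Y, (0 : ℝ) ≤ if q.1 ^ 2 ∣ x then F0 x else 0 := by
      intro q _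
      split_ifs
      · exact F0_nonneg x
      · exact le_rfl
    by_cases hP : InP x
    · by_cases hs : Squarefree x
      · have h2 : ∀ q ∈ pr Pq Y, ¬ q.1 ^ 2 ∣ x := by
          intro q _ h
          rw [pow_two] at h
          exact q.prime.not_unit (hs q.1 h)
        rw [if_pos hs, if_pos h2, sub_self, abs_zero]
        exact sum_nonneg hnn
      · rw [if_neg hs]
        by_cases h2 : ∀ q ∈ pr Pq Y, ¬ q.1 ^ 2 ∣ x
        · rw [if_pos h2, zero_sub, abs_neg]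
          obtain ⟨q, hq⟩ := exists_sq_dvd hP hs
          have hq1 : q ∉ pr Pq Y := fun h => h2 q h hq
          have hq2 : q ∈ pr Pq X := by
            rw [mem_pr]
            have h3 := Nat.le_of_dvd (Nat.pos_of_ne_zero (fun h => hP.ne_zero (Nz_eq_zero.1 h)))
              (Nz_dvd hq)
            rw [Nz_pow] at h3
            have h4 := Nz_two_le q.prime
            change Nz q.1 ≤ X
            nlinarith
          refine le_trans ?_ (single_le_sum hnn (mem_sdiff.2 ⟨hq2, hq1⟩))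
          rw [if_pos hq]
          exact abs_le_F0 hF x
        · rw [if_neg h2, sub_self, abs_zero]
          exact sum_nonneg hnn
    · rw [hF.zero x hP]
      simp only [ite_self, sub_self, abs_zero]
      exact sum_nonneg hnn
  refine (abs_sum_le_sum_abs _ _).trans ((sum_le_sum hpt).trans ?_)
  rw [sum_comm]
  have h5 : ∀ q ∈ pr Pq X \ pr Pq Y,
      (∑ x ∈ discE (𝓞 K) X, if q.1 ^ 2 ∣ x then F0 x else 0) ≤
        25 * (X * (1 / (Nz q.1 : ℝ) ^ 2)) := by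
    intro q _
    rw [← sum_filter]
    exact sum_F0_dvd_le q X
  refine (sum_le_sum h5).trans ?_
  rw [← mul_sum, ← mul_sum]
  have h6 := hY (pr Pq X \ pr Pq Y) (fun q hq => by
    rw [mem_sdiff, mem_pr, mem_pr] at hq
    exact not_le.1 hq.2)
  have hX : (0 : ℝ) ≤ X := Nat.cast_nonneg X
  calc (25 : ℝ) * (X * ∑ q ∈ pr Pq X \ pr Pq Y, 1 / (Nz q.1 : ℝ) ^ 2) ≤ 25 * (X * (ε / 25)) := by
        gcongr
    _ = ε * X := by ring

theorem chR_DD (c : F4) (S : Finset Pq) : chR ∅ c (DD S) = sg (F4.tr (c * qd.A S)) := by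
  unfold chR
  rw [if_pos (DD_inP S), cls_DD]
  have : chi ∅ (DD S) = 1 := prod_empty
  rw [this]
  push_cast
  ring

theorem qd_h3 : qd.H3 := by
  intro c hc ε hε
  obtain ⟨s, hs⟩ := sqf_diff (chR ∅ c) (chR_mulP ∅ c) (ε / 2) (by positivity)
  obtain ⟨M, hM⟩ := exists_nat_gt ((2 * (2 ^ s.card * (20 * Real.sqrt 48)) / ε) ^ 2)
  refine ⟨M, fun X hX => ?_⟩
  have h1 := hs X
  have hnn : (0 : ℝ) ≤ 2 * (2 ^ s.card * (20 * Real.sqrt 48)) / ε := by positivity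
  have h2 : |∑ T ∈ s.powerset, (-1 : ℝ) ^ T.card * chR ∅ c (DD T ^ 2) *
      ∑ x ∈ discE (𝓞 K) (X / nm T ^ 2), chR ∅ c x| ≤
      2 ^ s.card * (20 * Real.sqrt 48) * Real.sqrt X := by
    refine (abs_sum_le_sum_abs _ _).trans ?_
    have h3 : ∀ T ∈ s.powerset, |(-1 : ℝ) ^ T.card * chR ∅ c (DD T ^ 2) *
        ∑ x ∈ discE (𝓞 K) (X / nm T ^ 2), chR ∅ c x| ≤ 20 * Real.sqrt 48 * Real.sqrt X := by
      intro T _
      rw [abs_mul, abs_mul, abs_pow, abs_neg, abs_one, one_pow, one_mul]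
      have h4 : |chR ∅ c (DD T ^ 2)| ≤ 1 := (chR_mulP ∅ c).le _
      have h5 : |∑ x ∈ discE (𝓞 K) (X / nm T ^ 2), chR ∅ c x| ≤
          20 * Real.sqrt 48 * Real.sqrt X := by
        rcases Nat.eq_zero_or_pos (X / nm T ^ 2) with h0 | h0
        · rw [h0, sum_disc_zero (chR_mulP ∅ c), abs_zero]
          positivity
        · refine (chR_sum ∅ c (Or.inr hc) _ h0).trans ?_
          rw [nm_empty, mul_one]
          rw [mul_assoc, ← Real.sqrt_mul (by norm_num)]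
          gcongr
          · push_cast
            exact le_rfl
          · exact Nat.div_le_self X _
      calc |chR ∅ c (DD T ^ 2)| * |∑ x ∈ discE (𝓞 K) (X / nm T ^ 2), chR ∅ c x|
          ≤ 1 * (20 * Real.sqrt 48 * Real.sqrt X) :=
            mul_le_mul h4 h5 (abs_nonneg _) zero_le_one
        _ = _ := one_mul _
    refine (sum_le_sum h3).trans ?_
    rw [sum_const, card_powerset, nsmul_eq_mul]
    push_cast
    rw [mul_assoc, mul_assoc, mul_assoc]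
  have h6 : 2 * (2 ^ s.card * (20 * Real.sqrt 48)) / ε ≤ Real.sqrt X := by
    apply Real.le_sqrt_of_sq_le
    have : (M : ℝ) ≤ X := by exact_mod_cast hX
    linarith
  have h7 : 2 ^ s.card * (20 * Real.sqrt 48) * Real.sqrt X ≤ ε / 2 * X := by
    rw [div_le_iff₀ hε] at h6
    have h8 : Real.sqrt X * Real.sqrt X = X := Real.mul_self_sqrt (Nat.cast_nonneg X)
    nlinarith [Real.sqrt_nonneg (X : ℝ)]
  have h9 : ∑ S ∈ Sx Pq X, sg (F4.tr (c * qd.A S)) = ∑ S ∈ Sx Pq X, chR ∅ c (DD S) :=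
    sum_congr rfl fun S _ => (chR_DD c S).symm
  rw [h9]
  have h10 := abs_le.1 h1
  have h11 := abs_le.1 h2
  rw [abs_le]
  constructor <;> linarith


open Classical in
/-- The number of the normalised elements of norm at most `X`. -/
def PX (X : ℕ) : ℕ := ((discE (𝓞 K) X).filter fun x => InP x).card

theorem sum_F0 (X : ℕ) : ∑ x ∈ discE (𝓞 K) X, F0 x = PX X := by
  classical
  unfold PX F0
  rw [← sum_filter, sum_const, nsmul_eq_mul, mul_one]

/-- The error term. -/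
def Er (m X : ℕ) : ℕ := 2 * Nat.sqrt m * (4 * Nat.sqrt X + 1)

theorem coprime_b {b : 𝓞 K} (hb : InP b) : IsCoprime (2 * s3) b := by
  obtain ⟨t, ht⟩ := hb
  exact ⟨-t, 1, by linear_combination ht⟩

theorem dvd_iff {b : 𝓞 K} (hb : InP b) (r y : 𝓞 K) :
    2 * s3 * b ∣ y - (r + b * (1 - r)) ↔ InP y ∧ b ∣ y - r := by
  have h1 : (2 * s3 ∣ y - (r + b * (1 - r))) ↔ InP y := by
    have e : y - (r + b * (1 - r)) = (y - 1) - (b - 1) * (1 - r) := by ring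
    rw [e]
    exact dvd_sub_left (Dvd.dvd.mul_right hb _)
  have h2 : (b ∣ y - (r + b * (1 - r))) ↔ b ∣ y - r := by
    have e : y - (r + b * (1 - r)) = (y - r) - b * (1 - r) := by ring
    rw [e]
    exact dvd_sub_left (dvd_mul_right _ _)
  constructor
  · intro h
    exact ⟨h1.1 ((dvd_mul_right _ _).trans h), h2.1 ((dvd_mul_left _ _).trans h)⟩
  · rintro ⟨h, h'⟩
    exact (coprime_b hb).mul_dvd (h1.2 h) (h2.2 h')

open Classical in
/-- The number of the normalised elements of norm at most `X` in a residue class. -/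
def cnt (b : 𝓞 K) (X : ℕ) (r : 𝓞 K) : ℕ :=
  ((discE (𝓞 K) X).filter fun y => InP y ∧ b ∣ y - r).card

theorem Nz_pos {b : 𝓞 K} (hb : InP b) : 0 < Nz b := by
  have := hb.Nz_mod
  omega

theorem Nz_twelve (b : 𝓞 K) : Nz (2 * s3 * b) = 12 * Nz b := by
  rw [Nz_mul, Nz_mul, Nz_two, Nz_s3]

theorem cnt_le {b : 𝓞 K} (hb : InP b) (X : ℕ) (r s : 𝓞 K) :
    cnt b X r ≤ cnt b X s + Er (12 * Nz b) X := by
  classical
  have hm : 2 * s3 * b ≠ 0 := by
    intro h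
    have h1 := Nz_twelve b
    rw [h, Nz_eq_zero.2 rfl] at h1
    have := Nz_pos hb
    omega
  have h := class_discE (2 * s3 * b) hm (r + b * (1 - r)) (s + b * (1 - s)) X
  simp only [dvd_iff hb] at h
  rw [nE_eq, Nz_twelve] at h
  exact h

theorem cnt_zero {b : 𝓞 K} (hb : InP b) (X : ℕ) : cnt b X 0 = PX (X / Nz b) := by
  classical
  have h := sum_dvd F0_mulP hb X
  rw [F0, if_pos hb, one_mul, sum_F0] at h
  have h1 : ∑ y ∈ (discE (𝓞 K) X).filter (fun y => b ∣ y), F0 y = (cnt b X 0 : ℝ) := by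
    unfold F0 cnt
    rw [← sum_filter, sum_const, nsmul_eq_mul, mul_one, filter_filter]
    congr 2
    apply filter_congr
    intro y _
    rw [sub_zero, and_comm]
  rw [h1] at h
  exact_mod_cast h

instance finite_quot (b : 𝓞 K) [NeZero b] : Finite (𝓞 K ⧸ Ideal.span {b}) := by
  apply Nat.finite_of_card_ne_zero
  rw [card_quot]
  exact fun h => NeZero.ne b (Nz_eq_zero.1 h)

theorem PX_eq {b : 𝓞 K} (hb : InP b) (X : ℕ) : ∃ (ι : Type) (_ : Fintype ι) (r : ι → 𝓞 K),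
    Fintype.card ι = Nz b ∧ PX X = ∑ i, cnt b X (r i) := by
  classical
  haveI : NeZero b := ⟨hb.ne_zero⟩
  letI : Fintype (𝓞 K ⧸ Ideal.span {b}) := Fintype.ofFinite _
  have hs : ∀ z : 𝓞 K ⧸ Ideal.span {b}, ∃ r : 𝓞 K, Ideal.Quotient.mk (Ideal.span {b}) r = z :=
    Ideal.Quotient.mk_surjective
  choose r hr using hs
  refine ⟨𝓞 K ⧸ Ideal.span {b}, inferInstance, r, ?_, ?_⟩
  · rw [← Nat.card_eq_fintype_card, card_quot]
  · unfold PX
    rw [card_eq_sum_card_fiberwise (f := fun y => Ideal.Quotient.mk (Ideal.span {b}) y)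
      (t := univ) (fun _ _ => mem_coe.2 (mem_univ _))]
    refine sum_congr rfl fun z _ => ?_
    unfold cnt
    rw [filter_filter]
    congr 1
    apply filter_congr
    intro y _
    have : (Ideal.Quotient.mk (Ideal.span {b}) y = z) ↔ b ∣ y - r z := by
      conv_lhs => rw [← hr z]
      rw [Ideal.Quotient.eq, Ideal.mem_span_singleton]
    rw [this]

theorem PX_le {b : 𝓞 K} (hb : InP b) (X : ℕ) :
    PX X ≤ Nz b * (PX (X / Nz b) + Er (12 * Nz b) X) := by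
  obtain ⟨ι, _, r, h1, h2⟩ := PX_eq hb X
  have h3 : ∑ i, cnt b X (r i) ≤ ∑ _i : ι, (cnt b X 0 + Er (12 * Nz b) X) :=
    sum_le_sum fun i _ => cnt_le hb X _ _
  rw [sum_const, smul_eq_mul, card_univ, h1, cnt_zero hb, ← h2] at h3
  exact h3

theorem le_PX {b : 𝓞 K} (hb : InP b) (X : ℕ) :
    Nz b * PX (X / Nz b) ≤ PX X + Nz b * Er (12 * Nz b) X := by
  obtain ⟨ι, _, r, h1, h2⟩ := PX_eq hb X
  rw [h2, ← cnt_zero hb]
  have h3 : ∑ i : ι, cnt b X 0 ≤ ∑ i, (cnt b X (r i) + Er (12 * Nz b) X) :=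
    sum_le_sum fun i _ => cnt_le hb X _ _
  rw [sum_add_distrib, sum_const, sum_const, smul_eq_mul, smul_eq_mul, card_univ, h1] at h3
  exact h3

theorem Er_le (m X : ℕ) (hX : 1 ≤ X) : (Er m X : ℝ) ≤ 10 * Real.sqrt m * Real.sqrt X := by
  unfold Er
  have h1 : ((Nat.sqrt m : ℕ) : ℝ) ≤ Real.sqrt m := Real.nat_sqrt_le_real_sqrt
  have h2 : ((Nat.sqrt X : ℕ) : ℝ) ≤ Real.sqrt X := Real.nat_sqrt_le_real_sqrt
  have h3 : (1 : ℝ) ≤ Real.sqrt X := by
    rw [Real.one_le_sqrt]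
    exact_mod_cast hX
  have h4 : 0 ≤ Real.sqrt m := Real.sqrt_nonneg _
  push_cast
  calc (2 : ℝ) * Nat.sqrt m * (4 * Nat.sqrt X + 1)
      ≤ 2 * Real.sqrt m * (4 * Real.sqrt X + Real.sqrt X) := by gcongr
    _ = 10 * Real.sqrt m * Real.sqrt X := by ring

/-- The numbers of normalised elements scale. -/
theorem PX_scale {b : 𝓞 K} (hb : InP b) (X : ℕ) (hX : 1 ≤ X) :
    |(PX (X / Nz b) : ℝ) - PX X / Nz b| ≤ 10 * Real.sqrt (12 * Nz b : ℕ) * Real.sqrt X := by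
  have h1 : (PX X : ℝ) ≤ Nz b * (PX (X / Nz b) + Er (12 * Nz b) X) := by exact_mod_cast PX_le hb X
  have h2 : (Nz b : ℝ) * PX (X / Nz b) ≤ PX X + Nz b * Er (12 * Nz b) X := by
    exact_mod_cast le_PX hb X
  have h3 : (0 : ℝ) < Nz b := by exact_mod_cast Nz_pos hb
  have h4 := Er_le (12 * Nz b) X hX
  refine le_trans ?_ h4
  rw [abs_le]
  have e : (PX X : ℝ) / Nz b * Nz b = PX X := div_mul_cancel₀ _ h3.ne'
  constructor
  · nlinarith
  · nlinarith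

theorem card_disc_ge (X : ℕ) : X ≤ (discE (𝓞 K) X).card := by
  classical
  let f : ℕ × ℕ → 𝓞 K := fun p => ((p.1 : ℤ) : 𝓞 K) + ((p.2 : ℤ) : 𝓞 K) * wO
  have hf : Function.Injective f := by
    rintro ⟨a, b⟩ ⟨c, d⟩ h
    have h' := coords_inj h
    simp only [Prod.mk.injEq]
    omega
  have h1 : ((range (Nat.sqrt X + 1)) ×ˢ (range (Nat.sqrt X + 1))).card ≤
      (discE (𝓞 K) X).card := by
    refine card_le_card_of_injOn f ?_ hf.injOn
    rintro ⟨a, b⟩ hab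
    rw [mem_coe, mem_product, mem_range, mem_range] at hab
    rw [mem_coe, mem_disc]
    have h2 := Nz_coords (a : ℤ) (b : ℤ)
    have h3 : Nat.sqrt X ^ 2 ≤ X := Nat.sqrt_le' X
    have ha : a ≤ Nat.sqrt X := by have := hab.1; omega
    have hb : b ≤ Nat.sqrt X := by have := hab.2; omega
    have h4 : (Nz (f (a, b)) : ℤ) ≤ X := by
      change (Nz (((a : ℤ) : 𝓞 K) + ((b : ℤ) : 𝓞 K) * wO) : ℤ) ≤ X
      rw [h2]
      have ha' : (a : ℤ) ≤ Nat.sqrt X := by exact_mod_cast ha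
      have hb' : (b : ℤ) ≤ Nat.sqrt X := by exact_mod_cast hb
      have ha0 : (0 : ℤ) ≤ a := Int.natCast_nonneg a
      have hb0 : (0 : ℤ) ≤ b := Int.natCast_nonneg b
      have h3' : ((Nat.sqrt X : ℕ) : ℤ) ^ 2 ≤ X := by exact_mod_cast h3
      rcases le_total (a : ℤ) b with h | h
      · nlinarith
      · nlinarith
    exact_mod_cast h4
  rw [card_product, card_range] at h1
  have h5 := Nat.lt_succ_sqrt X
  rw [Nat.succ_eq_add_one] at h5
  omega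

/-- A positive proportion of the elements is normalised. -/
theorem PX_ge (X : ℕ) : X ≤ 12 * (PX X + Er 12 X) := by
  classical
  have hm : (2 * s3 : 𝓞 K) ≠ 0 := by
    intro h
    have h1 := Nz_twelve 1
    rw [mul_one, h, Nz_eq_zero.2 rfl, Nz_one] at h1
    omega
  haveI : NeZero (2 * s3 : 𝓞 K) := ⟨hm⟩
  letI : Fintype (𝓞 K ⧸ Ideal.span {(2 * s3 : 𝓞 K)}) := Fintype.ofFinite _
  have hcard : Fintype.card (𝓞 K ⧸ Ideal.span {(2 * s3 : 𝓞 K)}) = 12 := by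
    rw [← Nat.card_eq_fintype_card, card_quot]
    have h1 := Nz_twelve 1
    rwa [mul_one, Nz_one] at h1
  refine (card_disc_ge X).trans ?_
  rw [card_eq_sum_card_fiberwise (f := fun y => Ideal.Quotient.mk (Ideal.span {(2 * s3 : 𝓞 K)}) y)
      (t := univ) (fun _ _ => mem_coe.2 (mem_univ _))]
  have hsum : ∑ _z : 𝓞 K ⧸ Ideal.span {(2 * s3 : 𝓞 K)}, (PX X + Er 12 X) =
      12 * (PX X + Er 12 X) := by
    rw [sum_const, smul_eq_mul, card_univ, hcard]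
  rw [← hsum]
  refine sum_le_sum fun z _ => ?_
  obtain ⟨r, rfl⟩ := Ideal.Quotient.mk_surjective z
  have h := class_discE (2 * s3) hm r 1 X
  have h2 : ((discE (𝓞 K) X).filter fun y => Ideal.Quotient.mk (Ideal.span {(2 * s3 : 𝓞 K)}) y =
      Ideal.Quotient.mk (Ideal.span {(2 * s3 : 𝓞 K)}) r) =
      (discE (𝓞 K) X).filter fun y => 2 * s3 ∣ y - r := by
    apply filter_congr
    intro y _
    rw [Ideal.Quotient.eq, Ideal.mem_span_singleton]
  have h3 : nE (2 * s3 : 𝓞 K) = 12 := by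
    rw [nE_eq]
    have h1 := Nz_twelve 1
    rwa [mul_one, Nz_one] at h1
  rw [h3] at h
  rw [h2]
  exact h

/-- The finite sieve. -/
theorem sieve_main (s : Finset Pq) : ∃ C : ℝ, 0 ≤ C ∧ ∀ X : ℕ, 1 ≤ X →
    |∑ T ∈ s.powerset, (-1 : ℝ) ^ T.card * F0 (DD T ^ 2) *
      ∑ x ∈ discE (𝓞 K) (X / nm T ^ 2), F0 x -
      PX X * ∏ q ∈ s, (1 - 1 / (Nz q.1 : ℝ) ^ 2)| ≤ C * Real.sqrt X := by
  classical
  refine ⟨∑ T ∈ s.powerset, 10 * Real.sqrt (12 * nm T ^ 2 : ℕ), by positivity, fun X hX => ?_⟩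
  have e1 : ∏ q ∈ s, (1 - 1 / (Nz q.1 : ℝ) ^ 2) =
      ∑ T ∈ s.powerset, (-1 : ℝ) ^ T.card / (nm T : ℝ) ^ 2 := by
    have h := Finset.prod_one_add (s := s) (f := fun q : Pq => - (1 / (Nz q.1 : ℝ) ^ 2))
    simp only [← sub_eq_add_neg] at h
    rw [h]
    refine sum_congr rfl fun T _ => ?_
    rw [prod_neg, prod_div_distrib, prod_const_one, prod_pow]
    have : ((nm T : ℕ) : ℝ) = ∏ q ∈ T, (Nz q.1 : ℝ) := by
      unfold nm
      push_cast
      rfl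
    rw [this]
    ring
  rw [e1, mul_sum, ← sum_sub_distrib, sum_mul]
  refine (abs_sum_le_sum_abs _ _).trans (sum_le_sum fun T _ => ?_)
  have h1 : F0 (DD T ^ 2) = 1 := if_pos (inP_DD_sq T)
  rw [h1, mul_one, sum_F0]
  have h2 := PX_scale (inP_DD_sq T) X hX
  rw [Nz_DD_sq] at h2
  have e2 : (-1 : ℝ) ^ T.card * (PX (X / nm T ^ 2) : ℝ) -
      PX X * ((-1 : ℝ) ^ T.card / (nm T : ℝ) ^ 2) =
      (-1 : ℝ) ^ T.card * ((PX (X / nm T ^ 2) : ℝ) - PX X / ((nm T ^ 2 : ℕ) : ℝ)) := by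
    push_cast
    ring
  rw [e2, abs_mul, abs_pow, abs_neg, abs_one, one_pow, one_mul]
  exact h2

theorem prod_ge (s : Finset Pq) : 1 / 2 ≤ ∏ q ∈ s, (1 - 1 / (Nz q.1 : ℝ) ^ 2) := by
  have h : ∀ s : Finset Pq, 1 - ∑ q ∈ s, 1 / (Nz q.1 : ℝ) ^ 2 ≤
      ∏ q ∈ s, (1 - 1 / (Nz q.1 : ℝ) ^ 2) ∧ ∏ q ∈ s, (1 - 1 / (Nz q.1 : ℝ) ^ 2) ≤ 1 := by
    intro s
    classical
    induction s using Finset.induction_on with
    | empty => simp
    | insert q s hq ih =>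
      rw [sum_insert hq, prod_insert hq]
      have h2 : (2 : ℝ) ≤ Nz q.1 := by exact_mod_cast Nz_two_le q.prime
      have h3 : (0 : ℝ) < 1 / (Nz q.1 : ℝ) ^ 2 := by positivity
      have h4 : 1 / (Nz q.1 : ℝ) ^ 2 ≤ 1 := by
        rw [div_le_one (by positivity)]
        nlinarith
      constructor <;> nlinarith [ih.1, ih.2]
  have h1 := (h s).1
  have h2 := sum_inv_sq s
  linarith

/-- There is a positive proportion of squarefree elements. -/
theorem card_Sx_ge : ∃ c : ℝ, 0 < c ∧ ∃ X₀ : ℕ, ∀ X : ℕ, X₀ ≤ X → c * X ≤ (Sx Pq X).card := by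
  obtain ⟨s, hs⟩ := sqf_diff F0 F0_mulP (1 / 96) (by norm_num)
  obtain ⟨C, hC, hm⟩ := sieve_main s
  obtain ⟨M, hM⟩ := exists_nat_gt ((96 * (C + 5 * Real.sqrt 12)) ^ 2)
  refine ⟨1 / 48, by norm_num, M + 1, fun X hX => ?_⟩
  have hX1 : 1 ≤ X := by omega
  have h1 := abs_le.1 (hs X)
  have h2 := abs_le.1 (hm X hX1)
  have h3 : (X : ℝ) ≤ 12 * (PX X + Er 12 X) := by exact_mod_cast PX_ge X
  have h4 := Er_le 12 X hX1
  have h5 := prod_ge s
  have h6 : ∑ S ∈ Sx Pq X, F0 (DD S) = ((Sx Pq X).card : ℝ) := by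
    have h : ∀ S ∈ Sx Pq X, F0 (DD S) = 1 := fun S _ => if_pos (DD_inP S)
    rw [sum_congr rfl h, sum_const, nsmul_eq_mul, mul_one]
  rw [h6] at h1
  have h7 : 96 * (C + 5 * Real.sqrt 12) ≤ Real.sqrt X := by
    apply Real.le_sqrt_of_sq_le
    have : (M : ℝ) ≤ X := by exact_mod_cast (by omega : M ≤ X)
    linarith
  have h8 : Real.sqrt X * Real.sqrt X = X := Real.mul_self_sqrt (Nat.cast_nonneg X)
  have h9 : (C + 5 * Real.sqrt 12) * Real.sqrt X ≤ 1 / 96 * X := by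
    nlinarith [Real.sqrt_nonneg (X : ℝ)]
  have h10 : (0 : ℝ) ≤ PX X := Nat.cast_nonneg _
  have h11 : (PX X : ℝ) * (1 / 2) ≤ PX X * ∏ q ∈ s, (1 - 1 / (Nz q.1 : ℝ) ^ 2) := by
    gcongr
  have h12 : ((12 : ℕ) : ℝ) = 12 := by norm_num
  rw [h12] at h4
  linarith [h1.1, h2.1]

end SqF

/-- The squarefree sums and the sums over the elements not divisible by the square of a prime in a
finite set. -/
theorem sqf_diff (F : 𝓞 K → ℝ) (hF : MulP F) (ε : ℝ) (hε : 0 < ε) : ∃ s : Finset Pq, ∀ X : ℕ,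
    |∑ S ∈ Sx Pq X, F (DD S) - ∑ T ∈ s.powerset, (-1 : ℝ) ^ T.card * F (DD T ^ 2) *
      ∑ x ∈ discE (𝓞 K) (X / nm T ^ 2), F x| ≤ ε * X :=
  SqF.sqf_diff F hF ε hε

/-- The mean values of the nontrivial characters modulo 4 are zero. -/
theorem qd_h3 : qd.H3 := SqF.qd_h3

/-- There is a positive proportion of squarefree elements. -/
theorem card_Sx_ge : ∃ c : ℝ, 0 < c ∧ ∃ X₀ : ℕ, ∀ X : ℕ, X₀ ≤ X → c * X ≤ (Sx Pq X).card :=
  SqF.card_Sx_ge

end

end Pool.Agent.Lib.MP_1a91b9_ntH
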