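import Pool.Agent.Lib.MP_1a91b9_ntH.R.Ring

/-!
# MP_1a91b9_nt (TwistDensity), part R: the squarefree elements congruent to 1 modulo 4 (r3)
-/

set_option autoImplicit false

namespace Pool.Agent.Lib.MP_1a91b9_ntH

open NumberField Finset Pool.Agent.Lib.MP_1a91b9_ntT

noncomputable section

theorem half_s3 : half s3 = wO := by
  unfold s3
  exact half_eq wO

theorem half_neg_one : half (-1) = -1 := by
  have h := half_eq (-1)
  have e : (1 : 𝓞 K) + 2 * (-1) = -1 := by ring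
  rwa [e] at h

theorem red_half_s3 : red (half s3) = ⟨0, 1⟩ := by rw [half_s3, red_w]; rfl

theorem red_half_neg_one : red (half (-1)) = ⟨1, 0⟩ := by
  rw [half_neg_one, map_neg, map_one]; rfl

theorem s3_sub_one : (2 : 𝓞 K) ∣ s3 - 1 := ⟨wO, by unfold s3; ring⟩

theorem neg_one_sub_one : (2 : 𝓞 K) ∣ -1 - 1 := ⟨-1, by ring⟩

theorem one_sub_one : (2 : 𝓞 K) ∣ 1 - 1 := ⟨0, by ring⟩

theorem two_mul_sub {x y : 𝓞 K} (hx : (2 : 𝓞 K) ∣ x - 1) (hy : (2 : 𝓞 K) ∣ y - 1) :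
    (2 : 𝓞 K) ∣ x * y - 1 := by
  obtain ⟨a, ha⟩ := hx
  obtain ⟨b, hb⟩ := hy
  exact ⟨a * y + b, by linear_combination y * ha + hb⟩

theorem Nz_s3 : Nz s3 = 3 := by
  have h := Nz_coords 1 2
  have e : ((1 : ℤ) : 𝓞 K) + ((2 : ℤ) : 𝓞 K) * wO = s3 := by unfold s3; push_cast; rfl
  rw [e] at h
  norm_num at h
  exact_mod_cast h

theorem Nz_neg_one : Nz (-1) = 1 := isUnit_iff_Nz.1 isUnit_one.neg

theorem prime_s3 : Prime s3 := by
  have e : ((1 : ℤ) : 𝓞 K) + ((2 : ℤ) : 𝓞 K) * wO = s3 := by unfold s3; push_cast; rfl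
  rw [← e]
  exact isEis.prime_of_nm (p := 3) (by norm_num) (by norm_num [R.nm])

/-- The factors of `dl S` in front of `DD S`. -/
def k1 (S : Finset Pq) : 𝓞 K := if (qd.A S).b = 0 then 1 else s3

/-- The factors of `dl S` in front of `DD S`. -/
def k2 (S : Finset Pq) : 𝓞 K := if (qd.A S).a = 0 then 1 else -1

theorem dl_eq (S : Finset Pq) : dl S = k1 S * k2 S * DD S := rfl

theorem k1_sub_one (S : Finset Pq) : (2 : 𝓞 K) ∣ k1 S - 1 := by
  unfold k1; split_ifs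
  · exact one_sub_one
  · exact s3_sub_one

theorem k2_sub_one (S : Finset Pq) : (2 : 𝓞 K) ∣ k2 S - 1 := by
  unfold k2; split_ifs
  · exact one_sub_one
  · exact neg_one_sub_one

theorem cls_k1 (S : Finset Pq) : red (half (k1 S)) = ⟨0, (qd.A S).b⟩ := by
  unfold k1; split_ifs with h
  · rw [cls_one, h]; rfl
  · have : (qd.A S).b = 1 := by
      generalize (qd.A S).b = x at h
      revert x; decide
    rw [red_half_s3, this]

theorem cls_k2 (S : Finset Pq) : red (half (k2 S)) = ⟨(qd.A S).a, 0⟩ := by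
  unfold k2; split_ifs with h
  · rw [cls_one, h]; rfl
  · have : (qd.A S).a = 1 := by
      generalize (qd.A S).a = x at h
      revert x; decide
    rw [red_half_neg_one, this]

theorem dl_two (S : Finset Pq) : (2 : 𝓞 K) ∣ dl S - 1 := by
  rw [dl_eq]
  exact two_mul_sub (two_mul_sub (k1_sub_one S) (k2_sub_one S)) (DD_inP S).two

theorem dl_sub_one (S : Finset Pq) : (4 : 𝓞 K) ∣ dl S - 1 := by
  rw [← cls_eq_zero (dl_two S), dl_eq, cls_mul (two_mul_sub (k1_sub_one S) (k2_sub_one S))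
    (DD_inP S).two, cls_mul (k1_sub_one S) (k2_sub_one S), cls_k1, cls_k2, cls_DD]
  have key : ∀ A : F4, (⟨0, A.b⟩ + ⟨A.a, 0⟩ + A : F4) = 0 := by decide
  exact key _

theorem k2_unit (S : Finset Pq) : IsUnit (k2 S) := by
  unfold k2; split_ifs
  · exact isUnit_one
  · exact isUnit_one.neg

theorem k2_sq (S : Finset Pq) : k2 S * k2 S = 1 := by
  unfold k2; split_ifs <;> ring

theorem not_s3_dvd_DD (S : Finset Pq) : ¬ s3 ∣ DD S := by
  intro h
  have h1 : s3 ∣ DD S - 1 := (dvd_mul_left _ _).trans (DD_inP S)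
  have h2 := dvd_sub h h1
  rw [sub_sub_cancel] at h2
  exact prime_s3.not_unit (isUnit_of_dvd_one h2)

theorem squarefree_unit_mul {u x : 𝓞 K} (hu : IsUnit u) (hx : Squarefree x) :
    Squarefree (u * x) := by
  intro y hy
  apply hx y
  have h : u * x ∣ x := by
    obtain ⟨v, hv⟩ := hu.exists_left_inv
    exact ⟨v, by linear_combination -(x * hv)⟩
  exact hy.trans h

theorem dl_squarefree (S : Finset Pq) : Squarefree (dl S) := by
  have h : Squarefree (k1 S * DD S) := by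
    unfold k1
    split_ifs
    · rw [one_mul]; exact DD_squarefree S
    · rw [squarefree_mul_iff]
      exact ⟨(prime_s3.irreducible.isRelPrime_iff_not_dvd).2 (not_s3_dvd_DD S),
        prime_s3.squarefree, DD_squarefree S⟩
  have e : dl S = k2 S * (k1 S * DD S) := by rw [dl_eq]; ring
  rw [e]
  exact squarefree_unit_mul (k2_unit S) h

theorem dvd_dl {q : Pq} {S : Finset Pq} : q.1 ∣ dl S ↔ q ∈ S := by
  constructor
  · intro h
    rw [dl_eq] at h
    rcases q.prime.dvd_or_dvd h with h1 | h1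
    · exfalso
      rcases q.prime.dvd_or_dvd h1 with h2 | h2
      · unfold k1 at h2
        split_ifs at h2
        · exact q.prime.not_unit (isUnit_of_dvd_one h2)
        · exact not_dvd_s3 q h2
      · exact q.prime.not_unit (isUnit_of_dvd_unit h2 (k2_unit S))
    · exact dvd_DD.1 h1
  · intro h
    rw [dl_eq]
    exact Dvd.dvd.mul_left (dvd_DD.2 h) _

theorem dl_inj : Function.Injective dl := by
  intro S T h
  ext q
  rw [← dvd_dl, ← dvd_dl (S := T), h]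

/-- The units congruent to `1` modulo `2` are `1` and `-1`. -/
theorem unit_two {u : 𝓞 K} (hu : IsUnit u) (h : (2 : 𝓞 K) ∣ u - 1) : u = 1 ∨ u = -1 := by
  obtain ⟨p, rfl⟩ := exists_coords u
  have h1 := (isEis.isUnit_iff p.1 p.2).1 hu
  obtain ⟨t, ht⟩ := h
  obtain ⟨q, rfl⟩ := exists_coords t
  have h2 : ((p.1 - 1 : ℤ) : 𝓞 K) + ((p.2 : ℤ) : 𝓞 K) * wO =
      ((2 * q.1 : ℤ) : 𝓞 K) + ((2 * q.2 : ℤ) : 𝓞 K) * wO := by
    push_cast
    linear_combination ht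
  obtain ⟨e1, e2⟩ := isEis.eq_iff.1 h2
  unfold R.nm at h1
  have h3 : (2 * p.1 - p.2) ^ 2 + 3 * p.2 ^ 2 = 4 := by linear_combination 4 * h1
  have h4 : p.2 ^ 2 ≤ 1 := by nlinarith [sq_nonneg (2 * p.1 - p.2)]
  have h5 : -1 ≤ p.2 ∧ p.2 ≤ 1 := by constructor <;> nlinarith
  have h6 : p.2 = 0 := by omega
  rw [h6] at h1
  have h7 : p.1 * p.1 = 1 := by linarith
  rcases Int.eq_one_or_neg_one_of_mul_eq_one h7 with h8 | h8
  · left; rw [h8, h6]; simp
  · right; rw [h8, h6]; simp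

theorem exists_dl {x : 𝓞 K} (hs : Squarefree x) (h : (4 : 𝓞 K) ∣ x - 1) :
    ∃ S : Finset Pq, dl S = x := by
  have hx2 : (2 : 𝓞 K) ∣ x - 1 := by
    refine dvd_trans ⟨2, by norm_num⟩ h
  have h2x : ¬ (2 : 𝓞 K) ∣ x := by
    intro h2
    have h3 := dvd_sub h2 hx2
    rw [sub_sub_cancel] at h3
    have h4 : IsUnit (2 : 𝓞 K) := isUnit_of_dvd_one h3
    have e : (2 : 𝓞 K) = ((2 : ℤ) : 𝓞 K) + ((0 : ℤ) : 𝓞 K) * wO := by simp
    rw [e, isEis.isUnit_iff] at h4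
    norm_num [R.nm] at h4
  -- write `x = k y` with `k = 1` or `k = s3`, `y` prime to `s3`
  obtain ⟨k, y, hk, hxy, hy3⟩ : ∃ k y : 𝓞 K, (k = 1 ∨ k = s3) ∧ x = k * y ∧ ¬ s3 ∣ y := by
    by_cases h3 : s3 ∣ x
    · obtain ⟨y, hy⟩ := h3
      refine ⟨s3, y, Or.inr rfl, hy, ?_⟩
      rintro ⟨z, hz⟩
      apply prime_s3.not_unit
      apply hs
      rw [hy, hz]
      exact ⟨z, by ring⟩
    · exact ⟨1, x, Or.inl rfl, by ring, h3⟩
  have hk2 : (2 : 𝓞 K) ∣ k - 1 := by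
    rcases hk with rfl | rfl
    · exact one_sub_one
    · exact s3_sub_one
  have hy2 : ¬ (2 : 𝓞 K) ∣ y := fun h3 => h2x (by rw [hxy]; exact Dvd.dvd.mul_left h3 _)
  have hysq : Squarefree y := hs.squarefree_of_dvd ⟨k, by rw [hxy]; ring⟩
  obtain ⟨u, hu, hP⟩ := exists_unit hy2 hy3
  obtain ⟨S, hS⟩ := exists_DD hP (squarefree_unit_mul hu hysq)
  -- the unit is `1` or `-1`
  have hy1 : (2 : 𝓞 K) ∣ y - 1 := by
    obtain ⟨a, ha⟩ := hx2
    obtain ⟨b, hb⟩ := hk2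
    exact ⟨a - b * y, by rw [hxy] at ha; linear_combination ha - y * hb⟩
  have hu1 : (2 : 𝓞 K) ∣ u - 1 := by
    obtain ⟨a, ha⟩ := hy1
    obtain ⟨b, hb⟩ := hP.two
    exact ⟨b - a * u, by linear_combination hb - u * ha⟩
  have huu := unit_two hu hu1
  have huu2 : u * u = 1 := by rcases huu with rfl | rfl <;> ring
  have hyS : y = u * DD S := by rw [hS]; linear_combination -(y * huu2)
  -- the classes
  have hcx : red (half x) = 0 := (cls_eq_zero hx2).2 h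
  have hx' : x = k * u * DD S := by rw [hxy, hyS]; ring
  rw [hx', cls_mul (two_mul_sub hk2 hu1) (DD_inP S).two, cls_mul hk2 hu1, cls_DD] at hcx
  refine ⟨S, ?_⟩
  rw [dl_eq, hx']
  obtain ⟨s, hkc, hks⟩ : ∃ s : ZMod 2, red (half k) = ⟨0, s⟩ ∧
      (if s = 0 then (1 : 𝓞 K) else s3) = k := by
    rcases hk with rfl | rfl
    · exact ⟨0, by rw [cls_one]; rfl, if_pos rfl⟩
    · exact ⟨1, red_half_s3, if_neg (by decide)⟩
  obtain ⟨t, huc, hut⟩ : ∃ t : ZMod 2, red (half u) = ⟨t, 0⟩ ∧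
      (if t = 0 then (1 : 𝓞 K) else -1) = u := by
    rcases huu with rfl | rfl
    · exact ⟨0, by rw [cls_one]; rfl, if_pos rfl⟩
    · exact ⟨1, red_half_neg_one, if_neg (by decide)⟩
  rw [hkc, huc] at hcx
  have key : ∀ (A : F4) (s t : ZMod 2), (⟨0, s⟩ + ⟨t, 0⟩ + A : F4) = 0 → A.b = s ∧ A.a = t := by
    decide
  obtain ⟨hb, ha⟩ := key _ _ _ hcx
  unfold k1 k2
  rw [hb, ha, hks, hut]

theorem Nz_dl (S : Finset Pq) : Nz (dl S) = (if (qd.A S).b = 0 then 1 else 3) * nm S := by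
  rw [dl_eq, Nz_mul, Nz_mul, Nz_DD]
  have h1 : Nz (k2 S) = 1 := isUnit_iff_Nz.1 (k2_unit S)
  have h2 : Nz (k1 S) = if (qd.A S).b = 0 then 1 else 3 := by
    unfold k1
    split_ifs
    · exact Nz_one
    · exact Nz_s3
  rw [h1, h2, mul_one]

end

end Pool.Agent.Lib.MP_1a91b9_ntH
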