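import Pool.Agent.Lib.MP_1a91b9_ntH.R.Euler
import Pool.Agent.Lib.MP_1a91b9_ntH.R.Bij
import Pool.Agent.Lib.MP_1a91b9_ntH.R.Cnt

/-!
# MP_1a91b9_nt (TwistDensity), part R: the quadratic characters and their mean values (R6)
-/

set_option autoImplicit false

namespace Pool.Agent.Lib.MP_1a91b9_ntH

open NumberField Finset Pool.Agent.Lib.MP_1a91b9_ntT

noncomputable section

open Classical in
/-- The quadratic character attached to `T` and `c`, on the normalised elements. -/
def chR (T : Finset Pq) (c : F4) (x : 𝓞 K) : ℝ :=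
  if InP x then (chi T x : ℝ) * sg (F4.tr (c * red (half x))) else 0

theorem sg_add (x y : ZMod 2) : sg (x + y) = sg x * sg y := by
  rw [sg_eq_sgz, sg_eq_sgz, sg_eq_sgz, sgz_add]
  push_cast
  rfl

theorem abs_sg (x : ZMod 2) : |sg x| = 1 := by
  unfold sg
  split_ifs <;> simp

theorem chR_of {T : Finset Pq} {c : F4} {x : 𝓞 K} (h : InP x) :
    chR T c x = (chi T x : ℝ) * sg (F4.tr (c * red (half x))) := if_pos h

theorem chR_of_not {T : Finset Pq} {c : F4} {x : 𝓞 K} (h : ¬ InP x) : chR T c x = 0 := if_neg h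

theorem tr_zero : F4.tr 0 = 0 := rfl

theorem sg_zero : sg 0 = 1 := if_pos rfl

theorem chR_mulP (T : Finset Pq) (c : F4) : MulP (chR T c) where
  one := by
    rw [chR_of inP_one, chi_one, cls_one, mul_zero, tr_zero, sg_zero]
    norm_num
  mul x y hx hy := by
    rw [chR_of hx, chR_of hy, chR_of (hx.mul hy), chi_mul, cls_mul hx.two hy.two, mul_add,
      F4.tr_add, sg_add]
    push_cast
    ring
  zero x hx := chR_of_not hx
  le x := by
    by_cases hx : InP x
    · rw [chR_of hx, abs_mul, abs_sg, mul_one]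
      rcases chi_sq_or T x with h | h | h <;> rw [h] <;> norm_num
    · rw [chR_of_not hx]
      norm_num

theorem chR_q (T : Finset Pq) (c : F4) (q : Pq) : chR T c q.1 = qd.ch T c q := by
  rw [chR_of q.inP]
  unfold Dat.ch
  split_ifs with h
  · have h1 : chi T q.1 = 0 := chi_eq_zero_iff.2 ⟨q, h, dvd_refl _⟩
    rw [h1]
    simp
  · rw [chi_prime h, sg_add, ← sg_eq_sgz, mul_comm]
    rfl

theorem inP_congr {x y : 𝓞 K} (h : 2 * s3 ∣ x - y) : InP x ↔ InP y := by
  unfold InP
  constructor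
  · intro hx
    have := dvd_sub hx h
    rwa [show x - 1 - (x - y) = y - 1 by ring] at this
  · intro hy
    have := dvd_add hy h
    rwa [show y - 1 + (x - y) = x - 1 by ring] at this

theorem chR_congr {T : Finset Pq} {c : F4} {x y : 𝓞 K} (h : 4 * s3 * DD T ∣ x - y) :
    chR T c x = chR T c y := by
  have h1 : 2 * s3 ∣ x - y := dvd_trans ⟨2 * DD T, by ring⟩ h
  have h2 : DD T ∣ x - y := dvd_trans ⟨4 * s3, by ring⟩ h
  have h3 : (4 : 𝓞 K) ∣ x - y := dvd_trans ⟨s3 * DD T, by ring⟩ h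
  by_cases hx : InP x
  · have hy : InP y := (inP_congr h1).1 hx
    rw [chR_of hx, chR_of hy, chi_congr h2, cls_congr hx.two h3]
  · have hy : ¬ InP y := fun hy => hx ((inP_congr h1).2 hy)
    rw [chR_of_not hx, chR_of_not hy]

theorem chR_per (T : Finset Pq) (c : F4) (x y : 𝓞 K) :
    chR T c (x + 4 * s3 * DD T * y) = chR T c x :=
  chR_congr ⟨y, by ring⟩

/-- A nonresidue modulo a primary prime. -/
theorem exists_nonres (p : Pq) : ∃ g : 𝓞 K, qs p g = -1 := by
  letI : Field (RF p) := Ideal.Quotient.field _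
  letI : Fintype (RF p) := Fintype.ofFinite _
  have hcard : Fintype.card (RF p) = Nz p.1 := by rw [← card_RF, Nat.card_eq_fintype_card]
  have hchar : ringChar (RF p) ≠ 2 := by
    intro h
    have h1 := FiniteField.even_card_of_char_two h
    rw [hcard, Nz_q_odd] at h1
    norm_num at h1
  obtain ⟨a, ha⟩ := FiniteField.exists_nonsquare hchar
  obtain ⟨g, rfl⟩ := Ideal.Quotient.mk_surjective a
  refine ⟨g, ?_⟩
  have h0 : ¬ p.1 ∣ g := by
    intro h
    apply ha
    rw [(Ideal.Quotient.eq_zero_iff_mem).2 (Ideal.mem_span_singleton.2 h)]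
    exact IsSquare.zero
  rcases qs_one_or h0 with h1 | h1
  · exact absurd (qs_eq_one_iff.1 h1).2 ha
  · exact h1

theorem isCoprime_s3_two : IsCoprime s3 (2 : 𝓞 K) := ⟨1, -wO, by unfold s3; ring⟩

/-- `DD T` is prime to `4 s3`. -/
theorem isCoprime_DD (T : Finset Pq) : IsCoprime (4 * s3) (DD T) := by
  obtain ⟨t, ht⟩ := DD_inP T
  have h1 : IsCoprime (2 * s3) (DD T) := ⟨-t, 1, by linear_combination ht⟩
  have h2 : IsCoprime (2 : 𝓞 K) (DD T) := h1.of_mul_left_left
  have h3 : IsCoprime s3 (DD T) := h1.of_mul_left_right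
  have e : (4 : 𝓞 K) * s3 = 2 * (2 * s3) := by ring
  rw [e]
  exact h2.mul_left h1

/-- Existence of a unit modulo `4 s3 DD T` with given class and residues. -/
theorem exists_res (T : Finset Pq) (a : F4) (g : Pq → 𝓞 K) (hg : ∀ p ∈ T, ¬ p.1 ∣ g p) :
    ∃ u : 𝓞 K, InP u ∧ red (half u) = a ∧ (∀ p ∈ T, p.1 ∣ u - g p) ∧
      ∃ v w : 𝓞 K, u * v = 1 + 4 * s3 * DD T * w := by
  obtain ⟨r, hr⟩ := crt T g
  obtain ⟨b, hb⟩ := red_surj a
  obtain ⟨α, β, hαβ⟩ := isCoprime_DD T
  have hu : 2 * s3 ∣ (r * (α * (4 * s3)) + (1 + 2 * (s3 * b)) * (β * DD T)) - 1 := by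
    refine ⟨2 * r * α + b * (β * DD T) - 2 * α, ?_⟩
    linear_combination hαβ
  have hcls : red (half (r * (α * (4 * s3)) + (1 + 2 * (s3 * b)) * (β * DD T))) = a := by
    have h1 : (4 : 𝓞 K) ∣ (r * (α * (4 * s3)) + (1 + 2 * (s3 * b)) * (β * DD T)) -
        (1 + 2 * (s3 * b)) := by
      refine ⟨r * α * s3 - (1 + 2 * (s3 * b)) * α * s3, ?_⟩
      linear_combination (1 + 2 * (s3 * b)) * hαβ
    rw [cls_congr ((dvd_mul_right _ _).trans hu) h1, half_eq, map_mul, hb]
    have h2 : red s3 = 1 := by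
      unfold s3
      rw [map_add, map_one, map_mul, red_w]
      have : red (2 : 𝓞 K) = 0 := by
        rw [map_ofNat]
        rfl
      rw [this, zero_mul, add_zero]
    rw [h2, one_mul]
  have hres : ∀ p ∈ T, p.1 ∣ (r * (α * (4 * s3)) + (1 + 2 * (s3 * b)) * (β * DD T)) - g p := by
    intro p hp
    have h1 : p.1 ∣ DD T := dvd_DD.2 hp
    have h2 : p.1 ∣ r - g p := hr p hp
    have h3 := dvd_add h2 (Dvd.dvd.mul_left h1 ((1 + 2 * (s3 * b)) * β - r * β))
    have e : r - g p + ((1 + 2 * (s3 * b)) * β - r * β) * DD T =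
        (r * (α * (4 * s3)) + (1 + 2 * (s3 * b)) * (β * DD T)) - g p := by
      linear_combination -r * hαβ
    rwa [e] at h3
  obtain ⟨u, hue⟩ : ∃ u : 𝓞 K, u = r * (α * (4 * s3)) + (1 + 2 * (s3 * b)) * (β * DD T) :=
    ⟨_, rfl⟩
  rw [← hue] at hu hcls hres
  refine ⟨u, hu, hcls, hres, ?_⟩
  have hc1 : IsCoprime u (4 * s3) := by
    obtain ⟨t, ht⟩ := hu
    have h1 : IsCoprime u (2 * s3) := ⟨1, -t, by linear_combination ht⟩
    have h2 : IsCoprime u (2 : 𝓞 K) := h1.of_mul_right_left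
    have e : (4 : 𝓞 K) * s3 = 2 * (2 * s3) := by ring
    rw [e]
    exact h2.mul_right h1
  have hc2 : IsCoprime u (DD T) := by
    unfold DD
    apply IsCoprime.prod_right
    intro p hp
    rw [isCoprime_comm]
    refine (p.prime.irreducible.coprime_iff_not_dvd).2 ?_
    intro h
    apply hg p hp
    have := dvd_sub h (hres p hp)
    rwa [sub_sub_cancel] at this
  obtain ⟨v, w, hvw⟩ := hc1.mul_right hc2
  exact ⟨v, -w, by linear_combination hvw⟩

theorem chR_exists (T : Finset Pq) (c : F4) (h : T ≠ ∅ ∨ c ≠ 0) :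
    ∃ u v w : 𝓞 K, u * v = 1 + 4 * s3 * DD T * w ∧ ∀ z, chR T c (u * z) = - chR T c z := by
  classical
  -- it is enough to find `u` in `P` with value `-1`
  obtain ⟨u, hu, ⟨v, w, hvw⟩, hval⟩ : ∃ u : 𝓞 K, InP u ∧
      (∃ v w : 𝓞 K, u * v = 1 + 4 * s3 * DD T * w) ∧
      (chi T u : ℝ) * sg (F4.tr (c * red (half u))) = -1 := by
    by_cases hT : T = ∅
    · have hc : c ≠ 0 := by
        rcases h with h1 | h1
        · exact absurd hT h1
        · exact h1
      have key : ∀ c : F4, c ≠ 0 → ∃ a : F4, F4.tr (c * a) = 1 := by decide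
      obtain ⟨a, ha⟩ := key c hc
      obtain ⟨u, h1, h2, -, h4⟩ := exists_res T a (fun _ => 1) (by rw [hT]; simp)
      refine ⟨u, h1, h4, ?_⟩
      rw [h2, ha, hT, chi_empty]
      have : sg 1 = -1 := if_neg (by decide)
      rw [this]
      norm_num
    · obtain ⟨p, hp⟩ := Finset.nonempty_iff_ne_empty.2 hT
      obtain ⟨g, hg⟩ := exists_nonres p
      obtain ⟨u, h1, h2, h3, h4⟩ := exists_res T 0 (fun q => if q = p then g else 1) (by
        intro q _
        by_cases hqp : q = p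
        · rw [if_pos hqp, hqp]
          intro hd
          rw [qs_of_dvd hd] at hg
          norm_num at hg
        · rw [if_neg hqp]
          exact fun hd => q.prime.not_unit (isUnit_of_dvd_one hd))
      refine ⟨u, h1, h4, ?_⟩
      rw [h2, mul_zero, tr_zero, sg_zero, mul_one]
      have h5 : chi T u = -1 := by
        unfold chi
        rw [← mul_prod_erase _ _ hp]
        have h6 : qs p u = -1 := by
          rw [qs_congr (h3 p hp)]
          simp [hg]
        have h7 : ∏ q ∈ T.erase p, qs q u = 1 := by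
          apply prod_eq_one
          intro q hq
          rw [mem_erase] at hq
          rw [qs_congr (h3 q hq.2)]
          simp [hq.1, qs_one]
        rw [h6, h7]
        norm_num
      rw [h5]
      norm_num
  refine ⟨u, v, w, hvw, fun z => ?_⟩
  by_cases hz : InP z
  · rw [chR_of hz, chR_of (hu.mul hz), chi_mul, cls_mul hu.two hz.two, mul_add, F4.tr_add,
      sg_add]
    push_cast
    linear_combination ((chi T z : ℝ) * sg (F4.tr (c * red (half z)))) * hval
  · have h1 : ¬ InP (u * z) := fun h1 => hz (hu.of_mul h1)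
    rw [chR_of_not hz, chR_of_not h1, neg_zero]

theorem Nz_four : Nz 4 = 16 := by
  have h := Nz_coords 4 0
  have e : ((4 : ℤ) : 𝓞 K) + ((0 : ℤ) : 𝓞 K) * wO = 4 := by push_cast; ring
  rw [e] at h
  norm_num at h
  exact_mod_cast h

theorem Nz_mod4 (T : Finset Pq) : Nz (4 * s3 * DD T) = 48 * nm T := by
  rw [Nz_mul, Nz_mul, Nz_four, Nz_s3, Nz_DD]

theorem chR_sum (T : Finset Pq) (c : F4) (h : T ≠ ∅ ∨ c ≠ 0) (X : ℕ) (hX : 1 ≤ X) :
    |∑ x ∈ discE (𝓞 K) X, chR T c x| ≤ 20 * Real.sqrt ((48 * nm T : ℕ) * X) := by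
  obtain ⟨u, v, w, h1, h2⟩ := chR_exists T c h
  have h3 := sum_discE' (4 * s3 * DD T) (by
    intro h0
    have h4 := Nz_mod4 T
    rw [h0] at h4
    have h5 := one_le_nm T
    have h6 : Nz 0 = 0 := Nz_eq_zero.2 rfl
    omega) (chR T c) (chR_mulP T c).le (chR_per T c) u v w h1 h2 X hX
  rw [nE_eq, Nz_mod4] at h3
  exact h3

theorem CharB.mono {χ : Pq → ℝ} {B B' : ℝ} (h : CharB χ B) (hB : B ≤ B') : CharB χ B' where
  le := h.le
  hB := h.hB.trans hB
  bound σ h1 h2 := (h.bound σ h1 h2).mono fun x hx => hx.trans hB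

theorem qd_cb : ∃ C, qd.CB C := by
  obtain ⟨C, hC, hmain⟩ := charB_of
  refine ⟨C * (1 + Real.log 48), fun T c h => ?_⟩
  have h1 := hmain (chR T c) (48 * nm T) (chR_mulP T c) (by
    have := one_le_nm T
    omega) (fun X hX => chR_sum T c h X hX)
  have h2 : (fun q : Pq => chR T c q.1) = qd.ch T c := by
    funext q
    exact chR_q T c q
  rw [h2] at h1
  refine h1.mono ?_
  have h3 : (1 : ℝ) ≤ nm T := by exact_mod_cast one_le_nm T
  have h4 : Real.log ((48 * nm T : ℕ) : ℝ) = Real.log 48 + Real.log (nm T) := by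
    push_cast
    rw [Real.log_mul (by norm_num) (by positivity)]
  rw [h4]
  have h5 : 0 ≤ Real.log (nm T) := Real.log_nonneg h3
  have h6 : 0 ≤ Real.log 48 := Real.log_nonneg (by norm_num)
  have h7 : 0 ≤ C * (Real.log 48 * Real.log (nm T)) := by positivity
  nlinarith

end

end Pool.Agent.Lib.MP_1a91b9_ntH
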