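import Pool.Agent.Lib.MP_1a91b9_ntH.R.BHyp
import Pool.Agent.Lib.MP_1a91b9_ntH.R.Ring
import Pool.Agent.Lib.MP_1a91b9_ntH.R.Cheb
import Pool.Agent.Lib.MP_1a91b9_ntH.R.Chi
import Pool.Agent.Lib.MP_1a91b9_ntH.R.Cnt

/-!
# MP_1a91b9_nt (TwistDensity), R9: the bilinear bound for the primary primes of `ℤ[w]`
-/

set_option autoImplicit false

namespace Pool.Agent.Lib.MP_1a91b9_ntH

open NumberField Finset Pool.Agent.Lib.MP_1a91b9_ntT

namespace B

theorem Nz_nat (p : ℕ) : Nz (p : 𝓞 K) = p ^ 2 := by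
  have h := Nz_coords (p : ℤ) 0
  simp only [Int.cast_natCast, Int.cast_zero, zero_mul, add_zero, mul_zero, sub_zero] at h
  have h2 : (Nz (p : 𝓞 K) : ℤ) = ((p ^ 2 : ℕ) : ℤ) := by
    rw [h]
    push_cast
    ring
  exact_mod_cast h2

theorem dvd_Nz (x : 𝓞 K) : x ∣ (Nz x : 𝓞 K) := by
  obtain ⟨⟨a, b⟩, rfl⟩ := exists_coords x
  refine ⟨((a - b : ℤ) : 𝓞 K) - ((b : ℤ) : 𝓞 K) * wO, ?_⟩
  have h1 := Nz_coords a b
  have h2 : (Nz ((a : 𝓞 K) + (b : 𝓞 K) * wO) : 𝓞 K) = ((a ^ 2 - a * b + b ^ 2 : ℤ) : 𝓞 K) := by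
    rw [← h1]
    simp
  rw [h2]
  push_cast
  linear_combination (b : 𝓞 K) ^ 2 * wO_quad

theorem dvd_over {q : Pq} {p : ℕ} (hq : Nz q.1 = p ∨ Nz q.1 = p ^ 2) : q.1 ∣ (p : 𝓞 K) := by
  have h := dvd_Nz q.1
  rcases hq with h1 | h1 <;> rw [h1] at h
  · exact h
  · rw [Nat.cast_pow] at h
    exact q.prime.dvd_of_dvd_pow h

theorem no_three {p : ℕ} (hp : p.Prime) {q1 q2 q3 : Pq} (h12 : q1 ≠ q2) (h13 : q1 ≠ q3)
    (h23 : q2 ≠ q3) (h1 : Nz q1.1 = p ∨ Nz q1.1 = p ^ 2) (h2 : Nz q2.1 = p ∨ Nz q2.1 = p ^ 2)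
    (h3 : Nz q3.1 = p ∨ Nz q3.1 = p ^ 2) : False := by
  have hd : DD {q1, q2, q3} ∣ (p : 𝓞 K) := by
    rw [DD_dvd_iff]
    intro q hq
    simp only [mem_insert, mem_singleton] at hq
    rcases hq with rfl | rfl | rfl
    · exact dvd_over h1
    · exact dvd_over h2
    · exact dvd_over h3
  obtain ⟨t, ht⟩ := hd
  have h4 : p ^ 2 = nm ({q1, q2, q3} : Finset Pq) * Nz t := by
    rw [← Nz_nat, ht, Nz_mul, Nz_DD]
  have h5 : nm ({q1, q2, q3} : Finset Pq) = Nz q1.1 * (Nz q2.1 * Nz q3.1) := by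
    unfold nm
    rw [prod_insert (by simp [h12, h13]), prod_insert (by simp [h23]), prod_singleton]
    rfl
  have hp2 := hp.two_le
  have le : ∀ q : Pq, (Nz q.1 = p ∨ Nz q.1 = p ^ 2) → p ≤ Nz q.1 := by
    intro q hq
    rcases hq with h | h <;> rw [h]
    nlinarith
  have l1 := le q1 h1
  have l2 := le q2 h2
  have l3 := le q3 h3
  have ht0 : Nz t ≠ 0 := by
    intro h0
    rw [h0, mul_zero] at h4
    have : p ^ 2 ≠ 0 := by positivity
    exact this h4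
  have h6 : p * (p * p) ≤ nm ({q1, q2, q3} : Finset Pq) := by
    rw [h5]
    exact Nat.mul_le_mul l1 (Nat.mul_le_mul l2 l3)
  have h7 : nm ({q1, q2, q3} : Finset Pq) ≤ p ^ 2 := by
    rw [h4]
    exact Nat.le_mul_of_pos_right _ (Nat.pos_of_ne_zero ht0)
  have h8 : p * (p * p) ≤ p ^ 2 := h6.trans h7
  nlinarith

theorem fibPq : Fib Pq := by
  classical
  choose π hπ using fun q : Pq => Nz_prime_cases q
  have hex : ∀ q : Pq, ∃ q' : Pq, π q' = π q := fun q => ⟨q, rfl⟩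
  let f : ℕ → Pq → Prop := fun p q => π q = p
  let c : ℕ → Option Pq := fun p => if h : ∃ q, π q = p then some h.choose else none
  refine ⟨π, fun q => decide (c (π q) = some q), fun q => ⟨(hπ q).1, (hπ q).2.2⟩, ?_⟩
  intro q q' h
  simp only [Prod.mk.injEq] at h
  obtain ⟨h1, h2⟩ := h
  obtain ⟨q0, hq0, hc⟩ : ∃ q0, π q0 = π q ∧ c (π q) = some q0 := by
    have h3 : ∃ q', π q' = π q := ⟨q, rfl⟩
    exact ⟨h3.choose, h3.choose_spec, dif_pos h3⟩
  rw [← h1, hc] at h2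
  simp only [Option.some.injEq] at h2
  by_cases e : q0 = q
  · rw [decide_eq_true e] at h2
    have := of_decide_eq_true h2.symm
    exact e.symm.trans this
  · rw [decide_eq_false e] at h2
    have e' := of_decide_eq_false h2.symm
    by_contra hne
    refine no_three (p := π q) (hπ q).1 e e' hne ?_ (hπ q).2.2 ?_
    · rw [← hq0]
      exact (hπ q0).2.2
    · rw [h1]
      exact (hπ q').2.2

theorem syPq : Sy qd (fun q : Pq => q.1) (fun p x => ((qs p x : ℤ) : ℝ)) where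
  rec_ := qd_rec
  fib := fibPq
  nE_g q := nE_eq q.1
  mul q x y := by rw [qs_mul]; push_cast; rfl
  one q := by rw [qs_one]; norm_num
  le q x := by
    by_cases h : q.1 ∣ x
    · rw [qs_of_dvd h]
      norm_num
    · rcases qs_one_or h with h1 | h1 <;> rw [h1] <;> norm_num
  per q x y := by
    rw [qs_congr (x := x + q.1 * y) (y := x)]
    rw [add_sub_cancel_left]
    exact dvd_mul_right _ _
  self q := by rw [qs_of_dvd dvd_rfl]; norm_num
  sym q p h := by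
    rw [qs_prime p q h.symm, sg_eq_sgz]
  neg q := by
    obtain ⟨u, hu⟩ := exists_nonres q
    refine ⟨u, by rw [hu]; norm_num, ?_⟩
    have h1 : ¬ q.1 ∣ u := by
      intro h
      rw [qs_of_dvd h] at hu
      norm_num at hu
    exact (q.prime.irreducible.coprime_iff_not_dvd.2 h1).symm
  cop q p h := isCoprime_pq h

end B

/-- The bilinear bound. -/
theorem qd_bl : ∃ C K c, 0 < c ∧ qd.BL C K c := by
  obtain ⟨C, hC, h⟩ := B.bl_final B.syPq
  exact ⟨C, B.kbl + 3, 1 / 32, by norm_num, fun A B X V hA hB hV hX => h A B X V hA hB hV hX⟩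

end Pool.Agent.Lib.MP_1a91b9_ntH
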