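import Pool.Agent.Lib.MP_1a91b9_ntH.R.Chi
import Pool.Agent.Lib.MP_1a91b9_ntH.R.Cheb
import Pool.Agent.Lib.MP_1a91b9_ntH.R.SqF
import Pool.Agent.Lib.MP_1a91b9_ntH.R.BL

/-!
# MP_1a91b9_nt (TwistDensity), part R: the system of the symbols satisfies all the hypotheses
-/

set_option autoImplicit false

namespace Pool.Agent.Lib.MP_1a91b9_ntH

theorem qd_OK : qd.OK where
  rec_ := qd_rec
  cheb := cheb
  zt := zt
  cb := qd_cb
  h3 := qd_h3
  bl := qd_bl

end Pool.Agent.Lib.MP_1a91b9_ntH
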