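import Pool.Agent.Lib.MP_1a91b9_ntT.Base
import Pool.Agent.Lib.MP_1a91b9_ntH.D.Defs

/-!
# MP_1a91b9_nt (TwistDensity), part R: the ring `O = ℤ[w]`, the primary primes, the symbols

`O = 𝓞 K`, `K = ℚ(w)`, `w² + w + 1 = 0`, `s3 = 1 + 2w = √-3`.
-/

set_option autoImplicit false

namespace Pool.Agent.Lib.MP_1a91b9_ntH

open NumberField Finset Pool.Agent.Lib.MP_1a91b9_ntT

noncomputable section

theorem om_quad : om ^ 2 + om + 1 = 0 := by
  have h1 : (om - 1) * (om ^ 2 + om + 1) = 0 := by linear_combination om_spec.pow_eq_one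
  exact (mul_eq_zero.1 h1).resolve_left (sub_ne_zero.2 (om_spec.ne_one (by norm_num)))

/-- `w` as an element of `𝓞 K`. -/
def wO : 𝓞 K := ⟨om, om_spec.isIntegral (by norm_num)⟩

theorem coe_wO : (wO : K) = om := rfl

theorem wO_quad : wO ^ 2 + wO + 1 = 0 := by
  apply RingOfIntegers.ext
  simp only [map_add, map_pow, map_one, map_zero]
  exact om_quad

/-- `√-3`. -/
def s3 : 𝓞 K := 1 + 2 * wO

theorem s3_sq : s3 ^ 2 = -3 := by
  unfold s3
  linear_combination 4 * wO_quad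

/-- The elements `m + n om`. -/
def Zom : Subalgebra ℤ K where
  carrier := {x | ∃ m n : ℤ, x = m + n * om}
  mul_mem' := by
    rintro _ _ ⟨a, b, rfl⟩ ⟨c, d, rfl⟩
    refine ⟨a * c - b * d, a * d + b * c - b * d, ?_⟩
    push_cast
    linear_combination (b : K) * d * om_quad
  add_mem' := by
    rintro _ _ ⟨a, b, rfl⟩ ⟨c, d, rfl⟩
    refine ⟨a + c, b + d, ?_⟩
    push_cast
    ring
  algebraMap_mem' := by
    intro n
    exact ⟨n, 0, by simp⟩

theorem exists_coordsK (a : 𝓞 K) : ∃ m n : ℤ, (a : K) = m + n * om := by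
  have : Fact (Nat.Prime 3) := ⟨by norm_num⟩
  have h := IsCyclotomicExtension.Rat.isIntegralClosure_adjoin_singleton_of_prime om_spec
  have h1 : IsIntegral ℤ (a : K) := a.2
  obtain ⟨y, hy⟩ := h.isIntegral_iff.1 h1
  have h2 : (y : K) ∈ Zom := by
    have h3 : Algebra.adjoin ℤ ({om} : Set K) ≤ Zom := by
      rw [Algebra.adjoin_le_iff]
      rintro _ rfl
      exact ⟨0, 1, by simp⟩
    exact h3 y.2
  have h4 : (y : K) = a := hy
  rw [h4] at h2
  exact h2

theorem exists_coords (a : 𝓞 K) : ∃ p : ℤ × ℤ, a = p.1 + p.2 * wO := by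
  obtain ⟨m, n, h⟩ := exists_coordsK a
  refine ⟨(m, n), RingOfIntegers.ext ?_⟩
  rw [h]
  simp [coe_wO]

/-- The coordinates. -/
def cp (x : 𝓞 K) : ℤ × ℤ := (exists_coords x).choose

theorem eq_cp (x : 𝓞 K) : x = (cp x).1 + (cp x).2 * wO := (exists_coords x).choose_spec

theorem emb_coords (p q : ℤ) : embK (((p : 𝓞 K) + q * wO : 𝓞 K) : K) = p + q * zt := by
  simp [coe_wO, embK_om]

theorem zt_im : zt.im = √3 / 2 := by
  have e : (2 * Real.pi * Complex.I / (3 : ℕ) : ℂ) = ((2 * Real.pi / 3 : ℝ) : ℂ) * Complex.I := by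
    push_cast; ring
  rw [zt, e, Complex.exp_ofReal_mul_I_im]
  have h2 : 2 * Real.pi / 3 = Real.pi - Real.pi / 3 := by ring
  rw [h2, Real.sin_pi_sub, Real.sin_pi_div_three]

theorem zt_re : zt.re = -1 / 2 := by
  have e : (2 * Real.pi * Complex.I / (3 : ℕ) : ℂ) = ((2 * Real.pi / 3 : ℝ) : ℂ) * Complex.I := by
    push_cast; ring
  rw [zt, e, Complex.exp_ofReal_mul_I_re]
  have h2 : 2 * Real.pi / 3 = Real.pi - Real.pi / 3 := by ring
  rw [h2, Real.cos_pi_sub, Real.cos_pi_div_three]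
  norm_num

theorem coords_inj {p q p' q' : ℤ} (h : (p : 𝓞 K) + q * wO = p' + q' * wO) : p = p' ∧ q = q' := by
  have h1 := congrArg (fun x : 𝓞 K => embK (x : K)) h
  simp only [emb_coords] at h1
  have hi := congrArg Complex.im h1
  have hr := congrArg Complex.re h1
  simp [zt_im, zt_re] at hi hr
  subst hi
  simp at hr
  exact ⟨by exact_mod_cast hr, rfl⟩

theorem cp_coords (p q : ℤ) : cp ((p : 𝓞 K) + q * wO) = (p, q) := by
  have h := coords_inj (eq_cp ((p : 𝓞 K) + q * wO)).symm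
  exact Prod.ext h.1 h.2

/-- The norm. -/
def Nz (x : 𝓞 K) : ℕ := (Algebra.norm ℤ x).natAbs

theorem Nz_mul (x y : 𝓞 K) : Nz (x * y) = Nz x * Nz y := by
  rw [Nz, map_mul, Int.natAbs_mul]; rfl

theorem Nz_one : Nz 1 = 1 := by simp [Nz]

theorem finrank_K : Module.finrank ℚ K = 2 := by
  have h := IsCyclotomicExtension.finrank (K := ℚ) (n := 3) K
    (Polynomial.cyclotomic.irreducible_rat (by norm_num))
  rw [h]
  decide

/-- The conjugate embedding. -/
def embK' : K →ₐ[ℚ] ℂ where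
  toRingHom := (starRingEnd ℂ).comp embK.toRingHom
  commutes' := fun r => by
    change (starRingEnd ℂ) (embK (algebraMap ℚ K r)) = algebraMap ℚ ℂ r
    rw [embK.commutes]
    change (starRingEnd ℂ) ((r : ℚ) : ℂ) = ((r : ℚ) : ℂ)
    simp

theorem embK_ne : embK ≠ embK' := by
  intro h
  have h1 : embK om = (starRingEnd ℂ) (embK om) := congrArg (fun f : K →ₐ[ℚ] ℂ => f om) h
  rw [embK_om] at h1
  have h2 := congrArg Complex.im h1
  rw [Complex.conj_im, zt_im] at h2
  have : (0 : ℝ) < √3 := by positivity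
  linarith

theorem norm_K (x : K) : ((Algebra.norm ℚ x : ℚ) : ℂ) = embK x * (starRingEnd ℂ) (embK x) := by
  classical
  have h := Algebra.norm_eq_prod_embeddings ℚ ℂ x
  have hcard : Fintype.card (K →ₐ[ℚ] ℂ) = 2 := by
    rw [AlgHom.card, finrank_K]
  have huniv : (Finset.univ : Finset (K →ₐ[ℚ] ℂ)) = {embK, embK'} := by
    symm
    apply Finset.eq_univ_of_card
    rw [Finset.card_pair embK_ne, hcard]
  rw [huniv, Finset.prod_pair embK_ne] at h
  exact h

theorem norm_O (a : 𝓞 K) : ((Algebra.norm ℤ a : ℤ) : ℂ) =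
    embK (a : K) * (starRingEnd ℂ) (embK (a : K)) := by
  rw [← norm_K, ← Algebra.coe_norm_int]
  push_cast
  rfl

/-- The norm is the square of the absolute value. -/
theorem Nz_eq (x : 𝓞 K) : (Nz x : ℝ) = ‖embK (x : K)‖ ^ 2 := by
  have h := norm_O x
  rw [Complex.mul_conj, Complex.normSq_eq_norm_sq] at h
  have h1 : ((Algebra.norm ℤ x : ℤ) : ℝ) = ‖embK (x : K)‖ ^ 2 := by
    exact_mod_cast h
  have h2 : 0 ≤ Algebra.norm ℤ x := by
    have : (0 : ℝ) ≤ ((Algebra.norm ℤ x : ℤ) : ℝ) := by rw [h1]; positivity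
    exact_mod_cast this
  rw [Nz, ← h1, Nat.cast_natAbs, abs_of_nonneg h2]

theorem Nz_coords (p q : ℤ) : (Nz ((p : 𝓞 K) + q * wO) : ℤ) = p ^ 2 - p * q + q ^ 2 := by
  have h := Nz_eq ((p : 𝓞 K) + q * wO)
  rw [emb_coords, ← Complex.normSq_eq_norm_sq, Complex.normSq_apply] at h
  simp [zt_im, zt_re] at h
  have h3 : √3 * √3 = 3 := Real.mul_self_sqrt (by norm_num)
  have h4 : (Nz ((p : 𝓞 K) + q * wO) : ℝ) = p ^ 2 - p * q + q ^ 2 := by
    rw [h]
    linear_combination (q : ℝ) ^ 2 / 4 * h3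
  exact_mod_cast h4

/-- Reduction modulo 2. -/
def red : 𝓞 K →+* F4 where
  toFun x := ⟨(cp x).1, (cp x).2⟩
  map_one' := by
    have : cp (1 : 𝓞 K) = (1, 0) := by simpa using cp_coords 1 0
    rw [this]
    simp
    rfl
  map_zero' := by
    have : cp (0 : 𝓞 K) = (0, 0) := by simpa using cp_coords 0 0
    rw [this]
    simp
    rfl
  map_add' x y := by
    have : cp (x + y) = ((cp x).1 + (cp y).1, (cp x).2 + (cp y).2) := by
      rw [← cp_coords]
      congr 1
      conv_lhs => rw [eq_cp x, eq_cp y]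
      push_cast
      ring
    rw [this]
    push_cast
    rfl
  map_mul' x y := by
    have : cp (x * y) = ((cp x).1 * (cp y).1 - (cp x).2 * (cp y).2,
        (cp x).1 * (cp y).2 + (cp x).2 * (cp y).1 - (cp x).2 * (cp y).2) := by
      rw [← cp_coords]
      congr 1
      conv_lhs => rw [eq_cp x, eq_cp y]
      push_cast
      linear_combination ((cp x).2 : 𝓞 K) * (cp y).2 * wO_quad
    rw [this]
    push_cast
    change _ = (⟨_, _⟩ : F4)
    congr 1
    · exact CharTwo.sub_eq_add _ _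
    · exact CharTwo.sub_eq_add _ _

theorem red_w : red wO = F4.w := by
  have : cp wO = (0, 1) := by simpa using cp_coords 0 1
  change (⟨_, _⟩ : F4) = _
  rw [this]
  simp
  rfl

theorem red_surj : Function.Surjective red := by
  intro x
  refine ⟨((ZMod.val x.a : ℕ) : ℤ) + ((ZMod.val x.b : ℕ) : ℤ) * wO, ?_⟩
  change (⟨_, _⟩ : F4) = _
  rw [cp_coords]
  ext <;> simp

/-- The class of an element `1 + 2 y`. -/
def half (x : 𝓞 K) : 𝓞 K := (((cp x).1 - 1) / 2 : ℤ) + (((cp x).2 / 2 : ℤ)) * wO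

theorem half_eq (y : 𝓞 K) : half (1 + 2 * y) = y := by
  have : cp (1 + 2 * y) = (1 + 2 * (cp y).1, 2 * (cp y).2) := by
    rw [← cp_coords]
    congr 1
    conv_lhs => rw [eq_cp y]
    push_cast
    ring
  rw [half, this]
  have h1 : (1 + 2 * (cp y).1 - 1) / 2 = (cp y).1 := by omega
  have h2 : (2 * (cp y).2) / 2 = (cp y).2 := by omega
  rw [h1, h2]
  exact (eq_cp y).symm

theorem half_spec {x : 𝓞 K} (h : (2 : 𝓞 K) ∣ x - 1) : x = 1 + 2 * half x := by
  obtain ⟨y, hy⟩ := h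
  have : x = 1 + 2 * y := by linear_combination hy
  rw [this, half_eq]

/-- The primary primes. -/
def Pq : Type := {α : 𝓞 K // Prime α ∧ 2 * s3 ∣ α - 1}

instance : DecidableEq Pq := Classical.decEq _

theorem Nz_two_le {x : 𝓞 K} (hx : Prime x) : 2 ≤ Nz x := by
  have h1 : Nz x ≠ 0 := by
    intro h
    rw [Nz, Int.natAbs_eq_zero, Algebra.norm_eq_zero_iff] at h
    exact hx.ne_zero h
  have h2 : Nz x ≠ 1 := by
    intro h
    apply hx.not_isUnit
    rw [NumberField.isUnit_iff_norm]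
    have h3 : (Algebra.norm ℤ x).natAbs = 1 := h
    rw [Int.natAbs_eq_iff] at h3
    have h4 : (RingOfIntegers.norm ℚ x : ℚ) = ((Algebra.norm ℤ x : ℤ) : ℚ) := by
      rw [RingOfIntegers.coe_norm, Algebra.coe_norm_int]
    rw [h4]
    rcases h3 with h3 | h3 <;> rw [h3] <;> norm_num
  omega

theorem Nz_fin (n : ℕ) : {x : 𝓞 K | Nz x ≤ n}.Finite := by
  have h : {x : 𝓞 K | Nz x ≤ n} ⊆ (fun p : ℤ × ℤ => ((p.1 : 𝓞 K) + p.2 * wO)) ''
      ((Set.Icc (-(2 * n : ℤ)) (2 * n)) ×ˢ (Set.Icc (-(2 * n : ℤ)) (2 * n))) := by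
    intro x hx
    have hx' : Nz x ≤ n := hx
    refine ⟨cp x, ?_, (eq_cp x).symm⟩
    have h1 := Nz_coords (cp x).1 (cp x).2
    rw [← eq_cp x] at h1
    have h2 : (cp x).1 ^ 2 - (cp x).1 * (cp x).2 + (cp x).2 ^ 2 ≤ n := by
      rw [← h1]
      exact_mod_cast hx'
    have hp : (cp x).1 ^ 2 ≤ 2 * n := by nlinarith [sq_nonneg ((cp x).1 - 2 * (cp x).2)]
    have hq : (cp x).2 ^ 2 ≤ 2 * n := by nlinarith [sq_nonneg (2 * (cp x).1 - (cp x).2)]
    have hn : (0 : ℤ) ≤ n := Int.natCast_nonneg n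
    have key : ∀ z : ℤ, z ^ 2 ≤ 2 * n → -(2 * n : ℤ) ≤ z ∧ z ≤ 2 * n := by
      intro z hz
      have := Int.le_self_sq z
      have := Int.le_self_sq (-z)
      constructor <;> nlinarith
    exact ⟨key _ hp, key _ hq⟩
  exact (((Set.finite_Icc _ _).prod (Set.finite_Icc _ _)).image _).subset h

instance : PS Pq where
  N q := Nz q.1
  two_le q := Nz_two_le q.2.1
  fin n := by
    have h := (Nz_fin n).preimage (f := (Subtype.val : Pq → 𝓞 K)) Subtype.val_injective.injOn
    exact h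

open Classical in
/-- The quadratic symbol modulo a primary prime. -/
def qs (p : Pq) (x : 𝓞 K) : ℤ :=
  if p.1 ∣ x then 0 else if IsSquare (Ideal.Quotient.mk (Ideal.span {p.1}) x) then 1 else -1

open Classical in
/-- The system of the symbols and classes of the primary primes. -/
def qd : Dat Pq where
  s q p := if IsSquare (Ideal.Quotient.mk (Ideal.span {p.1}) q.1) then 0 else 1
  a q := red (half q.1)

/-- The element of a squarefree integer. -/
def DD (S : Finset Pq) : 𝓞 K := ∏ q ∈ S, q.1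

/-- The quadratic character of a squarefree integer. -/
def chi (S : Finset Pq) (x : 𝓞 K) : ℤ := ∏ p ∈ S, qs p x

/-- The twisting element of a squarefree integer: a generator of `(DD S)` or of `(s3 * DD S)` which is
`1` modulo `4`. -/
def dl (S : Finset Pq) : 𝓞 K :=
  (if (qd.A S).b = 0 then 1 else s3) * (if (qd.A S).a = 0 then 1 else -1) * DD S

end

end Pool.Agent.Lib.MP_1a91b9_ntH
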