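import Pool.Agent.Lib.MP_1a91b9_ntH.R.Bij
import Pool.Agent.Lib.MP_1a91b9_ntH.R.SqF

/-!
# MP_1a91b9_nt (TwistDensity), part R: transfer of the density (r4, R10)

The squarefree integers `δ ≡ 1` modulo `4` with norm at most `X` are the `dl S` with `nm S ≤ X` and
`(A_S).b = 0`, or with `nm S ≤ X / 3` and `(A_S).b ≠ 0`. A lower bound for the proportion in each class
`A_S = c` therefore gives the same lower bound for the proportion of the `δ`.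
-/

set_option autoImplicit false

namespace Pool.Agent.Lib.MP_1a91b9_ntH

open NumberField Finset Pool.Agent.Lib.MP_1a91b9_ntT

noncomputable section

/-- The bound for the norms of the `S` in the class `c`. -/
private def density_m (c : F4) (n : ℕ) : ℕ := if c.b = 0 then n else n / 3

private theorem density_mem (S : Finset Pq) (n : ℕ) :
    Nz (dl S) ≤ n ↔ nm S ≤ density_m (qd.A S) n := by
  rw [Nz_dl, density_m]
  split_ifs with h
  · rw [one_mul]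
  · rw [Nat.le_div_iff_mul_le (by norm_num), mul_comm]

private theorem density_m_le (c : F4) (n : ℕ) : density_m c n ≤ n := by
  rw [density_m]
  split_ifs with h
  · exact le_rfl
  · exact Nat.div_le_self n 3

private theorem density_le_m (c : F4) (n : ℕ) : n / 3 ≤ density_m c n := by
  rw [density_m]
  split_ifs with h
  · exact Nat.div_le_self n 3
  · exact le_rfl

open Classical in
private theorem density_card (X : ℝ) (hX : 0 ≤ X) (P : 𝓞 K → Prop) :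
    Nat.card {δ : 𝓞 K // Squarefree δ ∧ 4 ∣ δ - 1 ∧ (Nz δ : ℝ) ≤ X ∧ P δ} =
      ∑ c : F4, ((Sx Pq (density_m c ⌊X⌋₊)).filter fun S => qd.A S = c ∧ P (dl S)).card := by
  set n := ⌊X⌋₊ with hn
  have e : Nat.card {δ : 𝓞 K // Squarefree δ ∧ 4 ∣ δ - 1 ∧ (Nz δ : ℝ) ≤ X ∧ P δ} =
      Nat.card {S : Finset Pq // S ∈ (Sx Pq n).filter fun S => Nz (dl S) ≤ n ∧ P (dl S)} := by
    symm
    refine Nat.card_congr (Equiv.ofBijective
      (fun S => ⟨dl S.1, dl_squarefree _, dl_sub_one _, ?_, ((mem_filter.1 S.2).2).2⟩) ⟨?_, ?_⟩)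
    · exact (Nat.le_floor_iff hX).1 ((mem_filter.1 S.2).2).1
    · intro S T h
      exact Subtype.ext (dl_inj (congrArg Subtype.val h))
    · rintro ⟨δ, h1, h2, h3, h4⟩
      obtain ⟨S, rfl⟩ := exists_dl h1 h2
      have h5 : Nz (dl S) ≤ n := (Nat.le_floor_iff hX).2 h3
      refine ⟨⟨S, mem_filter.2 ⟨mem_Sx.2 ?_, h5, h4⟩⟩, rfl⟩
      exact ((density_mem S n).1 h5).trans (density_m_le _ _)
  rw [e, Nat.card_eq_fintype_card, Fintype.card_coe,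
    card_eq_sum_card_fiberwise (f := fun S => qd.A S) (t := univ) (fun _ _ => mem_coe.2 (mem_univ _))]
  refine sum_congr rfl fun c _ => congrArg card ?_
  ext S
  simp only [mem_filter, mem_Sx, density_mem]
  constructor
  · rintro ⟨⟨_, h2, h3⟩, rfl⟩
    exact ⟨h2, rfl, h3⟩
  · rintro ⟨h1, rfl, h3⟩
    exact ⟨⟨h1.trans (density_m_le _ _), h1, h3⟩, rfl⟩

open Classical in
private theorem density_card' (X : ℝ) (hX : 0 ≤ X) :
    Nat.card {δ : 𝓞 K // Squarefree δ ∧ 4 ∣ δ - 1 ∧ (Nz δ : ℝ) ≤ X} =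
      ∑ c : F4, ((Sx Pq (density_m c ⌊X⌋₊)).filter fun S => qd.A S = c).card := by
  have h := density_card X hX (fun _ => True)
  simp only [and_true] at h
  exact h

/-- There are at least `c₀ X` squarefree `δ ≡ 1` modulo `4` with norm at most `X`. -/
theorem density_card_ge : ∃ c₀ : ℝ, 0 < c₀ ∧ ∀ᶠ X : ℝ in Filter.atTop,
    c₀ * X ≤ Nat.card {δ : 𝓞 K // Squarefree δ ∧ 4 ∣ δ - 1 ∧ (Nz δ : ℝ) ≤ X} := by
  classical
  obtain ⟨c, hc, X₀, h⟩ := card_Sx_ge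
  refine ⟨c / 6, by positivity, ?_⟩
  filter_upwards [Filter.eventually_ge_atTop ((3 * X₀ + 12 : ℕ) : ℝ)] with X hX
  have hX0 : 0 ≤ X := (Nat.cast_nonneg _).trans hX
  have hn : 3 * X₀ + 12 ≤ ⌊X⌋₊ := Nat.le_floor hX
  have h1 : X₀ ≤ ⌊X⌋₊ / 3 := by omega
  have h2 := h _ h1
  have h3 : (Sx Pq (⌊X⌋₊ / 3)).card ≤
      ∑ c : F4, ((Sx Pq (density_m c ⌊X⌋₊)).filter fun S => qd.A S = c).card := by
    rw [card_eq_sum_card_fiberwise (f := fun S => qd.A S) (t := univ)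
      (fun _ _ => mem_coe.2 (mem_univ _))]
    refine sum_le_sum fun c _ => card_le_card ?_
    intro S hS
    rw [mem_filter, mem_Sx] at hS ⊢
    exact ⟨hS.1.trans (density_le_m _ _), hS.2⟩
  rw [density_card' X hX0]
  have h4 : X ≤ 6 * ((⌊X⌋₊ / 3 : ℕ) : ℝ) := by
    have h5 : X < ⌊X⌋₊ + 1 := Nat.lt_floor_add_one X
    have h6 : ⌊X⌋₊ + 1 ≤ 6 * (⌊X⌋₊ / 3) := by omega
    have h7 : ((⌊X⌋₊ : ℝ) + 1) ≤ 6 * ((⌊X⌋₊ / 3 : ℕ) : ℝ) := by exact_mod_cast h6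
    linarith
  calc c / 6 * X ≤ c / 6 * (6 * ((⌊X⌋₊ / 3 : ℕ) : ℝ)) :=
        mul_le_mul_of_nonneg_left h4 (by positivity)
    _ = c * ((⌊X⌋₊ / 3 : ℕ) : ℝ) := by ring
    _ ≤ ((Sx Pq (⌊X⌋₊ / 3)).card : ℝ) := h2
    _ ≤ _ := by exact_mod_cast h3

/-- The denominator is not zero for large `X`. -/
theorem card_pos : ∀ᶠ X : ℝ in Filter.atTop,
    0 < Nat.card {δ : 𝓞 K // Squarefree δ ∧ 4 ∣ δ - 1 ∧ (Nz δ : ℝ) ≤ X} := by
  obtain ⟨c, hc, h⟩ := density_card_ge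
  filter_upwards [h, Filter.eventually_ge_atTop (1 : ℝ)] with X hX h1
  have h2 : (0 : ℝ) < Nat.card {δ : 𝓞 K // Squarefree δ ∧ 4 ∣ δ - 1 ∧ (Nz δ : ℝ) ≤ X} :=
    lt_of_lt_of_le (by positivity) hX
  exact_mod_cast h2

/-- If, in every class, the proportion of the `S` with `det M_S ≠ 0` is at least `κ` up to `o(X)`,
then the proportion of the `δ` with the property `Pr` is at least every `κ' < κ`. -/
theorem density (κ κ' : ℝ) (hκ : κ' < κ)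
    (h : ∀ c : F4, ∀ ε : ℝ, 0 < ε → ∃ X₀ : ℕ, ∀ X : ℕ, X₀ ≤ X →
      κ * (((Sx Pq X).filter fun S => qd.A S = c).card : ℝ) - ε * X ≤
        (((Sx Pq X).filter fun S => qd.A S = c ∧ (qd.M S).det ≠ 0).card : ℝ))
    (Pr : 𝓞 K → Prop) (hPr : ∀ S : Finset Pq, (qd.M S).det ≠ 0 → Pr (dl S)) :
    ∀ᶠ X : ℝ in Filter.atTop,
      κ' * (Nat.card {δ : 𝓞 K // Squarefree δ ∧ 4 ∣ δ - 1 ∧ (Nz δ : ℝ) ≤ X} : ℝ) ≤
        (Nat.card {δ : 𝓞 K // Squarefree δ ∧ 4 ∣ δ - 1 ∧ (Nz δ : ℝ) ≤ X ∧ Pr δ} : ℝ) := by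
  classical
  obtain ⟨c₀, hc₀, h0⟩ := density_card_ge
  have hε : 0 < (κ - κ') * c₀ / 4 := by
    have : 0 < κ - κ' := by linarith
    positivity
  choose X₀ hX₀ using fun c : F4 => h c _ hε
  filter_upwards [h0, Filter.eventually_ge_atTop ((3 * (∑ c, X₀ c) + 3 : ℕ) : ℝ)] with X h1 hX
  have hX0 : 0 ≤ X := (Nat.cast_nonneg _).trans hX
  have hn : 3 * (∑ c, X₀ c) + 3 ≤ ⌊X⌋₊ := Nat.le_floor hX
  have h2 : ∀ c : F4, κ * (((Sx Pq (density_m c ⌊X⌋₊)).filter fun S => qd.A S = c).card : ℝ) -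
      (κ - κ') * c₀ / 4 * X ≤
      (((Sx Pq (density_m c ⌊X⌋₊)).filter fun S => qd.A S = c ∧ Pr (dl S)).card : ℝ) := by
    intro c
    have h3 : X₀ c ≤ ∑ c, X₀ c := single_le_sum (fun _ _ => Nat.zero_le _) (mem_univ c)
    have h4 : X₀ c ≤ density_m c ⌊X⌋₊ := by
      have := density_le_m c ⌊X⌋₊
      omega
    have h5 := hX₀ c _ h4
    have h6 : ((density_m c ⌊X⌋₊ : ℕ) : ℝ) ≤ X :=
      (Nat.le_floor_iff hX0).1 (density_m_le _ _)
    have h7 : (κ - κ') * c₀ / 4 * ((density_m c ⌊X⌋₊ : ℕ) : ℝ) ≤ (κ - κ') * c₀ / 4 * X :=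
      mul_le_mul_of_nonneg_left h6 hε.le
    have h8 : (((Sx Pq (density_m c ⌊X⌋₊)).filter fun S => qd.A S = c ∧ (qd.M S).det ≠ 0).card : ℝ) ≤
        (((Sx Pq (density_m c ⌊X⌋₊)).filter fun S => qd.A S = c ∧ Pr (dl S)).card : ℝ) := by
      refine Nat.cast_le.2 (card_le_card ?_)
      intro S hS
      rw [mem_filter] at hS ⊢
      exact ⟨hS.1, hS.2.1, hPr S hS.2.2⟩
    linarith
  have h9 := sum_le_sum fun (c : F4) (_ : c ∈ (univ : Finset F4)) => h2 c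
  rw [sum_sub_distrib, ← mul_sum, sum_const, card_univ, F4.card_F4, nsmul_eq_mul] at h9
  rw [density_card X hX0 Pr]
  have h10 : (∑ c : F4, (((Sx Pq (density_m c ⌊X⌋₊)).filter fun S => qd.A S = c).card : ℝ)) =
      (Nat.card {δ : 𝓞 K // Squarefree δ ∧ 4 ∣ δ - 1 ∧ (Nz δ : ℝ) ≤ X} : ℝ) := by
    rw [density_card' X hX0]
    push_cast
    rfl
  rw [h10] at h9
  push_cast
  have h11 : (κ - κ') * (c₀ * X) ≤ (κ - κ') *
      (Nat.card {δ : 𝓞 K // Squarefree δ ∧ 4 ∣ δ - 1 ∧ (Nz δ : ℝ) ≤ X} : ℝ) :=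
    mul_le_mul_of_nonneg_left h1 (by linarith)
  push_cast at h9
  linarith

/-- The norm in the form of the final statements. -/
theorem abs_norm_le (δ : 𝓞 K) (X : ℝ) : ((|Algebra.norm ℤ δ| : ℤ) : ℝ) ≤ X ↔ (Nz δ : ℝ) ≤ X := by
  rw [Nz, Nat.cast_natAbs]

/-- The density in the form of the final statements. -/
theorem density_ratio (κ κ' : ℝ) (hκ : κ' < κ)
    (h : ∀ c : F4, ∀ ε : ℝ, 0 < ε → ∃ X₀ : ℕ, ∀ X : ℕ, X₀ ≤ X →
      κ * (((Sx Pq X).filter fun S => qd.A S = c).card : ℝ) - ε * X ≤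
        (((Sx Pq X).filter fun S => qd.A S = c ∧ (qd.M S).det ≠ 0).card : ℝ))
    (Pr : 𝓞 K → Prop) (hPr : ∀ S : Finset Pq, (qd.M S).det ≠ 0 → Pr (dl S)) :
    ∀ᶠ X : ℝ in Filter.atTop,
      κ' ≤ (Nat.card {δ : 𝓞 K // Squarefree δ ∧ 4 ∣ δ - 1 ∧ |Algebra.norm ℤ δ| ≤ X ∧ Pr δ} : ℝ) /
        (Nat.card {δ : 𝓞 K // Squarefree δ ∧ 4 ∣ δ - 1 ∧ |Algebra.norm ℤ δ| ≤ X} : ℝ) := by
  filter_upwards [density κ κ' hκ h Pr hPr, card_pos] with X h1 h2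
  simp only [abs_norm_le]
  rw [le_div_iff₀ (by exact_mod_cast h2)]
  exact h1

end

end Pool.Agent.Lib.MP_1a91b9_ntH
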