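import Mathlib

/-! MP_1a91b9_nt (TwistDensity), R9: moments of the divisor function (port of QTau).  `∑_{n ≤ x} τ(n)^k ≤ x (1 + log x)^(2^k - 1)`.

Proof.  `τ(d e) ≤ τ(d) τ(e)` (every divisor of `de` is a product of a divisor of `d` and one of `e`).
First `R_k(x) := ∑_{n ≤ x} τ(n)^k / n ≤ (1 + log x)^(2^k)`: induction, `τ(n)^(k+1)/n = ∑_{d e = n} τ(de)^k/(de) ≤
∑_{de=n} (τ(d)^k/d)(τ(e)^k/e)`, and the pairs with `de ≤ x` are among those with `d ≤ x, e ≤ x`.
`R_0(x) ≤ 1 + log x` is `harmonic_le_one_add_log`.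
Then `T_k(x) = ∑_{n≤x} τ(n)^k ≤ x (1 + log x)^(2^k-1)`: `T_0(x) ≤ x`;
`T_{k+1}(x) ≤ ∑_{d≤x} τ(d)^k T_k(x/d) ≤ ∑_d τ(d)^k (x/d)(1+log x)^(2^k-1) ≤ x (1+log x)^(2^k-1+2^k)`. -/

namespace Pool.Agent.Lib.MP_1a91b9_ntH.B

open Finset

open Pointwise in
private theorem tau_mul_le (d e : ℕ) :
    (d * e).divisors.card ≤ d.divisors.card * e.divisors.card := by
  rw [Nat.divisors_mul]
  exact Finset.card_mul_le

private theorem tau_swap (x : ℕ) (F : ℕ → ℕ → ℝ) :
    ∑ n ∈ Icc 1 x, ∑ p ∈ n.divisorsAntidiagonal, F p.1 p.2 =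
      ∑ d ∈ Icc 1 x, ∑ e ∈ Icc 1 (x / d), F d e := by
  rw [Finset.sum_sigma', Finset.sum_sigma']
  refine Finset.sum_bij' (fun a _ => ⟨a.2.1, a.2.2⟩) (fun a _ => ⟨a.1 * a.2, (a.1, a.2)⟩)
    ?_ ?_ ?_ ?_ ?_
  · rintro ⟨n, d, e⟩ h
    simp only [Finset.mem_sigma, Finset.mem_Icc, Nat.mem_divisorsAntidiagonal] at h ⊢
    obtain ⟨⟨h1, h2⟩, h3, h4⟩ := h
    have hd : d ≠ 0 := by
      rintro rfl
      simp at h3
      exact h4 h3.symm
    have he : e ≠ 0 := by
      rintro rfl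
      simp at h3
      exact h4 h3.symm
    have hd1 : 1 ≤ d := Nat.one_le_iff_ne_zero.2 hd
    have he1 : 1 ≤ e := Nat.one_le_iff_ne_zero.2 he
    refine ⟨⟨hd1, ?_⟩, he1, ?_⟩
    · calc d ≤ d * e := Nat.le_mul_of_pos_right d he1
        _ = n := h3
        _ ≤ x := h2
    · rw [Nat.le_div_iff_mul_le hd1, mul_comm, h3]
      exact h2
  · rintro ⟨d, e⟩ h
    simp only [Finset.mem_sigma, Finset.mem_Icc, Nat.mem_divisorsAntidiagonal] at h ⊢
    obtain ⟨⟨h1, h2⟩, h3, h4⟩ := h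
    have h5 : e * d ≤ x := (Nat.le_div_iff_mul_le h1).1 h4
    refine ⟨⟨?_, ?_⟩, trivial, ?_⟩
    · exact Nat.mul_pos h1 h3
    · rw [mul_comm]
      exact h5
    · exact (Nat.mul_pos h1 h3).ne'
  · rintro ⟨n, d, e⟩ h
    simp only [Finset.mem_sigma, Finset.mem_Icc, Nat.mem_divisorsAntidiagonal] at h
    obtain ⟨-, h3, -⟩ := h
    simp only
    subst h3
    rfl
  · rintro ⟨d, e⟩ h
    rfl
  · rintro ⟨n, d, e⟩ h
    rfl

private theorem tau_succ (k n : ℕ) :
    ((n.divisors.card : ℝ)) ^ (k + 1) ≤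
      ∑ p ∈ n.divisorsAntidiagonal, ((p.1.divisors.card : ℝ)) ^ k * ((p.2.divisors.card : ℝ)) ^ k := by
  have h1 : ((n.divisors.card : ℝ)) ^ (k + 1) =
      ∑ p ∈ n.divisorsAntidiagonal, ((n.divisors.card : ℝ)) ^ k := by
    rw [Finset.sum_const, nsmul_eq_mul, pow_succ, mul_comm, ← Nat.map_div_right_divisors,
      Finset.card_map]
  rw [h1]
  refine Finset.sum_le_sum ?_
  rintro ⟨d, e⟩ h
  rw [Nat.mem_divisorsAntidiagonal] at h
  simp only at h ⊢
  rw [← mul_pow]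
  refine pow_le_pow_left₀ (Nat.cast_nonneg _) ?_ k
  rw [← h.1]
  exact_mod_cast tau_mul_le d e

theorem tau_R (k x : ℕ) :
    ∑ n ∈ Icc 1 x, ((n.divisors.card : ℝ)) ^ k / n ≤ (1 + Real.log x) ^ (2 ^ k) := by
  induction k with
  | zero =>
    have h := harmonic_le_one_add_log x
    rw [harmonic_eq_sum_Icc] at h
    push_cast at h
    simp only [pow_zero, pow_one, one_div]
    exact h
  | succ k ih =>
    have h1 : ∑ n ∈ Icc 1 x, ((n.divisors.card : ℝ)) ^ (k + 1) / n ≤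
        ∑ n ∈ Icc 1 x, ∑ p ∈ n.divisorsAntidiagonal,
          (((p.1.divisors.card : ℝ)) ^ k / p.1) * (((p.2.divisors.card : ℝ)) ^ k / p.2) := by
      refine Finset.sum_le_sum ?_
      intro n hn
      have hn1 : (0 : ℝ) < n := by
        have := (Finset.mem_Icc.1 hn).1
        exact_mod_cast this
      have h2 := div_le_div_of_nonneg_right (tau_succ k n) hn1.le
      refine h2.trans (le_of_eq ?_)
      rw [Finset.sum_div]
      refine Finset.sum_congr rfl ?_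
      rintro ⟨d, e⟩ h
      rw [Nat.mem_divisorsAntidiagonal] at h
      simp only at h ⊢
      rw [← h.1]
      push_cast
      rw [mul_div_mul_comm]
    refine h1.trans ?_
    rw [tau_swap x (fun d e => (((d.divisors.card : ℝ)) ^ k / d) * (((e.divisors.card : ℝ)) ^ k / e))]
    have h3 : ∑ d ∈ Icc 1 x, ∑ e ∈ Icc 1 (x / d),
        (((d.divisors.card : ℝ)) ^ k / d) * (((e.divisors.card : ℝ)) ^ k / e) ≤
        ∑ d ∈ Icc 1 x, (((d.divisors.card : ℝ)) ^ k / d) *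
          ∑ e ∈ Icc 1 x, (((e.divisors.card : ℝ)) ^ k / e) := by
      refine Finset.sum_le_sum ?_
      intro d hd
      rw [← Finset.mul_sum]
      refine mul_le_mul_of_nonneg_left ?_ (by positivity)
      refine Finset.sum_le_sum_of_subset_of_nonneg ?_ ?_
      · exact Finset.Icc_subset_Icc le_rfl (Nat.div_le_self x d)
      · intro i _ _
        positivity
    refine h3.trans ?_
    rw [← Finset.sum_mul]
    have h4 : (1 + Real.log x) ^ (2 ^ (k + 1)) = (1 + Real.log x) ^ (2 ^ k) *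
        (1 + Real.log x) ^ (2 ^ k) := by
      rw [← pow_add]
      congr 1
      ring
    rw [h4]
    have h5 : 0 ≤ ∑ n ∈ Icc 1 x, ((n.divisors.card : ℝ)) ^ k / n := by positivity
    exact mul_le_mul ih ih h5 (h5.trans ih)

theorem sum_tau_pow_le (k x : ℕ) (hx : 1 ≤ x) :
    ∑ n ∈ Icc 1 x, ((n.divisors.card : ℝ)) ^ k ≤ x * (1 + Real.log x) ^ (2 ^ k - 1) := by
  induction k generalizing x with
  | zero => simp
  | succ k ih =>
    have hlx : 0 ≤ Real.log x := Real.log_natCast_nonneg x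
    have h1 : ∑ n ∈ Icc 1 x, ((n.divisors.card : ℝ)) ^ (k + 1) ≤
        ∑ n ∈ Icc 1 x, ∑ p ∈ n.divisorsAntidiagonal,
          ((p.1.divisors.card : ℝ)) ^ k * ((p.2.divisors.card : ℝ)) ^ k :=
      Finset.sum_le_sum (fun n _ => tau_succ k n)
    refine h1.trans ?_
    rw [tau_swap x (fun d e => ((d.divisors.card : ℝ)) ^ k * ((e.divisors.card : ℝ)) ^ k)]
    have h2 : ∑ d ∈ Icc 1 x, ∑ e ∈ Icc 1 (x / d),
        ((d.divisors.card : ℝ)) ^ k * ((e.divisors.card : ℝ)) ^ k ≤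
        ∑ d ∈ Icc 1 x, (((d.divisors.card : ℝ)) ^ k / d) *
          (x * (1 + Real.log x) ^ (2 ^ k - 1)) := by
      refine Finset.sum_le_sum ?_
      intro d hd
      obtain ⟨hd1, hd2⟩ := Finset.mem_Icc.1 hd
      have hd0 : (0 : ℝ) < d := by exact_mod_cast hd1
      have hxd : 1 ≤ x / d := (Nat.one_le_div_iff hd1).2 hd2
      rw [← Finset.mul_sum]
      have h3 := ih (x / d) hxd
      have h4 : ((x / d : ℕ) : ℝ) ≤ x / d := Nat.cast_div_le
      have h5 : Real.log ((x / d : ℕ) : ℝ) ≤ Real.log x := by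
        refine Real.log_le_log (by exact_mod_cast hxd) ?_
        exact_mod_cast Nat.div_le_self x d
      have h5' : 0 ≤ Real.log ((x / d : ℕ) : ℝ) := Real.log_natCast_nonneg _
      have h6 : ((x / d : ℕ) : ℝ) * (1 + Real.log ((x / d : ℕ) : ℝ)) ^ (2 ^ k - 1) ≤
          (x / d) * (1 + Real.log x) ^ (2 ^ k - 1) := by
        refine mul_le_mul h4 ?_ (by positivity) (by positivity)
        exact pow_le_pow_left₀ (by positivity) (by linarith) _
      have h7 := mul_le_mul_of_nonneg_left (h3.trans h6)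
        (by positivity : 0 ≤ ((d.divisors.card : ℝ)) ^ k)
      refine h7.trans (le_of_eq ?_)
      ring
    refine h2.trans ?_
    rw [← Finset.sum_mul]
    have h8 := tau_R k x
    have h9 := mul_le_mul_of_nonneg_right h8
      (by positivity : 0 ≤ (x : ℝ) * (1 + Real.log x) ^ (2 ^ k - 1))
    refine h9.trans (le_of_eq ?_)
    have h10 : (1 + Real.log x) ^ (2 ^ (k + 1) - 1) = (1 + Real.log x) ^ (2 ^ k) *
        (1 + Real.log x) ^ (2 ^ k - 1) := by
      rw [← pow_add]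
      congr 1
      have : 1 ≤ 2 ^ k := Nat.one_le_two_pow
      rw [pow_succ]
      omega
    rw [h10]
    ring

end Pool.Agent.Lib.MP_1a91b9_ntH.B
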