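import Pool.Agent.Lib.MP_1a91b9_ntH.D.Defs
import Pool.Agent.Lib.MP_1a91b9_ntH.R.BTau

/-!
# MP_1a91b9_nt (TwistDensity), R9: crude counting of squarefree integers by the divisor function
-/

set_option autoImplicit false
set_option linter.unusedSectionVars false

namespace Pool.Agent.Lib.MP_1a91b9_ntH.B

open Finset

/-- Over every rational prime there are at most two primes of the system, with norms `p` or `p²`. -/
def Fib (ι : Type) [PS ι] : Prop :=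
  ∃ (π : ι → ℕ) (σ : ι → Bool), (∀ q, (π q).Prime ∧ (PS.N q = π q ∨ PS.N q = π q ^ 2)) ∧
    Function.Injective fun q => (π q, σ q)

section

variable {ι : Type} [DecidableEq ι] [PS ι]

/-- the part of the norm with `σ = b` -/
def ph (σ : ι → Bool) (b : Bool) (S : Finset ι) : ℕ := ∏ q ∈ S with σ q = b, PS.N q

theorem ph_mul (σ : ι → Bool) (S : Finset ι) : ph σ true S * ph σ false S = nm S := by
  unfold ph nm
  rw [← prod_filter_mul_prod_filter_not S (fun q => σ q = true)]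
  congr 1
  refine prod_congr ?_ fun _ _ => rfl
  ext q
  simp

theorem ph_pos (σ : ι → Bool) (b : Bool) (S : Finset ι) : 0 < ph σ b S :=
  prod_pos fun q _ => by
    have := PS.two_le q
    omega

theorem ph_inj {π : ι → ℕ} {σ : ι → Bool}
    (h1 : ∀ q, (π q).Prime ∧ (PS.N q = π q ∨ PS.N q = π q ^ 2))
    (h2 : Function.Injective fun q => (π q, σ q)) {S S' : Finset ι}
    (h : ∀ b, ph σ b S = ph σ b S') : S ⊆ S' := by
  intro q hq
  have h3 : π q ∣ ph σ (σ q) S := by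
    have e : PS.N q ∣ ph σ (σ q) S := dvd_prod_of_mem _ (mem_filter.2 ⟨hq, rfl⟩)
    refine dvd_trans ?_ e
    rcases (h1 q).2 with h4 | h4 <;> rw [h4]
    exact dvd_pow_self _ (by norm_num)
  rw [h, ph, Prime.dvd_finsetProd_iff (h1 q).1.prime] at h3
  obtain ⟨q', hq', hd⟩ := h3
  rw [mem_filter] at hq'
  have h5 : π q ∣ π q' := by
    rcases (h1 q').2 with h4 | h4 <;> rw [h4] at hd
    · exact hd
    · exact (h1 q).1.dvd_of_dvd_pow hd
  have h6 : π q = π q' := (Nat.prime_dvd_prime_iff_eq (h1 q).1 (h1 q').1).1 h5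
  have h7 : q = q' := h2 (Prod.ext h6 hq'.2.symm)
  rw [h7]
  exact hq'.1

theorem ph_inj' {π : ι → ℕ} {σ : ι → Bool}
    (h1 : ∀ q, (π q).Prime ∧ (PS.N q = π q ∨ PS.N q = π q ^ 2))
    (h2 : Function.Injective fun q => (π q, σ q)) {S S' : Finset ι}
    (hn : nm S = nm S') (ht : ph σ true S = ph σ true S') : S = S' := by
  have hf : ph σ false S = ph σ false S' := by
    have e1 := ph_mul σ S
    have e2 := ph_mul σ S'
    rw [← hn, ← e1, ← ht] at e2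
    exact (Nat.eq_of_mul_eq_mul_left (ph_pos σ true S) e2).symm
  have h : ∀ b, ph σ b S = ph σ b S' := by
    intro b
    cases b
    · exact hf
    · exact ht
  exact Subset.antisymm (ph_inj h1 h2 h) (ph_inj h1 h2 fun b => (h b).symm)

theorem card_fiber_le (hF : Fib ι) (X n : ℕ) (hn : n ≠ 0) :
    ((Sx ι X).filter fun S => nm S = n).card ≤ n.divisors.card := by
  obtain ⟨π, σ, h1, h2⟩ := hF
  refine card_le_card_of_injOn (ph σ true) ?_ ?_
  · intro S hS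
    rw [mem_coe, mem_filter] at hS
    rw [mem_coe, Nat.mem_divisors]
    exact ⟨⟨ph σ false S, by rw [ph_mul, hS.2]⟩, hn⟩
  · intro S hS T hT hST
    rw [mem_coe, mem_filter] at hS hT
    exact ph_inj' h1 h2 (hS.2.trans hT.2.symm) hST

theorem sum_Sx_le (hF : Fib ι) (X : ℕ) (I : Finset ℕ) (hI : ∀ n ∈ I, n ≠ 0) (F : ℕ → ℝ)
    (hFn : ∀ n, 0 ≤ F n) :
    ∑ S ∈ Sx ι X with nm S ∈ I, F (nm S) ≤ ∑ n ∈ I, (n.divisors.card : ℝ) * F n := by
  classical
  rw [← sum_fiberwise_of_maps_to (s := (Sx ι X).filter fun S => nm S ∈ I) (t := I) (g := nm)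
    (fun S hS => (mem_filter.1 hS).2)]
  refine sum_le_sum fun n hn => ?_
  have e : ∑ S ∈ ((Sx ι X).filter fun S => nm S ∈ I) with nm S = n, F (nm S) =
      ((((Sx ι X).filter fun S => nm S ∈ I).filter fun S => nm S = n).card : ℝ) * F n := by
    rw [← nsmul_eq_mul]
    rw [← sum_const]
    exact sum_congr rfl fun S hS => by rw [(mem_filter.1 hS).2]
  rw [e]
  refine mul_le_mul_of_nonneg_right ?_ (hFn n)
  have h := card_fiber_le hF X n (hI n hn)
  refine (Nat.cast_le.2 (card_le_card ?_)).trans (Nat.cast_le.2 h)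
  intro S hS
  rw [mem_filter, mem_filter] at hS
  exact mem_filter.2 ⟨hS.1.1, hS.2⟩

theorem sum_Sx_le' (hF : Fib ι) (X : ℕ) (F : ℕ → ℝ) (hFn : ∀ n, 0 ≤ F n) :
    ∑ S ∈ Sx ι X, F (nm S) ≤ ∑ n ∈ Icc 1 X, (n.divisors.card : ℝ) * F n := by
  classical
  have h := sum_Sx_le hF X (Icc 1 X) (fun n hn => by have := (mem_Icc.1 hn).1; omega) F hFn
  rwa [filter_true_of_mem] at h
  intro S hS
  exact mem_Icc.2 ⟨one_le_nm S, mem_Sx.1 hS⟩

/-- The number of squarefree integers of norm at most `X`, crudely. -/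
theorem card_Sx_le (hF : Fib ι) (X : ℕ) (hX : 1 ≤ X) :
    ((Sx ι X).card : ℝ) ≤ X * (1 + Real.log X) := by
  have h := sum_Sx_le' hF X (fun _ => 1) (fun _ => zero_le_one)
  rw [sum_const, nsmul_eq_mul, mul_one] at h
  refine h.trans ?_
  have h2 := sum_tau_pow_le 1 X hX
  simpa using h2

theorem sum_inv_nm_le (hF : Fib ι) (X : ℕ) :
    ∑ S ∈ Sx ι X, (1 : ℝ) / nm S ≤ (1 + Real.log X) ^ 2 := by
  refine (sum_Sx_le' hF X (fun n => 1 / (n : ℝ)) (fun _ => by positivity)).trans ?_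
  have h := tau_R 1 X
  simp only [pow_one] at h
  refine le_trans (le_of_eq ?_) h
  exact sum_congr rfl fun n _ => by rw [mul_one_div]

/-- Squarefree integers with norms in a short interval. -/
theorem card_short_le (hF : Fib ι) (X a b : ℕ) (hab : a ≤ b) (hb : 1 ≤ b) :
    (((Sx ι X).filter fun S => a < nm S ∧ nm S ≤ b).card : ℝ) ≤
      Real.sqrt (((b : ℝ) - a) * (b * (1 + Real.log b) ^ 3)) := by
  have h := sum_Sx_le hF X (Ioc a b) (fun n hn => by have := (mem_Ioc.1 hn).1; omega) (fun _ => 1)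
    (fun _ => zero_le_one)
  have e1 : ∑ S ∈ Sx ι X with nm S ∈ Ioc a b, (1 : ℝ) =
      (((Sx ι X).filter fun S => a < nm S ∧ nm S ≤ b).card : ℝ) := by
    rw [sum_const, nsmul_eq_mul, mul_one]
    congr 2
    refine filter_congr fun S _ => ?_
    rw [mem_Ioc]
  rw [e1] at h
  refine h.trans ?_
  refine Real.le_sqrt_of_sq_le ?_
  simp only [mul_one]
  refine (sq_sum_le_card_mul_sum_sq).trans ?_
  have e2 : ((Ioc a b).card : ℝ) = (b : ℝ) - a := by
    rw [Nat.card_Ioc, Nat.cast_sub hab]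
  rw [e2]
  have hba : (0 : ℝ) ≤ (b : ℝ) - a := by
    rw [sub_nonneg]
    exact_mod_cast hab
  refine mul_le_mul_of_nonneg_left ?_ hba
  have h3 := sum_tau_pow_le 2 b hb
  refine le_trans (sum_le_sum_of_subset_of_nonneg ?_ fun _ _ _ => by positivity) (h3.trans (le_of_eq ?_))
  · intro n hn
    rw [mem_Ioc] at hn
    rw [mem_Icc]
    omega
  · norm_num

/-- quadruples -/
noncomputable def Q4 (ι : Type) [DecidableEq ι] [PS ι] (M : ℕ) :
    Finset ((Finset ι × Finset ι) × (Finset ι × Finset ι)) :=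
  (Sx ι M ×ˢ Sx ι M) ×ˢ (Sx ι M ×ˢ Sx ι M)

/-- the norm of a quadruple -/
def nm4 (q : (Finset ι × Finset ι) × (Finset ι × Finset ι)) : ℕ :=
  nm q.1.1 * nm q.1.2 * (nm q.2.1 * nm q.2.2)

theorem card_Q4_le (hF : Fib ι) (M n : ℕ) (hn : n ≠ 0) :
    ((Q4 ι M).filter fun q => nm4 q = n).card ≤ n.divisors.card ^ 7 := by
  obtain ⟨π, σ, h1, h2⟩ := hF
  have h7 : n.divisors.card ^ 7 =
      (((n.divisors ×ˢ n.divisors) ×ˢ n.divisors) ×ˢ
        ((n.divisors ×ˢ n.divisors) ×ˢ (n.divisors ×ˢ n.divisors))).card := by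
    simp only [card_product]
    ring
  rw [h7]
  refine card_le_card_of_injOn (fun q => (((nm q.1.1, nm q.1.2), nm q.2.1),
    ((ph σ true q.1.1, ph σ true q.1.2), (ph σ true q.2.1, ph σ true q.2.2)))) ?_ ?_
  · intro q hq
    have hq' : nm q.1.1 * nm q.1.2 * (nm q.2.1 * nm q.2.2) = n := (mem_filter.1 hq).2
    have d1 : nm q.1.1 ∣ n := ⟨nm q.1.2 * (nm q.2.1 * nm q.2.2), by rw [← hq']; ring⟩
    have d2 : nm q.1.2 ∣ n := ⟨nm q.1.1 * (nm q.2.1 * nm q.2.2), by rw [← hq']; ring⟩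
    have d3 : nm q.2.1 ∣ n := ⟨nm q.1.1 * nm q.1.2 * nm q.2.2, by rw [← hq']; ring⟩
    have d4 : nm q.2.2 ∣ n := ⟨nm q.1.1 * nm q.1.2 * nm q.2.1, by rw [← hq']; ring⟩
    have dd : ∀ S : Finset ι, nm S ∣ n → ph σ true S ∣ n := fun S hS =>
      dvd_trans ⟨ph σ false S, (ph_mul σ S).symm⟩ hS
    simp only [coe_product, Set.mem_prod, mem_coe, Nat.mem_divisors]
    exact ⟨⟨⟨⟨d1, hn⟩, ⟨d2, hn⟩⟩, ⟨d3, hn⟩⟩, ⟨⟨dd _ d1, hn⟩, ⟨dd _ d2, hn⟩⟩, ⟨dd _ d3, hn⟩, ⟨dd _ d4, hn⟩⟩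
  · intro q hq r hr hqr
    have hq' : nm q.1.1 * nm q.1.2 * (nm q.2.1 * nm q.2.2) = n := (mem_filter.1 hq).2
    have hr' : nm r.1.1 * nm r.1.2 * (nm r.2.1 * nm r.2.2) = n := (mem_filter.1 hr).2
    simp only [Prod.mk.injEq] at hqr
    obtain ⟨⟨⟨e1, e2⟩, e3⟩, ⟨⟨f1, f2⟩, ⟨f3, f4⟩⟩⟩ := hqr
    have e4 : nm q.2.2 = nm r.2.2 := by
      have hh : (nm q.1.1 * nm q.1.2 * nm q.2.1) * nm q.2.2 =
          (nm q.1.1 * nm q.1.2 * nm q.2.1) * nm r.2.2 := by
        calc (nm q.1.1 * nm q.1.2 * nm q.2.1) * nm q.2.2 = n := by rw [← hq']; ring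
          _ = (nm r.1.1 * nm r.1.2 * nm r.2.1) * nm r.2.2 := by rw [← hr']; ring
          _ = (nm q.1.1 * nm q.1.2 * nm q.2.1) * nm r.2.2 := by rw [e1, e2, e3]
      refine Nat.eq_of_mul_eq_mul_left ?_ hh
      have := one_le_nm q.1.1
      have := one_le_nm q.1.2
      have := one_le_nm q.2.1
      positivity
    exact Prod.ext (Prod.ext (ph_inj' h1 h2 e1 f1) (ph_inj' h1 h2 e2 f2))
      (Prod.ext (ph_inj' h1 h2 e3 f3) (ph_inj' h1 h2 e4 f4))

theorem nm4_mem {M : ℕ} {q : (Finset ι × Finset ι) × (Finset ι × Finset ι)} (hq : q ∈ Q4 ι M) :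
    nm4 q ∈ Icc 1 (M ^ 4) := by
  simp only [Q4, mem_product, mem_Sx] at hq
  obtain ⟨⟨h1, h2⟩, ⟨h3, h4⟩⟩ := hq
  have a1 := one_le_nm q.1.1
  have a2 := one_le_nm q.1.2
  have a3 := one_le_nm q.2.1
  have a4 := one_le_nm q.2.2
  rw [mem_Icc, nm4]
  constructor
  · exact Nat.one_le_iff_ne_zero.2 (by positivity)
  · calc nm q.1.1 * nm q.1.2 * (nm q.2.1 * nm q.2.2) ≤ M * M * (M * M) := by gcongr
      _ = M ^ 4 := by ring

/-- The second moment of the number of quadruples. -/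
theorem sum_Q4_le (hF : Fib ι) (M : ℕ) (hM : 1 ≤ M) :
    ∑ q ∈ Q4 ι M, ((nm4 q).divisors.card : ℝ) ^ 7 ≤
      (M : ℝ) ^ 4 * (1 + 4 * Real.log M) ^ (2 ^ 14 - 1) := by
  classical
  rw [← sum_fiberwise_of_maps_to (s := Q4 ι M) (t := Icc 1 (M ^ 4)) (g := nm4)
    (fun q hq => nm4_mem hq)]
  have hM1 : 1 ≤ M ^ 4 := Nat.one_le_pow _ _ (by omega)
  have h := sum_tau_pow_le 14 (M ^ 4) hM1
  have h' : ((M ^ 4 : ℕ) : ℝ) * (1 + Real.log ((M ^ 4 : ℕ) : ℝ)) ^ (2 ^ 14 - 1) =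
      (M : ℝ) ^ 4 * (1 + 4 * Real.log M) ^ (2 ^ 14 - 1) := by
    rw [Nat.cast_pow, Real.log_pow]
    norm_num
  rw [h'] at h
  refine le_trans (sum_le_sum fun n hn => ?_) h
  have hn0 : n ≠ 0 := by
    have := (mem_Icc.1 hn).1
    omega
  have e : ∑ q ∈ Q4 ι M with nm4 q = n, ((nm4 q).divisors.card : ℝ) ^ 7 =
      (((Q4 ι M).filter fun q => nm4 q = n).card : ℝ) * (n.divisors.card : ℝ) ^ 7 := by
    rw [← nsmul_eq_mul, ← sum_const]
    exact sum_congr rfl fun q hq => by rw [(mem_filter.1 hq).2]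
  rw [e]
  have h3 : (((Q4 ι M).filter fun q => nm4 q = n).card : ℝ) ≤ (n.divisors.card : ℝ) ^ 7 := by
    exact_mod_cast card_Q4_le hF M n hn0
  calc (((Q4 ι M).filter fun q => nm4 q = n).card : ℝ) * (n.divisors.card : ℝ) ^ 7
      ≤ (n.divisors.card : ℝ) ^ 7 * (n.divisors.card : ℝ) ^ 7 :=
        mul_le_mul_of_nonneg_right h3 (by positivity)
    _ = (n.divisors.card : ℝ) ^ 14 := by ring

end

end Pool.Agent.Lib.MP_1a91b9_ntH.B
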