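import Pool.Agent.Lib.MP_1a91b9_ntH.R.Lat
import Pool.Agent.Lib.MP_1a91b9_ntH.R.BCnt

/-!
# MP_1a91b9_nt (TwistDensity), R9: the bilinear bound, asymmetric form
-/

set_option autoImplicit false
set_option linter.unusedSectionVars false

namespace Pool.Agent.Lib.MP_1a91b9_ntH.B

open Finset

/-- The symbols `D` come from generators `g q` and quadratic characters `ψ q` of a ring with the
coordinates of `ℤ[ω]`. -/
structure Sy {ι : Type} [PS ι] (D : Dat ι) {R : Type} [CommRing R] [Eis R] (g : ι → R)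
    (ψ : ι → R → ℝ) : Prop where
  rec_ : D.Rec
  fib : Fib ι
  nE_g : ∀ q, nE (g q) = PS.N q
  mul : ∀ q x y, ψ q (x * y) = ψ q x * ψ q y
  one : ∀ q, ψ q 1 = 1
  le : ∀ q x, |ψ q x| ≤ 1
  per : ∀ q x y, ψ q (x + g q * y) = ψ q x
  self : ∀ q, ψ q (g q) = 0
  sym : ∀ q p, q ≠ p → ψ p (g q) = sg (D.s q p)
  neg : ∀ q, ∃ u, ψ q u = -1 ∧ IsCoprime u (g q)
  cop : ∀ q p, q ≠ p → IsCoprime (g q) (g p)

section

variable {ι : Type} [DecidableEq ι] [PS ι] {D : Dat ι} {R : Type} [CommRing R] [Eis R]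
  {g : ι → R} {ψ : ι → R → ℝ}

/-- the product of the generators -/
def gS (g : ι → R) (S : Finset ι) : R := ∏ q ∈ S, g q

/-- the symbol modulo a squarefree integer -/
def J (ψ : ι → R → ℝ) (T : Finset ι) (x : R) : ℝ := ∏ q ∈ T, ψ q x

theorem nE_gS (h : Sy D g ψ) (S : Finset ι) : nE (gS g S) = nm S := by
  unfold gS nm
  induction S using Finset.induction_on with
  | empty =>
    have h1 : nE (1 : R) * nE (1 : R) = nE (1 : R) := by rw [← nE_mul, mul_one]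
    rw [prod_empty, prod_empty]
    rcases Nat.eq_zero_or_pos (nE (1 : R)) with h2 | h2
    · exfalso
      have h3 : (1 : R) = 0 := nE_eq_zero.1 h2
      have h4 : Eis.co (R := R).symm (1, 0) = 0 := by
        rw [← mul_one (Eis.co (R := R).symm (1, 0)), h3, mul_zero]
      have h5 : ((1, 0) : ℤ × ℤ) = 0 := by
        rw [← (Eis.co (R := R)).apply_symm_apply (1, 0), h4, map_zero]
      simp at h5
    · exact Nat.eq_of_mul_eq_mul_left h2 (by rw [h1, mul_one])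
  | insert a S ha ih => rw [prod_insert ha, prod_insert ha, nE_mul, ih, h.nE_g]

theorem J_mul (h : Sy D g ψ) (T : Finset ι) (x y : R) : J ψ T (x * y) = J ψ T x * J ψ T y := by
  unfold J
  rw [← prod_mul_distrib]
  exact prod_congr rfl fun q _ => h.mul q x y

theorem J_one (h : Sy D g ψ) (T : Finset ι) : J ψ T 1 = 1 := prod_eq_one fun q _ => h.one q

theorem J_abs (h : Sy D g ψ) (T : Finset ι) (x : R) : |J ψ T x| ≤ 1 := by
  unfold J
  rw [abs_prod]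
  exact prod_le_one (fun _ _ => abs_nonneg _) fun q _ => h.le q x

theorem J_prod (h : Sy D g ψ) (T S : Finset ι) : J ψ T (gS g S) = ∏ q ∈ S, J ψ T (g q) := by
  unfold gS
  induction S using Finset.induction_on with
  | empty => rw [prod_empty, prod_empty, J_one h]
  | insert a S ha ih => rw [prod_insert ha, prod_insert ha, J_mul h, ih]

theorem sg_add (x y : ZMod 2) : sg (x + y) = sg x * sg y := by
  revert x y
  have key : ∀ x y : ZMod 2, (x = 0 ∧ y = 0 ∧ x + y = 0) ∨ (x = 0 ∧ y ≠ 0 ∧ x + y ≠ 0) ∨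
      (x ≠ 0 ∧ y = 0 ∧ x + y ≠ 0) ∨ (x ≠ 0 ∧ y ≠ 0 ∧ x + y = 0) := by decide
  intro x y
  unfold sg
  rcases key x y with h | h | h | h <;> simp [h]

theorem sg_sum {α : Type} (s : Finset α) (f : α → ZMod 2) : sg (∑ i ∈ s, f i) = ∏ i ∈ s, sg (f i) := by
  classical
  induction s using Finset.induction_on with
  | empty => simp [sg]
  | insert a s ha ih => rw [sum_insert ha, prod_insert ha, sg_add, ih]

theorem J_disj (h : Sy D g ψ) {S T : Finset ι} (hd : Disjoint S T) :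
    J ψ T (gS g S) = sg (D.ss S T) := by
  rw [J_prod h, Dat.ss, sg_sum]
  refine prod_congr rfl fun q hq => ?_
  rw [sg_sum, J]
  exact prod_congr rfl fun p hp => h.sym q p fun e => disjoint_left.1 hd hq (e ▸ hp)

theorem J_not_disj (h : Sy D g ψ) {S T : Finset ι} (hd : ¬ Disjoint S T) : J ψ T (gS g S) = 0 := by
  rw [not_disjoint_iff] at hd
  obtain ⟨q, hq, hq'⟩ := hd
  rw [J_prod h]
  refine prod_eq_zero hq (prod_eq_zero hq' (h.self q))

theorem J_gS (h : Sy D g ψ) (S T : Finset ι) :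
    J ψ T (gS g S) = if Disjoint S T then sg (D.ss S T) else 0 := by
  split_ifs with hd
  · exact J_disj h hd
  · exact J_not_disj h hd

theorem ψ_per' (h : Sy D g ψ) (q : ι) (x y m : R) (hm : g q ∣ m) : ψ q (x + m * y) = ψ q x := by
  obtain ⟨t, rfl⟩ := hm
  rw [mul_assoc, h.per]

/-- Chinese remainders: an element with prescribed symbols. -/
theorem exists_unit (h : Sy D g ψ) (W : Finset ι) (q : ι) (hq : q ∉ W) :
    ∃ u : R, ψ q u = -1 ∧ (∀ p ∈ W, ψ p u = 1) ∧ IsCoprime u (gS g (insert q W)) := by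
  obtain ⟨u0, hu0, hc0⟩ := h.neg q
  have hc : IsCoprime (g q) (gS g W) := by
    unfold gS
    exact IsCoprime.prod_right fun p hp => h.cop q p fun e => hq (e ▸ hp)
  obtain ⟨a, b, hab⟩ := hc
  -- `u = u0 * (b * G) + a * g q`, with `a * g q + b * G = 1`
  refine ⟨u0 * (b * gS g W) + a * g q, ?_, ?_, ?_⟩
  · have e : u0 * (b * gS g W) + a * g q = u0 + g q * (a - u0 * a) := by
      linear_combination u0 * hab
    rw [e, h.per, hu0]
  · intro p hp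
    have e : u0 * (b * gS g W) + a * g q = 1 + gS g W * (u0 * b - b) := by
      linear_combination hab
    rw [e, ψ_per' h p _ _ (gS g W) (dvd_prod_of_mem g hp), h.one]
  · unfold gS
    rw [prod_insert hq]
    refine IsCoprime.mul_right ?_ ?_
    · have e : u0 * (b * gS g W) + a * g q = u0 + g q * (a - u0 * a) := by
        linear_combination u0 * hab
      change IsCoprime (u0 * (b * gS g W) + a * g q) (g q)
      rw [e]
      exact IsCoprime.add_mul_left_left hc0 _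
    · have e : u0 * (b * gS g W) + a * g q = 1 + gS g W * (u0 * b - b) := by
        linear_combination hab
      change IsCoprime (u0 * (b * gS g W) + a * g q) (gS g W)
      rw [e]
      exact IsCoprime.add_mul_left_left isCoprime_one_left _

theorem gS_ne_zero (h : Sy D g ψ) (S : Finset ι) : gS g S ≠ 0 := by
  intro h0
  have h1 := nE_gS h S
  rw [h0, nE_eq_zero.2 rfl] at h1
  have := one_le_nm S
  omega

/-- Off-diagonal cancellation. -/
theorem offdiag_aux (h : Sy D g ψ) (S T : Finset ι) (q : ι) (hqS : q ∈ S) (hqT : q ∉ T) (x y : ℤ)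
    (L : ℕ) : |∑ z ∈ boxE R x y L, J ψ S z * J ψ T z| ≤ 4 * Nat.sqrt (nm S * nm T) * L := by
  have hqW : q ∉ (S ∪ T).erase q := notMem_erase q _
  have hins : insert q ((S ∪ T).erase q) = S ∪ T :=
    insert_erase (mem_union_left _ hqS)
  obtain ⟨u, hu1, hu2, hu3⟩ := exists_unit h ((S ∪ T).erase q) q hqW
  rw [hins] at hu3
  have hun : IsCoprime u (gS g S * gS g T) := by
    refine IsCoprime.mul_right ?_ ?_
    · exact hu3.of_isCoprime_of_dvd_right (prod_dvd_prod_of_subset _ _ _ subset_union_left)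
    · exact hu3.of_isCoprime_of_dvd_right (prod_dvd_prod_of_subset _ _ _ subset_union_right)
  obtain ⟨v, w, hvw⟩ := hun
  have hJS : J ψ S u = -1 := by
    unfold J
    rw [← mul_prod_erase _ _ hqS, hu1, prod_eq_one, mul_one]
    intro p hp
    exact hu2 p (mem_erase.2 ⟨(mem_erase.1 hp).1, mem_union_left _ (mem_erase.1 hp).2⟩)
  have hJT : J ψ T u = 1 := by
    unfold J
    refine prod_eq_one fun p hp => hu2 p (mem_erase.2 ⟨fun e => hqT (e ▸ hp), mem_union_right _ hp⟩)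
  have hm : gS g S * gS g T ≠ 0 := by
    intro h0
    have h1 : nE (gS g S * gS g T) = nm S * nm T := by rw [nE_mul, nE_gS h, nE_gS h]
    rw [h0, nE_eq_zero.2 rfl] at h1
    have h2 := one_le_nm S
    have h3 := one_le_nm T
    have h4 : 0 < nm S * nm T := by positivity
    omega
  have hb := sum_boxE (gS g S * gS g T) hm (fun z => J ψ S z * J ψ T z)
    (fun z => by
      rw [abs_mul]
      exact mul_le_one₀ (J_abs h S z) (abs_nonneg _) (J_abs h T z))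
    (fun z w' => by
      congr 1
      · unfold J
        exact prod_congr rfl fun p hp => ψ_per' h p _ _ _ (Dvd.dvd.mul_right (dvd_prod_of_mem g hp) _)
      · unfold J
        exact prod_congr rfl fun p hp => ψ_per' h p _ _ _ (Dvd.dvd.mul_left (dvd_prod_of_mem g hp) _))
    u v (-w) (by linear_combination hvw)
    (fun z => by
      rw [J_mul h, J_mul h, hJS, hJT]
      ring) x y L
  rw [nE_mul, nE_gS h, nE_gS h] at hb
  exact hb

theorem offdiag (h : Sy D g ψ) (S T : Finset ι) (hST : S ≠ T) (x y : ℤ)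
    (L : ℕ) : |∑ z ∈ boxE R x y L, J ψ S z * J ψ T z| ≤ 4 * Nat.sqrt (nm S * nm T) * L := by
  have : (∃ q, q ∈ S ∧ q ∉ T) ∨ (∃ q, q ∈ T ∧ q ∉ S) := by
    by_contra hcon
    push Not at hcon
    exact hST (Subset.antisymm (fun q hq => hcon.1 q hq) fun q hq => hcon.2 q hq)
  rcases this with ⟨q, h1, h2⟩ | ⟨q, h1, h2⟩
  · exact offdiag_aux h S T q h1 h2 x y L
  · have e := offdiag_aux h T S q h1 h2 x y L
    rw [mul_comm (nm T)] at e
    simpa only [mul_comm] using e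

/-! ### The fourth moment -/

/-- the product of a quadruple -/
def g4 (g : ι → R) (q : (Finset ι × Finset ι) × (Finset ι × Finset ι)) : R :=
  gS g q.1.1 * gS g q.1.2 * (gS g q.2.1 * gS g q.2.2)

theorem nE_g4 (h : Sy D g ψ) (q : (Finset ι × Finset ι) × (Finset ι × Finset ι)) :
    nE (g4 g q) = nm4 q := by
  unfold g4 nm4
  simp only [nE_mul, nE_gS h]

/-- the box which contains all products of quadruples -/
noncomputable def bx (R : Type) [CommRing R] [Eis R] (M : ℕ) : Finset R :=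
  boxE R (-(2 * (M : ℤ) ^ 2)) (-(2 * (M : ℤ) ^ 2)) (4 * M ^ 2 + 1)

theorem mem_bx {M : ℕ} {z : R} (hz : nE z ≤ M ^ 4) : z ∈ bx R M := by
  have key : ∀ a : ℤ, 3 * a ^ 2 ≤ 4 * nf (Eis.co z) → -(2 * (M : ℤ) ^ 2) ≤ a ∧ a ≤ 2 * (M : ℤ) ^ 2 := by
    intro a ha
    have h1 : nf (Eis.co z) ≤ (M : ℤ) ^ 4 := by
      rw [← nE_cast]
      exact_mod_cast hz
    have h2 : a ^ 2 ≤ (2 * (M : ℤ) ^ 2) ^ 2 := by nlinarith [sq_nonneg a]
    exact abs_le.1 (abs_le_of_sq_le_sq h2 (by positivity))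
  have k1 := key _ (nf_fst (Eis.co z))
  have k2 := key _ (nf_snd (Eis.co z))
  rw [bx, mem_boxE]
  push_cast
  omega

/-- the coefficients -/
noncomputable def cQ (g : ι → R) (A : Finset ι → ℝ) (M : ℕ) [DecidableEq R] (k : R) : ℝ :=
  ∑ q ∈ Q4 ι M with g4 g q = k, A q.1.1 * A q.1.2 * (A q.2.1 * A q.2.2)

theorem S4_eq (h : Sy D g ψ) [DecidableEq R] (A : Finset ι → ℝ) (M : ℕ) (T : Finset ι) :
    (∑ S ∈ Sx ι M, A S * J ψ T (gS g S)) ^ 4 = ∑ k ∈ bx R M, cQ g A M k * J ψ T k := by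
  have e1 : (∑ S ∈ Sx ι M, A S * J ψ T (gS g S)) ^ 4 =
      ∑ q ∈ Q4 ι M, A q.1.1 * A q.1.2 * (A q.2.1 * A q.2.2) * J ψ T (g4 g q) := by
    have h2 : (∑ S ∈ Sx ι M, A S * J ψ T (gS g S)) ^ 2 =
        ∑ q ∈ Sx ι M ×ˢ Sx ι M, (A q.1 * A q.2) * (J ψ T (gS g q.1) * J ψ T (gS g q.2)) := by
      rw [sq, sum_mul_sum, sum_product]
      refine sum_congr rfl fun a _ => sum_congr rfl fun b _ => ?_
      ring
    have h4 : (∑ S ∈ Sx ι M, A S * J ψ T (gS g S)) ^ 4 =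
        ((∑ S ∈ Sx ι M, A S * J ψ T (gS g S)) ^ 2) * ((∑ S ∈ Sx ι M, A S * J ψ T (gS g S)) ^ 2) := by
      ring
    rw [h4, h2, sum_mul_sum, Q4, sum_product (s := Sx ι M ×ˢ Sx ι M) (t := Sx ι M ×ˢ Sx ι M)]
    refine sum_congr rfl fun a _ => sum_congr rfl fun b _ => ?_
    unfold g4
    rw [J_mul h, J_mul h, J_mul h]
    ring
  rw [e1, ← sum_fiberwise_of_maps_to (s := Q4 ι M) (t := bx R M) (g := g4 g)
    (fun q hq => mem_bx (by rw [nE_g4 h]; exact (mem_Icc.1 (nm4_mem hq)).2))]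
  refine sum_congr rfl fun k _ => ?_
  unfold cQ
  rw [sum_mul]
  refine sum_congr rfl fun q hq => ?_
  rw [(mem_filter.1 hq).2]

theorem sum_cQ_le (h : Sy D g ψ) [DecidableEq R] (A : Finset ι → ℝ) (hA : ∀ S, |A S| ≤ 1) (M : ℕ)
    (hM : 1 ≤ M) :
    ∑ k ∈ bx R M, (cQ g A M k) ^ 2 ≤ (M : ℝ) ^ 4 * (1 + 4 * Real.log M) ^ (2 ^ 14 - 1) := by
  refine le_trans ?_ (sum_Q4_le h.fib M hM)
  rw [← sum_fiberwise_of_maps_to (s := Q4 ι M) (t := bx R M) (g := g4 g)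
    (fun q hq => mem_bx (by rw [nE_g4 h]; exact (mem_Icc.1 (nm4_mem hq)).2))]
  refine sum_le_sum fun k _ => ?_
  set r : ℝ := (((Q4 ι M).filter fun q => g4 g q = k).card : ℝ) with hr
  have h1 : |cQ g A M k| ≤ r := by
    unfold cQ
    refine (abs_sum_le_sum_abs _ _).trans ?_
    refine (sum_le_card_nsmul _ _ 1 ?_).trans ?_
    · intro q _
      rw [abs_mul, abs_mul, abs_mul]
      have h12 : |A q.1.1| * |A q.1.2| ≤ 1 := mul_le_one₀ (hA _) (abs_nonneg _) (hA _)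
      have h34 : |A q.2.1| * |A q.2.2| ≤ 1 := mul_le_one₀ (hA _) (abs_nonneg _) (hA _)
      exact mul_le_one₀ h12 (by positivity) h34
    · rw [nsmul_eq_mul, mul_one]
  have hr0 : 0 ≤ r := Nat.cast_nonneg _
  have h2 : (cQ g A M k) ^ 2 ≤ r * r := by
    rw [← sq_abs, ← sq]
    exact pow_le_pow_left₀ (abs_nonneg _) h1 2
  refine h2.trans ?_
  have e : ∑ q ∈ Q4 ι M with g4 g q = k, ((nm4 q).divisors.card : ℝ) ^ 7 =
      r * ((nE k).divisors.card : ℝ) ^ 7 := by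
    rw [hr, ← nsmul_eq_mul, ← sum_const]
    refine sum_congr rfl fun q hq => ?_
    rw [← nE_g4 h, (mem_filter.1 hq).2]
  rw [e]
  rcases ((Q4 ι M).filter fun q => g4 g q = k).eq_empty_or_nonempty with h3 | ⟨q0, hq0⟩
  · have : r = 0 := by rw [hr, h3]; simp
    rw [this, zero_mul, zero_mul]
  · have hk0 : nE k ≠ 0 := by
      rw [mem_filter] at hq0
      rw [← hq0.2, nE_g4 h]
      have := (mem_Icc.1 (nm4_mem hq0.1)).1
      omega
    have h4 : r ≤ ((nE k).divisors.card : ℝ) ^ 7 := by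
      have h5 := card_Q4_le h.fib M (nE k) hk0
      have h6 : ((Q4 ι M).filter fun q => g4 g q = k).card ≤
          ((Q4 ι M).filter fun q => nm4 q = nE k).card := by
        refine card_le_card fun q hq => ?_
        rw [mem_filter] at hq ⊢
        exact ⟨hq.1, by rw [← nE_g4 h, hq.2]⟩
      rw [hr]
      exact_mod_cast h6.trans h5
    exact mul_le_mul_of_nonneg_left h4 hr0

theorem sum_T_le (h : Sy D g ψ) (M N : ℕ) (hN : 1 ≤ N) (hNM : N ≤ M) :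
    ∑ k ∈ bx R M, (∑ T ∈ Sx ι N, J ψ T k) ^ 2 ≤
      45 * (1 + Real.log N) ^ 2 * N * (M : ℝ) ^ 4 := by
  classical
  have hNr : (1 : ℝ) ≤ N := by exact_mod_cast hN
  have hNMr : (N : ℝ) ≤ M := by exact_mod_cast hNM
  have hMr : (1 : ℝ) ≤ M := hNr.trans hNMr
  have hlog : 0 ≤ Real.log N := Real.log_nonneg hNr
  obtain ⟨l, hl⟩ : ∃ l : ℝ, l = 1 + Real.log N := ⟨_, rfl⟩
  have hl1 : 1 ≤ l := by rw [hl]; linarith
  have hcard : ((Sx ι N).card : ℝ) ≤ N * l := by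
    rw [hl]
    exact card_Sx_le h.fib N hN
  rw [← hl]
  have h1 : ∑ k ∈ bx R M, (∑ T ∈ Sx ι N, J ψ T k) ^ 2 =
      ∑ S ∈ Sx ι N, ∑ T ∈ Sx ι N, ∑ k ∈ bx R M, J ψ S k * J ψ T k := by
    have : ∀ k ∈ bx R M, (∑ T ∈ Sx ι N, J ψ T k) ^ 2 =
        ∑ S ∈ Sx ι N, ∑ T ∈ Sx ι N, J ψ S k * J ψ T k := by
      intro k _
      rw [sq, sum_mul_sum]
    rw [sum_congr rfl this, sum_comm]
    refine sum_congr rfl fun a _ => ?_
    rw [sum_comm]
  rw [h1]
  have hL : ((4 * M ^ 2 + 1 : ℕ) : ℝ) ≤ 5 * (M : ℝ) ^ 2 := by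
    push_cast
    nlinarith
  have h2 : ∀ S ∈ Sx ι N, ∀ T ∈ Sx ι N, ∑ k ∈ bx R M, J ψ S k * J ψ T k ≤
      (if S = T then 25 * (M : ℝ) ^ 4 else 0) + 20 * N * (M : ℝ) ^ 2 := by
    intro S hS T hT
    rw [mem_Sx] at hS hT
    by_cases hST : S = T
    · rw [if_pos hST]
      have e1 : ∑ k ∈ bx R M, J ψ S k * J ψ T k ≤ ∑ k ∈ bx R M, (1 : ℝ) := by
        refine sum_le_sum fun k _ => ?_
        refine (le_abs_self _).trans ?_
        rw [abs_mul]
        exact mul_le_one₀ (J_abs h _ _) (abs_nonneg _) (J_abs h _ _)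
      refine e1.trans ?_
      rw [sum_const, nsmul_eq_mul, mul_one, bx, card_boxE, Nat.cast_mul]
      have h3 : ((4 * M ^ 2 + 1 : ℕ) : ℝ) * ((4 * M ^ 2 + 1 : ℕ) : ℝ) ≤
          (5 * (M : ℝ) ^ 2) * (5 * (M : ℝ) ^ 2) := mul_le_mul hL hL (Nat.cast_nonneg _) (by positivity)
      have h4 : 0 ≤ 20 * (N : ℝ) * (M : ℝ) ^ 2 := by positivity
      nlinarith
    · rw [if_neg hST, zero_add]
      refine (le_abs_self _).trans ((offdiag h S T hST _ _ _).trans ?_)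
      have h3 : Nat.sqrt (nm S * nm T) ≤ N := by
        calc Nat.sqrt (nm S * nm T) ≤ Nat.sqrt (N * N) := Nat.sqrt_le_sqrt (Nat.mul_le_mul hS hT)
          _ = N := Nat.sqrt_eq N
      have h4 : ((Nat.sqrt (nm S * nm T) : ℕ) : ℝ) ≤ N := by exact_mod_cast h3
      calc (4 : ℝ) * (Nat.sqrt (nm S * nm T) : ℕ) * ((4 * M ^ 2 + 1 : ℕ) : ℝ)
          ≤ 4 * N * (5 * (M : ℝ) ^ 2) := by gcongr
        _ = 20 * N * (M : ℝ) ^ 2 := by ring
  refine (sum_le_sum fun S hS => sum_le_sum fun T hT => h2 S hS T hT).trans ?_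
  have h3 : ∀ S ∈ Sx ι N, ∑ T ∈ Sx ι N, ((if S = T then 25 * (M : ℝ) ^ 4 else 0) +
      20 * N * (M : ℝ) ^ 2) ≤ 45 * (M : ℝ) ^ 4 * l := by
    intro S hS
    rw [sum_add_distrib, sum_ite_eq, if_pos hS, sum_const, nsmul_eq_mul]
    have h4 : ((Sx ι N).card : ℝ) * (20 * N * (M : ℝ) ^ 2) ≤ N * l * (20 * N * (M : ℝ) ^ 2) :=
      mul_le_mul_of_nonneg_right hcard (by positivity)
    have h5 : (N : ℝ) * N ≤ (M : ℝ) ^ 2 := by nlinarith
    have h6 : N * l * (20 * N * (M : ℝ) ^ 2) ≤ 20 * l * (M : ℝ) ^ 4 := by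
      calc N * l * (20 * N * (M : ℝ) ^ 2) = 20 * l * (M : ℝ) ^ 2 * (N * N) := by ring
        _ ≤ 20 * l * (M : ℝ) ^ 2 * (M : ℝ) ^ 2 := mul_le_mul_of_nonneg_left h5 (by positivity)
        _ = 20 * l * (M : ℝ) ^ 4 := by ring
    have h7 : 25 * (M : ℝ) ^ 4 ≤ 25 * (M : ℝ) ^ 4 * l := le_mul_of_one_le_right (by positivity) hl1
    linarith
  refine (sum_le_sum h3).trans ?_
  rw [sum_const, nsmul_eq_mul]
  calc ((Sx ι N).card : ℝ) * (45 * (M : ℝ) ^ 4 * l) ≤ (N * l) * (45 * (M : ℝ) ^ 4 * l) :=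
        mul_le_mul_of_nonneg_right hcard (by positivity)
    _ = 45 * l ^ 2 * N * (M : ℝ) ^ 4 := by ring

theorem bl_core0 (h : Sy D g ψ) (A B : Finset ι → ℝ) (M N : ℕ) (hA : ∀ S, |A S| ≤ 1)
    (hB : ∀ T, |B T| ≤ 1) (hN : 1 ≤ N) (hNM : N ≤ M) :
    |∑ S ∈ Sx ι M, ∑ T ∈ Sx ι N, A S * B T * J ψ T (gS g S)| ≤
      2 * M * (N : ℝ) ^ (7 / 8 : ℝ) * (1 + 4 * Real.log M) ^ (2 ^ 11 + 1) := by
  classical
  have hNr : (1 : ℝ) ≤ N := by exact_mod_cast hN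
  have hNMr : (N : ℝ) ≤ M := by exact_mod_cast hNM
  have hM1 : (1 : ℝ) ≤ M := hNr.trans hNMr
  have hlog : 0 ≤ Real.log M := Real.log_nonneg hM1
  have hlogN : 0 ≤ Real.log N := Real.log_nonneg hNr
  have hlogNM : Real.log N ≤ Real.log M := Real.log_le_log (by linarith) hNMr
  obtain ⟨L, hLd⟩ : ∃ L : ℝ, L = 1 + 4 * Real.log M := ⟨_, rfl⟩
  have hL0 : 1 ≤ L := by rw [hLd]; linarith
  have hlL : 1 + Real.log N ≤ L := by rw [hLd]; linarith
  set S4 : Finset ι → ℝ := fun T => ∑ S ∈ Sx ι M, A S * J ψ T (gS g S) with hS4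
  have h1 : ∑ S ∈ Sx ι M, ∑ T ∈ Sx ι N, A S * B T * J ψ T (gS g S) =
      ∑ T ∈ Sx ι N, B T * S4 T := by
    rw [sum_comm]
    refine sum_congr rfl fun n _ => ?_
    rw [hS4, mul_sum]
    refine sum_congr rfl fun m _ => ?_
    ring
  have h2 : |∑ S ∈ Sx ι M, ∑ T ∈ Sx ι N, A S * B T * J ψ T (gS g S)| ≤
      ∑ T ∈ Sx ι N, |S4 T| := by
    rw [h1]
    refine (abs_sum_le_sum_abs _ _).trans (sum_le_sum fun T _ => ?_)
    rw [abs_mul]
    exact mul_le_of_le_one_left (abs_nonneg _) (hB T)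
  set W : ℝ := ∑ T ∈ Sx ι N, |S4 T| with hW
  have hW0 : 0 ≤ W := sum_nonneg fun _ _ => abs_nonneg _
  have hcard : ((Sx ι N).card : ℝ) ≤ N * L :=
    (card_Sx_le h.fib N hN).trans (mul_le_mul_of_nonneg_left hlL (by positivity))
  set Q : ℝ := ∑ T ∈ Sx ι N, (S4 T) ^ 4 with hQ
  have hQ0 : 0 ≤ Q := sum_nonneg fun n _ => by positivity
  have hfour : Q ^ 2 ≤ ((M : ℝ) ^ 4 * L ^ (2 ^ 14 - 1)) * (45 * L ^ 2 * N * (M : ℝ) ^ 4) := by
    have e1 : Q = ∑ k ∈ bx R M, cQ g A M k * ∑ T ∈ Sx ι N, J ψ T k := by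
      rw [hQ, sum_congr rfl fun T _ => S4_eq h A M T, sum_comm]
      refine sum_congr rfl fun k _ => ?_
      rw [mul_sum]
    rw [e1]
    refine (sum_mul_sq_le_sq_mul_sq _ _ _).trans ?_
    have e2 := sum_cQ_le h A hA M (by omega)
    have e3 := sum_T_le h M N hN hNM
    rw [← hLd] at e2
    have e4 : 45 * (1 + Real.log N) ^ 2 * N * (M : ℝ) ^ 4 ≤ 45 * L ^ 2 * N * (M : ℝ) ^ 4 := by
      gcongr
    exact mul_le_mul e2 (e3.trans e4) (sum_nonneg fun _ _ => sq_nonneg _) (by positivity)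
  have h3 : W ^ 4 ≤ (N * L) ^ 3 * Q := by
    have e1 : W ^ 2 ≤ (N * L) * ∑ n ∈ Sx ι N, |S4 n| ^ 2 :=
      (sq_sum_le_card_mul_sum_sq).trans
        (mul_le_mul_of_nonneg_right hcard (sum_nonneg fun _ _ => sq_nonneg _))
    have e2 : (∑ n ∈ Sx ι N, |S4 n| ^ 2) ^ 2 ≤ (N * L) * Q := by
      refine (sq_sum_le_card_mul_sum_sq).trans ?_
      have e3 : ∑ n ∈ Sx ι N, (|S4 n| ^ 2) ^ 2 = Q := by
        refine sum_congr rfl fun n _ => ?_
        rw [sq_abs]; ring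
      rw [e3]
      exact mul_le_mul_of_nonneg_right hcard hQ0
    calc W ^ 4 = (W ^ 2) ^ 2 := by ring
      _ ≤ ((N * L) * ∑ n ∈ Sx ι N, |S4 n| ^ 2) ^ 2 := pow_le_pow_left₀ (sq_nonneg _) e1 2
      _ = (N * L) ^ 2 * (∑ n ∈ Sx ι N, |S4 n| ^ 2) ^ 2 := by ring
      _ ≤ (N * L) ^ 2 * ((N * L) * Q) := mul_le_mul_of_nonneg_left e2 (by positivity)
      _ = (N * L) ^ 3 * Q := by ring
  have h4 : W ^ 8 ≤ 45 * (N : ℝ) ^ 7 * (M : ℝ) ^ 8 * (L ^ (2 ^ 14 - 1) * L ^ 8) := by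
    calc W ^ 8 = (W ^ 4) ^ 2 := by ring
      _ ≤ ((N * L) ^ 3 * Q) ^ 2 := pow_le_pow_left₀ (by positivity) h3 2
      _ = (N * L) ^ 6 * Q ^ 2 := by ring
      _ ≤ (N * L) ^ 6 * (((M : ℝ) ^ 4 * L ^ (2 ^ 14 - 1)) * (45 * L ^ 2 * N * (M : ℝ) ^ 4)) :=
          mul_le_mul_of_nonneg_left hfour (by positivity)
      _ = _ := by
          generalize L ^ (2 ^ 14 - 1) = Y
          ring
  have h5 : (2 * M * (N : ℝ) ^ (7 / 8 : ℝ) * L ^ (2 ^ 11 + 1)) ^ 8 =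
      256 * (N : ℝ) ^ 7 * (M : ℝ) ^ 8 * (L ^ (2 ^ 11 + 1)) ^ 8 := by
    have e : ((N : ℝ) ^ (7 / 8 : ℝ)) ^ 8 = (N : ℝ) ^ 7 := by
      rw [← Real.rpow_natCast, ← Real.rpow_mul (by positivity)]
      norm_num
    generalize L ^ (2 ^ 11 + 1) = Y
    rw [mul_pow, mul_pow, mul_pow, e]
    ring
  have h6 : W ≤ 2 * M * (N : ℝ) ^ (7 / 8 : ℝ) * L ^ (2 ^ 11 + 1) := by
    refine le_of_pow_le_pow_left₀ (n := 8) (by norm_num) (by positivity) ?_
    rw [h5]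
    refine h4.trans ?_
    have e63 : L ^ (2 ^ 14 - 1) * L ^ 8 ≤ (L ^ (2 ^ 11 + 1)) ^ 8 := by
      rw [← pow_add, ← pow_mul]
      exact pow_le_pow_right₀ hL0 (by norm_num)
    have e64 : 45 * (N : ℝ) ^ 7 * (M : ℝ) ^ 8 * (L ^ (2 ^ 14 - 1) * L ^ 8) ≤
        45 * (N : ℝ) ^ 7 * (M : ℝ) ^ 8 * (L ^ (2 ^ 11 + 1)) ^ 8 :=
      mul_le_mul_of_nonneg_left e63 (by positivity)
    refine e64.trans ?_
    have hnn : 0 ≤ (N : ℝ) ^ 7 * (M : ℝ) ^ 8 * (L ^ (2 ^ 11 + 1)) ^ 8 := by positivity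
    generalize L ^ (2 ^ 11 + 1) = Y at hnn ⊢
    nlinarith
  rw [← hLd]
  exact h2.trans h6

/-- the exponent of the logarithm -/
def kbl : ℕ := 2 ^ 11 + 1

/-- The bilinear bound for `N ≤ M`. -/
theorem bl_core (h : Sy D g ψ) (A B : Finset ι → ℝ) (M N : ℕ) (hA : ∀ S, |A S| ≤ 1)
    (hB : ∀ T, |B T| ≤ 1) (hN : 1 ≤ N) (hNM : N ≤ M) :
    |∑ S ∈ Sx ι M, ∑ T ∈ Sx ι N, A S * B T * J ψ T (gS g S)| ≤
      2 * M * (N : ℝ) ^ (7 / 8 : ℝ) * (1 + 4 * Real.log M) ^ kbl :=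
  bl_core0 h A B M N hA hB hN hNM

end

end Pool.Agent.Lib.MP_1a91b9_ntH.B
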