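import Pool.Agent.Lib.MP_1a91b9_ntH.R.BCore

/-!
# MP_1a91b9_nt (TwistDensity), R9: the symmetric bilinear bound
-/

set_option autoImplicit false
set_option linter.unusedSectionVars false

namespace Pool.Agent.Lib.MP_1a91b9_ntH.B

open Finset

section

variable {ι : Type} [DecidableEq ι] [PS ι] {D : Dat ι} {R : Type} [CommRing R] [Eis R]
  {g : ι → R} {ψ : ι → R → ℝ}

theorem tr_add (x y : F4) : F4.tr (x + y) = F4.tr x + F4.tr y := rfl

theorem tr_sum {α : Type} (s : Finset α) (f : α → F4) : F4.tr (∑ i ∈ s, f i) = ∑ i ∈ s, F4.tr (f i) := by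
  classical
  induction s using Finset.induction_on with
  | empty => rfl
  | insert a s ha ih => rw [sum_insert ha, sum_insert ha, tr_add, ih]

theorem ss_rec (hr : D.Rec) {S T : Finset ι} (hd : Disjoint S T) :
    D.ss S T + D.ss T S = F4.tr (D.A S * D.A T) := by
  unfold Dat.ss Dat.A
  rw [sum_comm (s := T), ← sum_add_distrib, sum_mul_sum, tr_sum]
  refine sum_congr rfl fun q hq => ?_
  rw [← sum_add_distrib, tr_sum]
  refine sum_congr rfl fun p hp => ?_
  exact hr q p fun e => disjoint_left.1 hd hq (e ▸ hp)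

theorem sg_mul_self (x : ZMod 2) : sg x * sg x = 1 := by
  unfold sg
  split_ifs <;> norm_num

theorem sg_abs (x : ZMod 2) : |sg x| = 1 := by
  unfold sg
  split_ifs <;> norm_num

theorem J_rec (h : Sy D g ψ) (S T : Finset ι) :
    J ψ T (gS g S) = sg (F4.tr (D.A S * D.A T)) * J ψ S (gS g T) := by
  by_cases hd : Disjoint S T
  · rw [J_disj h hd, J_disj h hd.symm, ← ss_rec h.rec_ hd, sg_add, mul_assoc, sg_mul_self, mul_one]
  · rw [J_not_disj h hd, J_not_disj h fun e => hd e.symm, mul_zero]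

/-- The symmetric bilinear bound. -/
theorem bl_sym (h : Sy D g ψ) (A B : Finset ι → ℝ) (M N : ℕ) (hA : ∀ S, |A S| ≤ 1)
    (hB : ∀ T, |B T| ≤ 1) (hM : 1 ≤ M) (hN : 1 ≤ N) :
    |∑ S ∈ Sx ι M, ∑ T ∈ Sx ι N, A S * B T * J ψ T (gS g S)| ≤
      32 * M * N * ((min M N : ℕ) : ℝ) ^ (-(1 / 8) : ℝ) *
        (1 + 4 * Real.log (max M N : ℕ)) ^ kbl := by
  classical
  have rp : ∀ n : ℕ, 1 ≤ n → (n : ℝ) ^ (7 / 8 : ℝ) = n * (n : ℝ) ^ (-(1 / 8) : ℝ) := by
    intro n hn
    have hn0 : (0 : ℝ) < n := by exact_mod_cast hn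
    rw [show (7 / 8 : ℝ) = 1 + -(1 / 8) by norm_num, Real.rpow_add hn0, Real.rpow_one]
  rcases le_or_gt N M with hNM | hNM
  · rw [min_eq_right hNM, max_eq_left hNM]
    refine (bl_core h A B M N hA hB hN hNM).trans ?_
    rw [rp N hN]
    have hM1 : (1 : ℝ) ≤ M := by exact_mod_cast hM
    have hlog : 0 ≤ Real.log M := Real.log_nonneg hM1
    have h1 : (0 : ℝ) ≤ M * (N * (N : ℝ) ^ (-(1 / 8) : ℝ)) * (1 + 4 * Real.log M) ^ kbl := by
      positivity
    generalize (1 + 4 * Real.log M) ^ kbl = Y at h1 ⊢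
    nlinarith
  · rw [min_eq_left hNM.le, max_eq_right hNM.le]
    have hN1 : (1 : ℝ) ≤ N := by exact_mod_cast hN
    have hlog : 0 ≤ Real.log N := Real.log_nonneg hN1
    obtain ⟨Y, hY⟩ : ∃ Y : ℝ, Y = 2 * N * (M : ℝ) ^ (7 / 8 : ℝ) *
        (1 + 4 * Real.log N) ^ kbl := ⟨_, rfl⟩
    have hpart : ∀ c d : F4, |∑ T ∈ Sx ι N, ∑ S ∈ Sx ι M, (if D.A T = d then B T else 0) *
        (if D.A S = c then A S else 0) * J ψ S (gS g T)| ≤ Y := by
      intro c d
      rw [hY]
      refine bl_core h (fun T => if D.A T = d then B T else 0) (fun S => if D.A S = c then A S else 0)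
        N M ?_ ?_ hM hNM.le
      · intro T
        split_ifs
        · exact hB T
        · simp
      · intro S
        split_ifs
        · exact hA S
        · simp
    have e : ∑ S ∈ Sx ι M, ∑ T ∈ Sx ι N, A S * B T * J ψ T (gS g S) =
        ∑ c : F4, ∑ d : F4, sg (F4.tr (c * d)) * ∑ T ∈ Sx ι N, ∑ S ∈ Sx ι M,
          (if D.A T = d then B T else 0) * (if D.A S = c then A S else 0) * J ψ S (gS g T) := by
      have e1 : ∀ S T : Finset ι, A S * B T * J ψ T (gS g S) =
          ∑ c : F4, ∑ d : F4, sg (F4.tr (c * d)) * ((if D.A T = d then B T else 0) *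
            (if D.A S = c then A S else 0) * J ψ S (gS g T)) := by
        intro S T
        rw [sum_eq_single (D.A S), sum_eq_single (D.A T), if_pos rfl, if_pos rfl, J_rec h]
        · ring
        · intro d _ hd
          rw [if_neg (Ne.symm hd)]
          ring
        · intro hc
          exact absurd (mem_univ _) hc
        · intro c _ hc
          refine sum_eq_zero fun d _ => ?_
          rw [if_neg (Ne.symm hc)]
          ring
        · intro hc
          exact absurd (mem_univ _) hc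
      rw [sum_congr rfl fun S _ => sum_congr rfl fun T _ => e1 S T]
      rw [sum_comm]
      rw [sum_congr rfl fun T _ => sum_comm]
      rw [sum_comm]
      refine sum_congr rfl fun c _ => ?_
      rw [sum_congr rfl fun T _ => sum_comm]
      rw [sum_comm]
      refine sum_congr rfl fun d _ => ?_
      rw [mul_sum]
      refine sum_congr rfl fun T _ => ?_
      rw [mul_sum]
    rw [e]
    have h16 : |∑ c : F4, ∑ d : F4, sg (F4.tr (c * d)) * ∑ T ∈ Sx ι N, ∑ S ∈ Sx ι M,
          (if D.A T = d then B T else 0) * (if D.A S = c then A S else 0) * J ψ S (gS g T)| ≤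
        16 * Y := by
      have hc4 : (univ : Finset F4).card = 4 := F4.card_F4
      have h1 : ∀ c d : F4, |sg (F4.tr (c * d)) * ∑ T ∈ Sx ι N, ∑ S ∈ Sx ι M,
          (if D.A T = d then B T else 0) * (if D.A S = c then A S else 0) * J ψ S (gS g T)| ≤ Y := by
        intro c d
        rw [abs_mul, sg_abs, one_mul]
        exact hpart c d
      refine (abs_sum_le_sum_abs _ _).trans ?_
      refine (sum_le_card_nsmul _ _ (4 * Y) fun c _ => ?_).trans (le_of_eq ?_)
      · refine (abs_sum_le_sum_abs _ _).trans ?_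
        refine (sum_le_card_nsmul _ _ Y fun d _ => h1 c d).trans (le_of_eq ?_)
        rw [hc4, nsmul_eq_mul]
        norm_num
      · rw [hc4, nsmul_eq_mul]
        ring
    refine h16.trans (le_of_eq ?_)
    rw [hY, rp M hM]
    generalize (1 + 4 * Real.log (N : ℝ)) ^ kbl = Z
    ring

end

end Pool.Agent.Lib.MP_1a91b9_ntH.B
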