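import Pool.Agent.Lib.MP_1a91b9_ntH.R.Sym

/-!
# MP_1a91b9_nt (TwistDensity), leaf L2: the primes of `ℤ[w]` which are odd with even
`w`-coordinate
-/

set_option autoImplicit false

namespace Pool.Agent.Lib.MP_1a91b9_ntH.R

open ZMod NumberTheorySymbols

variable {O : Type*} [CommRing O] {w : O}

/-- A prime divides a rational prime. -/
theorem exists_rat_prime (h : IsEis O w) {c d : ℤ} (hβ : Prime ((c : O) + (d : O) * w)) :
    ∃ p : ℕ, p.Prime ∧ ((c : O) + (d : O) * w) ∣ ((p : ℤ) : O) := by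
  obtain ⟨N, hN⟩ : ∃ N : ℕ, (N : ℤ) = nm c d := ⟨(nm c d).toNat, Int.toNat_of_nonneg (nm_nonneg c d)⟩
  have h1 : ((c : O) + (d : O) * w) ∣ ((N : ℕ) : O) := by
    have h2 := h.mul_conj c d
    rw [← hN] at h2
    exact ⟨_, by rw [h2]; push_cast; rfl⟩
  have hN0 : N ≠ 0 := by
    rintro rfl
    have h3 : nm c d = 0 := by rw [← hN]; rfl
    obtain ⟨rfl, rfl⟩ := nm_eq_zero h3
    exact hβ.ne_zero (by simp)
  have h4 : ((N : ℕ) : O) = (N.primeFactorsList.map (fun p : ℕ => (p : O))).prod := by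
    rw [← Nat.cast_list_prod, Nat.prod_primeFactorsList hN0]
  rw [h4, hβ.dvd_prod_iff] at h1
  obtain ⟨a, ha, hd⟩ := h1
  rw [List.mem_map] at ha
  obtain ⟨p, hp, rfl⟩ := ha
  exact ⟨p, Nat.prime_of_mem_primeFactorsList hp, by push_cast; exact hd⟩

/-- An odd prime with even `w`-coordinate has prime norm or is, up to sign, a rational prime
congruent to `2` modulo `3`. -/
theorem prime_cases (h : IsEis O w) {c d : ℤ} (hβ : Prime ((c : O) + (d : O) * w))
    (hc : c % 2 = 1) (hd : d % 2 = 0) :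
    (∃ p : ℕ, p.Prime ∧ nm c d = p ∧ p % 2 = 1) ∨
      (∃ q : ℕ, q.Prime ∧ q % 2 = 1 ∧ q % 3 = 2 ∧ (c = q ∨ c = -q) ∧ d = 0) := by
  have hNodd : nm c d % 2 = 1 := by
    obtain ⟨e, rfl⟩ : ∃ e, d = 2 * e := ⟨d / 2, by omega⟩
    have h1 : nm c (2 * e) = c * c + 2 * (-(c * e) + 2 * e ^ 2) := by unfold nm; ring
    have h2 : (c * c) % 2 = 1 := by rw [Int.mul_emod, hc]; norm_num
    omega
  obtain ⟨p, hp, t, ht⟩ := exists_rat_prime h hβ
  obtain ⟨e, f, rfl⟩ := h.span t
  rw [h.mul_eq] at ht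
  have ht' : ((p : ℤ) : O) + ((0 : ℤ) : O) * w =
      ((c * e - d * f : ℤ) : O) + ((c * f + d * e - d * f : ℤ) : O) * w := by
    rw [← ht]; simp
  obtain ⟨e1, e2⟩ := h.eq_iff.1 ht'
  have hnm : nm c d * nm e f = (p : ℤ) ^ 2 := by
    rw [← nm_mul, ← e1, ← e2]
    unfold nm; ring
  obtain ⟨N, hN⟩ : ∃ N : ℕ, (N : ℤ) = nm c d := ⟨(nm c d).toNat, Int.toNat_of_nonneg (nm_nonneg c d)⟩
  obtain ⟨M, hM⟩ : ∃ M : ℕ, (M : ℤ) = nm e f := ⟨(nm e f).toNat, Int.toNat_of_nonneg (nm_nonneg e f)⟩
  rw [← hN, ← hM] at hnm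
  have hnm' : N * M = p ^ 2 := by exact_mod_cast hnm
  have hNd : N ∣ p ^ 2 := ⟨M, hnm'.symm⟩
  rw [Nat.dvd_prime_pow hp] at hNd
  obtain ⟨i, hi, hNi⟩ := hNd
  have hi3 : i = 0 ∨ i = 1 ∨ i = 2 := by omega
  rcases hi3 with rfl | rfl | rfl
  · exfalso
    apply hβ.not_unit
    rw [h.isUnit_iff, ← hN, hNi]
    simp
  · left
    rw [pow_one] at hNi
    subst hNi
    exact ⟨N, hp, hN.symm, by omega⟩
  · right
    have hM1 : M = 1 := by
      rw [hNi] at hnm'
      have h0 : 0 < p ^ 2 := pow_pos hp.pos 2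
      exact Nat.eq_of_mul_eq_mul_left h0 (by rw [hnm', mul_one])
    rw [hM1] at hM
    -- `β = p (ē)`
    have hc' : c = p * (e - f) := by
      have h1 : nm e f = 1 := by rw [← hM]; rfl
      unfold nm at h1
      linear_combination (-c) * h1 - (e - f) * e1 - f * e2
    have hd' : d = -(p * f) := by
      have h1 : nm e f = 1 := by rw [← hM]; rfl
      unfold nm at h1
      linear_combination (-d) * h1 + f * e1 - e * e2
    have hpodd : p % 2 = 1 := by
      rcases Nat.mod_two_eq_zero_or_one p with h0 | h0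
      · exfalso
        obtain ⟨r, hr⟩ : ∃ r, p = 2 * r := ⟨p / 2, by omega⟩
        rw [hr] at hc'
        push_cast at hc'
        have : c = 2 * (r * (e - f)) := by rw [hc']; ring
        omega
      · exact h0
    have hfe : f % 2 = 0 := by
      have h1 : (p : ℤ) * f % 2 = 0 := by omega
      rw [Int.mul_emod] at h1
      have h2 : (p : ℤ) % 2 = 1 := by omega
      rw [h2] at h1
      omega
    have hf0 : f = 0 := by
      have h1 : nm e f = 1 := by rw [← hM]; rfl
      unfold nm at h1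
      have h2 : (2 * e - f) ^ 2 + 3 * f ^ 2 = 4 := by linear_combination 4 * h1
      have h3 : f ^ 2 ≤ 1 := by nlinarith [sq_nonneg (2 * e - f)]
      have h4 : -1 ≤ f ∧ f ≤ 1 := by constructor <;> nlinarith
      omega
    subst hf0
    have he : e = 1 ∨ e = -1 := by
      have h1 : nm e 0 = 1 := by rw [← hM]; rfl
      unfold nm at h1
      have h2 : e * e = 1 := by linarith
      exact Int.eq_one_or_neg_one_of_mul_eq_one h2
    have hcc : c = p ∨ c = -p := by
      rcases he with rfl | rfl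
      · left; rw [hc']; ring
      · right; rw [hc']; ring
    have hd0 : d = 0 := by rw [hd']; ring
    have hpp : Prime ((p : ℤ) : O) := by
      rcases hcc with h1 | h1
      · rw [h1, hd0] at hβ
        simpa using hβ
      · rw [h1, hd0] at hβ
        have h2 : (((-p : ℤ) : O) + ((0 : ℤ) : O) * w) = -((p : ℤ) : O) := by simp
        rw [h2] at hβ
        have h3 : Associated (-((p : ℤ) : O)) ((p : ℤ) : O) := Associated.neg_left (Associated.refl _)
        exact h3.prime hβ
    have hp3 : p % 3 = 2 := by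
      have h3 : p % 3 = 0 ∨ p % 3 = 1 ∨ p % 3 = 2 := by omega
      rcases h3 with h3 | h3 | h3
      · exfalso
        have h4 : 3 ∣ p := Nat.dvd_of_mod_eq_zero h3
        have h5 : 3 = p := (Nat.prime_dvd_prime_iff_eq (by norm_num) hp).1 h4
        subst h5
        have h6 : (((3 : ℕ) : ℤ) : O) ∣ (1 + 2 * w) * (1 + 2 * w) := by
          refine ⟨-1, ?_⟩
          push_cast
          linear_combination 4 * h.sq
        have h7 := hpp.dvd_or_dvd h6
        have h8 : (((3 : ℕ) : ℤ) : O) ∣ ((1 : ℤ) : O) + ((2 : ℤ) : O) * w := by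
          push_cast
          push_cast at h7
          rcases h7 with h7 | h7 <;> exact h7
        rw [h.int_dvd_iff] at h8
        have h9 := Int.le_of_dvd (by norm_num) h8.1
        norm_num at h9
      · exfalso
        have hnd : ¬ (p : ℤ) ∣ (-3) := by
          intro hh
          rw [show (-3 : ℤ) = -(3 : ℤ) by norm_num, dvd_neg] at hh
          have h4 : p ∣ 3 := by exact_mod_cast hh
          have h5 := (Nat.prime_dvd_prime_iff_eq hp (by norm_num)).1 h4
          omega
        obtain ⟨n, k, hk⟩ := (jac_one_iff hp hnd).2.1 (jac_neg_three_split hpodd h3)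
        have h6 : ((p : ℤ) : O) ∣ (((n + 1 : ℤ) : O) + ((2 : ℤ) : O) * w) *
            (((n - 1 : ℤ) : O) + ((-2 : ℤ) : O) * w) := by
          refine ⟨(k : O), ?_⟩
          have hk' := congrArg (fun t : ℤ => (t : O)) hk
          push_cast at hk' ⊢
          linear_combination hk' - 4 * h.sq
        rcases hpp.dvd_or_dvd h6 with h7 | h7
        · rw [h.int_dvd_iff] at h7
          have h8 := Int.le_of_dvd (by norm_num) h7.2
          have h9 := hp.two_le
          omega
        · rw [h.int_dvd_iff] at h7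
          have h8 : (p : ℤ) ∣ 2 := by
            have := h7.2
            rwa [dvd_neg] at this
          have h9 := Int.le_of_dvd (by norm_num) h8
          have h10 := hp.two_le
          omega
      · exact h3
    exact ⟨p, hp, hpodd, hp3, hcc, hd0⟩

end Pool.Agent.Lib.MP_1a91b9_ntH.R
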