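import Pool.Agent.Lib.MP_1a91b9_ntH.R.Jac

/-!
# MP_1a91b9_nt (TwistDensity), leaf L2: the ring `ℤ[w]`, its primes and quadratic symbols
-/

set_option autoImplicit false

namespace Pool.Agent.Lib.MP_1a91b9_ntH.R

open ZMod NumberTheorySymbols

/-- `O` is the ring `ℤ[w]` with `w² + w + 1 = 0`: `1, w` is a basis over `ℤ`. -/
structure IsEis (O : Type*) [CommRing O] (w : O) : Prop where
  sq : w ^ 2 + w + 1 = 0
  span : ∀ z : O, ∃ x y : ℤ, z = (x : O) + (y : O) * w
  inj : ∀ x y : ℤ, (x : O) + (y : O) * w = 0 → x = 0 ∧ y = 0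

/-- The norm form. -/
def nm (x y : ℤ) : ℤ := x ^ 2 - x * y + y ^ 2

theorem nm_nonneg (x y : ℤ) : 0 ≤ nm x y := by
  unfold nm
  nlinarith [sq_nonneg (2 * x - y), sq_nonneg y]

theorem nm_eq_zero {x y : ℤ} (h : nm x y = 0) : x = 0 ∧ y = 0 := by
  unfold nm at h
  have h1 : (2 * x - y) ^ 2 + 3 * y ^ 2 = 0 := by linear_combination 4 * h
  have h2 : y = 0 := by
    have : y ^ 2 = 0 := by nlinarith [sq_nonneg (2 * x - y), sq_nonneg y]
    exact pow_eq_zero_iff (by norm_num) |>.1 this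
  rw [h2] at h1
  have h3 : x ^ 2 = 0 := by linarith
  exact ⟨pow_eq_zero_iff (by norm_num) |>.1 h3, h2⟩

theorem nm_mul (c d e f : ℤ) :
    nm (c * e - d * f) (c * f + d * e - d * f) = nm c d * nm e f := by
  unfold nm; ring

variable {O : Type*} [CommRing O] {w : O}

namespace IsEis

theorem eq_iff (h : IsEis O w) {x y x' y' : ℤ} :
    (x : O) + (y : O) * w = (x' : O) + (y' : O) * w ↔ x = x' ∧ y = y' := by
  constructor
  · intro e
    have h1 : ((x - x' : ℤ) : O) + ((y - y' : ℤ) : O) * w = 0 := by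
      push_cast
      linear_combination e
    obtain ⟨a, b⟩ := h.inj _ _ h1
    exact ⟨by linarith, by linarith⟩
  · rintro ⟨rfl, rfl⟩
    rfl

theorem mul_eq (h : IsEis O w) (c d e f : ℤ) :
    ((c : O) + (d : O) * w) * ((e : O) + (f : O) * w) =
      ((c * e - d * f : ℤ) : O) + ((c * f + d * e - d * f : ℤ) : O) * w := by
  push_cast
  linear_combination ((d : O) * f) * h.sq

theorem mul_conj (h : IsEis O w) (c d : ℤ) :
    ((c : O) + (d : O) * w) * (((c - d : ℤ) : O) + ((-d : ℤ) : O) * w) = ((nm c d : ℤ) : O) := by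
  rw [h.mul_eq]
  have e1 : c * (-d) + d * (c - d) - d * (-d) = 0 := by ring
  have e2 : c * (c - d) - d * (-d) = nm c d := by unfold nm; ring
  rw [e1, e2]
  simp

theorem int_dvd_iff (h : IsEis O w) (m x y : ℤ) :
    (m : O) ∣ (x : O) + (y : O) * w ↔ m ∣ x ∧ m ∣ y := by
  constructor
  · rintro ⟨t, ht⟩
    obtain ⟨e, f, rfl⟩ := h.span t
    have h1 : (x : O) + (y : O) * w = ((m * e : ℤ) : O) + ((m * f : ℤ) : O) * w := by
      rw [ht]; push_cast; ring
    obtain ⟨a, b⟩ := h.eq_iff.1 h1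
    exact ⟨⟨e, a⟩, ⟨f, b⟩⟩
  · rintro ⟨⟨e, rfl⟩, ⟨f, rfl⟩⟩
    refine ⟨(e : O) + (f : O) * w, ?_⟩
    push_cast
    ring

theorem int_eq (h : IsEis O w) {m n : ℤ} (e : (m : O) = (n : O)) : m = n := by
  have h1 : (m : O) + ((0 : ℤ) : O) * w = (n : O) + ((0 : ℤ) : O) * w := by
    rw [e]
  exact (h.eq_iff.1 h1).1

theorem isUnit_iff (h : IsEis O w) (c d : ℤ) :
    IsUnit ((c : O) + (d : O) * w) ↔ nm c d = 1 := by
  constructor
  · intro hu
    obtain ⟨t, ht⟩ := hu.exists_right_inv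
    obtain ⟨e, f, rfl⟩ := h.span t
    rw [h.mul_eq] at ht
    have h1 : ((c * e - d * f : ℤ) : O) + ((c * f + d * e - d * f : ℤ) : O) * w =
        ((1 : ℤ) : O) + ((0 : ℤ) : O) * w := by rw [ht]; simp
    obtain ⟨a, b⟩ := h.eq_iff.1 h1
    have h2 := nm_mul c d e f
    rw [a, b] at h2
    have h3 : nm c d * nm e f = 1 := by rw [← h2]; norm_num [nm]
    have h4 := nm_nonneg c d
    rcases Int.eq_one_or_neg_one_of_mul_eq_one h3 with h5 | h5
    · exact h5
    · omega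
  · intro hn
    refine IsUnit.of_mul_eq_one (((c - d : ℤ) : O) + ((-d : ℤ) : O) * w) ?_
    rw [h.mul_conj, hn]
    simp

/-- Divisibility by an element of prime norm. -/
theorem dvd_split_iff (h : IsEis O w) {p : ℕ} (hp : p.Prime) {c d : ℤ} (hN : nm c d = p)
    (x y : ℤ) : ((c : O) + (d : O) * w) ∣ (x : O) + (y : O) * w ↔ (p : ℤ) ∣ x * d - y * c := by
  constructor
  · rintro ⟨t, ht⟩
    obtain ⟨e, f, rfl⟩ := h.span t
    rw [h.mul_eq] at ht
    obtain ⟨a, b⟩ := h.eq_iff.1 ht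
    refine ⟨-f, ?_⟩
    rw [a, b, ← hN]
    unfold nm
    ring
  · rintro ⟨k, hk⟩
    have hM : (p : ℤ) ∣ x * c - x * d + y * d := by
      have h1 : (p : ℤ) ∣ (x * c - x * d + y * d) ^ 2 := by
        refine ⟨nm x y - k * (x * c - x * d + y * d) - k * (x * d - y * c), ?_⟩
        have e1 : (x * c - x * d + y * d) ^ 2 + (x * c - x * d + y * d) * (x * d - y * c)
            + (x * d - y * c) ^ 2 = nm x y * nm c d := by unfold nm; ring
        rw [hN] at e1
        linear_combination e1 - (x * c - x * d + y * d) * hk - (x * d - y * c) * hk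
      exact Int.Prime.dvd_pow' hp h1
    obtain ⟨l, hl⟩ := hM
    have hp0 : (p : ℤ) ≠ 0 := by exact_mod_cast hp.ne_zero
    refine ⟨(l : O) + ((-k : ℤ) : O) * w, ?_⟩
    rw [h.mul_eq]
    rw [h.eq_iff]
    constructor
    · apply mul_left_cancel₀ hp0
      unfold nm at hN
      linear_combination (-x) * hN + c * hl + d * hk
    · apply mul_left_cancel₀ hp0
      unfold nm at hN
      linear_combination (-y) * hN + (-c) * hk + d * hl + d * hk

end IsEis

/-- Coprimality of the coordinates of an element of prime norm. -/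
theorem isCoprime_of_nm {p : ℕ} (hp : p.Prime) {c d : ℤ} (hN : nm c d = p) : IsCoprime c d := by
  rw [Int.isCoprime_iff_gcd_eq_one]
  by_contra hg
  obtain ⟨q, hq, hqd⟩ := Nat.exists_prime_and_dvd hg
  have h1 : (q : ℤ) ∣ c := (Int.natCast_dvd_natCast.2 hqd).trans (Int.gcd_dvd_left c d)
  have h2 : (q : ℤ) ∣ d := (Int.natCast_dvd_natCast.2 hqd).trans (Int.gcd_dvd_right c d)
  obtain ⟨e, rfl⟩ := h1
  obtain ⟨f, rfl⟩ := h2
  have h3 : (q : ℤ) * (q * nm e f) = p := by
    rw [← hN]; unfold nm; ring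
  have h4 : (q * q : ℕ) ∣ p := by
    rw [← Int.natCast_dvd_natCast]
    refine ⟨nm e f, ?_⟩
    push_cast
    linear_combination -h3
  have h5 : q = p := (Nat.prime_dvd_prime_iff_eq hq hp).1 (dvd_of_mul_left_dvd h4)
  rw [h5] at h4
  have h6 := Nat.le_of_dvd hp.pos h4
  nlinarith [hp.two_le]

end Pool.Agent.Lib.MP_1a91b9_ntH.R
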