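import Mathlib

/-!
# MP_1a91b9_nt (TwistDensity), leaf L2: the Jacobi symbol identity behind quadratic
reciprocity in `ℤ[w]`
-/

set_option autoImplicit false

namespace Pool.Agent.Lib.MP_1a91b9_ntH.R

open ZMod NumberTheorySymbols

/-- `(-1) ^ (n (n - 1) / 2)`, as a function of `n` modulo `4`. -/
def ph (n : ℤ) : ℤ := if n % 4 = 0 ∨ n % 4 = 1 then 1 else -1

theorem ph_add_two (n : ℤ) : ph (n + 2) = -ph n := by
  unfold ph
  have h : n % 4 = 0 ∨ n % 4 = 1 ∨ n % 4 = 2 ∨ n % 4 = 3 := by omega
  rcases h with h | h | h | h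
  · rw [if_neg (by omega), if_pos (by omega)]
  · rw [if_neg (by omega), if_pos (by omega)]
  · rw [if_pos (by omega), if_neg (by omega)]; norm_num
  · rw [if_pos (by omega), if_neg (by omega)]; norm_num

theorem ph_sq (n : ℤ) : ph n * ph n = 1 := by
  unfold ph
  split <;> norm_num

/-- `ph` is a quadratic function with bilinear form `(-1) ^ (u v)`. -/
theorem ph_add (u v : ℤ) :
    ph (u + v) = ph u * ph v * (if (u * v) % 2 = 0 then 1 else -1) := by
  unfold ph
  have h1 : (u * v) % 2 = ((u % 2) * (v % 2)) % 2 := Int.mul_emod _ _ _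
  rw [h1]
  have hu : u % 4 = 0 ∨ u % 4 = 1 ∨ u % 4 = 2 ∨ u % 4 = 3 := by omega
  have hv : v % 4 = 0 ∨ v % 4 = 1 ∨ v % 4 = 2 ∨ v % 4 = 3 := by omega
  rcases hu with hu | hu | hu | hu <;> rcases hv with hv | hv | hv | hv
  all_goals
    first
    | (have a : u % 2 = 0 := by omega
       rw [a])
    | (have a : u % 2 = 1 := by omega
       rw [a])
  all_goals
    first
    | (have a : v % 2 = 0 := by omega
       rw [a])
    | (have a : v % 2 = 1 := by omega
       rw [a])
  all_goals
    have e : (u + v) % 4 = (u % 4 + v % 4) % 4 := by omega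
    rw [e, hu, hv]
    norm_num

/-- The key identity: the symbol `(D / N)` for `N = M² + 2 M D + 4 D²`. -/
theorem jac_key (M D : ℤ) (N : ℕ) (hM : M % 2 = 1) (hc : IsCoprime M D)
    (hN : (N : ℤ) = M ^ 2 + 2 * M * D + 4 * D ^ 2) : jacobiSym D N = ph D := by
  have hMsq : M ^ 2 % 8 = 1 := by
    have h8 : M % 8 = 1 ∨ M % 8 = 3 ∨ M % 8 = 5 ∨ M % 8 = 7 := by omega
    rcases h8 with h | h | h | h <;> rw [pow_two, Int.mul_emod, h] <;> norm_num
  have hNodd : Odd N := by
    rw [← Int.odd_coe_nat, hN, Int.odd_iff]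
    have : (M ^ 2 + 2 * M * D + 4 * D ^ 2) = M ^ 2 + 2 * (M * D + 2 * D ^ 2) := by ring
    rw [this]
    omega
  rcases eq_or_ne D 0 with rfl | hD
  · have hM1 : IsUnit M := by
      rw [isCoprime_zero_right] at hc
      exact hc
    have h1 : (N : ℤ) = 1 := by
      rw [hN]
      rcases Int.isUnit_iff.1 hM1 with h | h <;> rw [h] <;> norm_num
    have h2 : N = 1 := by exact_mod_cast h1
    rw [h2]
    simp [ph]
  · -- `D = s 2 ^ k d` with `d` odd
    obtain ⟨k, d, hd, hkd⟩ := Nat.exists_eq_two_pow_mul_odd (n := D.natAbs)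
      (Int.natAbs_ne_zero.2 hD)
    have hdD : (d : ℤ) ∣ D := by
      rw [← Int.dvd_natAbs, hkd]
      push_cast
      exact Dvd.intro_left _ rfl
    have hJN : jacobiSym (N : ℤ) d = 1 := by
      obtain ⟨e, he⟩ := hdD
      have h1 : (N : ℤ) % d = M ^ 2 % d := by
        apply Int.emod_emod_of_dvd _ (dvd_refl _) |>.symm.trans
        rw [Int.emod_emod_of_dvd _ (dvd_refl _)]
        apply Int.ModEq.eq
        apply Int.ModEq.symm
        rw [Int.modEq_iff_dvd, hN]
        refine ⟨e * (2 * M + 4 * D), ?_⟩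
        rw [show M ^ 2 + 2 * M * D + 4 * D ^ 2 - M ^ 2 = D * (2 * M + 4 * D) by ring]
        nth_rewrite 1 [he]
        ring
      rw [jacobiSym.mod_left' h1]
      apply jacobiSym.sq_one'
      rw [← Int.isCoprime_iff_gcd_eq_one]
      rw [he] at hc
      exact hc.of_mul_right_left
    have hJd : jacobiSym (d : ℤ) N = (-1) ^ (d / 2 * (N / 2)) := by
      rw [jacobiSym.quadratic_reciprocity hd hNodd, hJN, mul_one]
    have h2k : jacobiSym ((2 : ℤ) ^ k) N = (ZMod.χ₈ (N : ZMod 8)) ^ k := by
      rw [jacobiSym.pow_left, jacobiSym.at_two hNodd]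
    have habs : (D.natAbs : ℤ) = 2 ^ k * d := by
      rw [hkd]; push_cast; ring
    have hJabs : jacobiSym (D.natAbs : ℤ) N =
        (ZMod.χ₈ (N : ZMod 8)) ^ k * (-1) ^ (d / 2 * (N / 2)) := by
      rw [habs, jacobiSym.mul_left, h2k, hJd]
    have hJs : jacobiSym D N = (if D < 0 then χ₄ (N : ZMod 4) else 1) *
        ((ZMod.χ₈ (N : ZMod 8)) ^ k * (-1) ^ (d / 2 * (N / 2))) := by
      split_ifs with h
      · have e : D = -(D.natAbs : ℤ) := by omega
        rw [e, jacobiSym.neg _ hNodd, hJabs]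
      · have e : D = (D.natAbs : ℤ) := by omega
        rw [e, hJabs, one_mul]
    rw [hJs]
    rcases Nat.eq_zero_or_pos k with rfl | hk
    · -- `D` odd
      have hDodd : D % 2 = 1 := by
        have : D.natAbs = d := by rw [hkd]; simp
        have h2 := Nat.odd_iff.1 hd
        omega
      have hMD : (M * D) % 2 = 1 := by
        rw [Int.mul_emod, hM, hDodd]; norm_num
      have hDD : D ^ 2 % 8 = 1 := by
        have h8 : D % 8 = 1 ∨ D % 8 = 3 ∨ D % 8 = 5 ∨ D % 8 = 7 := by omega
        rcases h8 with h | h | h | h <;> rw [pow_two, Int.mul_emod, h] <;> norm_num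
      have hN4 : N % 4 = 3 := by
        have e : (N : ℤ) = M ^ 2 + 2 * (M * D) + 4 * D ^ 2 := by rw [hN]; ring
        omega
      have hχ : χ₄ (N : ZMod 4) = -1 := by
        rw [ZMod.χ₄_nat_three_mod_four hN4]
      rw [hχ, pow_zero, one_mul]
      have hNh : Odd (N / 2) := by
        rw [Nat.odd_iff]; omega
      have hpow : ((-1 : ℤ)) ^ (d / 2 * (N / 2)) = (-1) ^ (d / 2) := by
        rw [mul_comm, pow_mul, hNh.neg_one_pow]
      rw [hpow]
      have hDd : D.natAbs = d := by rw [hkd]; simp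
      have hd2 := Nat.odd_iff.1 hd
      unfold ph
      have h4 : d % 4 = 1 ∨ d % 4 = 3 := by omega
      rcases h4 with h4 | h4
      · have he : Even (d / 2) := by rw [Nat.even_iff]; omega
        rw [he.neg_one_pow]
        split_ifs with a b b <;> first | rfl | omega
      · have he : Odd (d / 2) := by rw [Nat.odd_iff]; omega
        rw [he.neg_one_pow]
        split_ifs with a b b <;> first | rfl | omega
    · -- `D` even
      have hDev : D % 2 = 0 := by
        have h1 : 2 ∣ D.natAbs := by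
          rw [hkd]
          exact Dvd.dvd.mul_right (dvd_pow_self 2 hk.ne') d
        omega
      obtain ⟨D', hD'⟩ : ∃ D', D = 2 * D' := ⟨D / 2, by omega⟩
      have hN8 : (N : ℤ) % 8 = (1 + 4 * D') % 8 := by
        have e : (N : ℤ) = M ^ 2 + 4 * (M * D') + 8 * (2 * D' ^ 2) := by rw [hN, hD']; ring
        have h3 : (M * D') % 2 = D' % 2 := by
          rw [Int.mul_emod, hM]; omega
        omega
      have hN4 : N % 4 = 1 := by omega
      have hχ : χ₄ (N : ZMod 4) = 1 := by
        rw [ZMod.χ₄_nat_one_mod_four hN4]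
      have hNh : Even (N / 2) := by
        rw [Nat.even_iff]; omega
      have hpow : ((-1 : ℤ)) ^ (d / 2 * (N / 2)) = 1 := by
        rw [mul_comm, pow_mul, hNh.neg_one_pow, one_pow]
      rw [hχ, hpow, mul_one]
      have hif : (if D < 0 then (1 : ℤ) else 1) = 1 := by split_ifs <;> rfl
      rw [hif, one_mul, ZMod.χ₈_nat_eq_if_mod_eight]
      have hd2 := Nat.odd_iff.1 hd
      rcases Nat.lt_or_ge 1 k with hk1 | hk1
      · have h4 : 4 ∣ D.natAbs := by
          rw [hkd]
          have : (4 : ℕ) ∣ 2 ^ k := by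
            rw [show (4 : ℕ) = 2 ^ 2 by norm_num]
            exact pow_dvd_pow 2 hk1
          exact Dvd.dvd.mul_right this d
        have h8 : N % 8 = 1 := by omega
        rw [if_neg (by omega), if_pos (by omega), one_pow]
        unfold ph
        rw [if_pos (by omega)]
      · have hk2 : k = 1 := by omega
        subst hk2
        have h8 : N % 8 = 5 := by
          rw [pow_one] at hkd
          omega
        rw [if_neg (by omega), if_neg (by omega), pow_one]
        unfold ph
        rw [if_neg (by omega)]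

end Pool.Agent.Lib.MP_1a91b9_ntH.R
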