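import Pool.Agent.Lib.MP_1a91b9_ntH.R.Cls

/-!
# MP_1a91b9_nt (TwistDensity), leaf L2: quadratic reciprocity in `ℤ[w]`
-/

set_option autoImplicit false

namespace Pool.Agent.Lib.MP_1a91b9_ntH.R

open ZMod NumberTheorySymbols

variable {O : Type*} [CommRing O] {w : O}

theorem qs_congr_right {α β β' : O} (h : Associated β β') : qs α β = qs α β' := by
  classical
  unfold qs
  simp only [h.dvd_iff_dvd_left]

/-- the sign `(-1) ^ n` of an integer -/
theorem sgn_mul (u v : ℤ) : (if (u + v) % 2 = 0 then (1 : ℤ) else -1) =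
    (if u % 2 = 0 then 1 else -1) * (if v % 2 = 0 then 1 else -1) := by
  rcases Int.emod_two_eq_zero_or_one u with hu | hu <;>
    rcases Int.emod_two_eq_zero_or_one v with hv | hv <;>
    have e : (u + v) % 2 = (u % 2 + v % 2) % 2 := by omega
  all_goals rw [e, hu, hv]; norm_num

theorem neg_one_pow_eq (n : ℕ) : ((-1 : ℤ)) ^ n = if (n : ℤ) % 2 = 0 then 1 else -1 := by
  split_ifs with h
  · have : Even n := by rw [Nat.even_iff]; omega
    exact this.neg_one_pow
  · have : Odd n := by rw [Nat.odd_iff]; omega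
    exact this.neg_one_pow

/-- Both primes have prime norms. -/
theorem recip_split (h : IsEis O w) {x c a1 b1 : ℤ} {p q : ℕ} (hp : p.Prime) (hq : q.Prime)
    (hp2 : p % 2 = 1) (hq2 : q % 2 = 1) (hx : x % 2 = 1) (hc : c % 2 = 1)
    (hNβ : nm c (2 * b1) = p) (hNα : nm x (2 * a1) = q)
    (hD1 : ¬ (p : ℤ) ∣ x * (2 * b1) - (2 * a1) * c)
    (hD2 : ¬ (q : ℤ) ∣ x * (2 * b1) - (2 * a1) * c) :
    qs ((x : O) + ((2 * a1 : ℤ) : O) * w) ((c : O) + ((2 * b1 : ℤ) : O) * w) *
      qs ((c : O) + ((2 * b1 : ℤ) : O) * w) ((x : O) + ((2 * a1 : ℤ) : O) * w) =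
      ph b1 * ph (-a1) * ph (x * b1 - a1 * c) := by
  have hpo : Odd p := Nat.odd_iff.2 hp2
  have hqo : Odd q := Nat.odd_iff.2 hq2
  have hD2' : ¬ (q : ℤ) ∣ c * (2 * a1) - (2 * b1) * x := by
    intro hh
    apply hD2
    rw [← dvd_neg]
    rw [show -(x * (2 * b1) - 2 * a1 * c) = c * (2 * a1) - 2 * b1 * x by ring]
    exact hh
  rw [qs_split h hp hNβ hD1, qs_split h hq hNα hD2']
  have e1 : (x * (2 * b1) - (2 * a1) * c) * (2 * b1) = 4 * ((x * b1 - a1 * c) * b1) := by ring
  have e2 : (c * (2 * a1) - (2 * b1) * x) * (2 * a1) = 4 * ((x * b1 - a1 * c) * (-a1)) := by ring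
  rw [e1, e2, jacobiSym.mul_left, jacobiSym.at_four hpo, jacobiSym.mul_left 4,
    jacobiSym.at_four hqo, one_mul, one_mul, jacobiSym.mul_left, jacobiSym.mul_left]
  -- the three symbols
  have k1 : jacobiSym b1 p = ph b1 := by
    apply jac_key (-c) b1 p (by omega)
    · have h1 := isCoprime_of_nm hp hNβ
      exact (h1.of_mul_right_right).neg_left
    · rw [← hNβ]; unfold nm; ring
  have k2 : jacobiSym (-a1) q = ph (-a1) := by
    apply jac_key x (-a1) q hx
    · have h1 := isCoprime_of_nm hq hNα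
      exact (h1.of_mul_right_right).neg_right
    · rw [← hNα]; unfold nm; ring
  have k3 : jacobiSym (x * b1 - a1 * c) (p * q) = ph (x * b1 - a1 * c) := by
    have hprod : ((p * q : ℕ) : ℤ) = (x * c - x * (2 * b1) + (2 * a1) * (2 * b1)) ^ 2
        + 2 * (x * c - x * (2 * b1) + (2 * a1) * (2 * b1)) * (x * b1 - a1 * c)
        + 4 * (x * b1 - a1 * c) ^ 2 := by
      push_cast
      rw [← hNβ, ← hNα]
      unfold nm
      ring
    apply jac_key (x * c - x * (2 * b1) + (2 * a1) * (2 * b1)) _ _ _ _ hprod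
    · have h1 : (x * c) % 2 = 1 := by rw [Int.mul_emod, hx, hc]; norm_num
      have e : x * c - x * (2 * b1) + (2 * a1) * (2 * b1) = x * c + 2 * (-(x * b1) + 2 * (a1 * b1)) := by
        ring
      omega
    · rw [Int.isCoprime_iff_gcd_eq_one]
      by_contra hg
      obtain ⟨l, hl, hld⟩ := Nat.exists_prime_and_dvd hg
      have g1 : (l : ℤ) ∣ (x * c - x * (2 * b1) + (2 * a1) * (2 * b1)) :=
        (Int.natCast_dvd_natCast.2 hld).trans (Int.gcd_dvd_left _ _)
      have g2 : (l : ℤ) ∣ x * b1 - a1 * c :=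
        (Int.natCast_dvd_natCast.2 hld).trans (Int.gcd_dvd_right _ _)
      have g3 : (l : ℤ) ∣ ((p * q : ℕ) : ℤ) := by
        rw [hprod]
        apply dvd_add
        · apply dvd_add
          · exact dvd_pow g1 (by norm_num)
          · exact Dvd.dvd.mul_left g2 _
        · exact Dvd.dvd.mul_left (dvd_pow g2 (by norm_num)) _
      have g4 : l ∣ p * q := by exact_mod_cast g3
      have g5 : (l : ℤ) ∣ x * (2 * b1) - (2 * a1) * c := by
        rw [show x * (2 * b1) - (2 * a1) * c = 2 * (x * b1 - a1 * c) by ring]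
        exact Dvd.dvd.mul_left g2 _
      rcases (Nat.Prime.dvd_mul hl).1 g4 with g6 | g6
      · rw [(Nat.prime_dvd_prime_iff_eq hl hp).1 g6] at g5
        exact hD1 g5
      · rw [(Nat.prime_dvd_prime_iff_eq hl hq).1 g6] at g5
        exact hD2 g5
  rw [jacobiSym.mul_right' _ hp.ne_zero hq.ne_zero] at k3
  rw [k1, k2]
  calc jacobiSym (x * b1 - a1 * c) p * ph b1 * (jacobiSym (x * b1 - a1 * c) q * ph (-a1))
      = ph b1 * ph (-a1) * (jacobiSym (x * b1 - a1 * c) p * jacobiSym (x * b1 - a1 * c) q) := by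
        ring
    _ = _ := by rw [k3]

/-- The values of `ph` combine to the trace form. -/
theorem ph_combine (a0 a1 b0 b1 : ℤ) :
    ph b1 * ph (-a1) * ph ((1 + 2 * a0) * b1 - a1 * (1 + 2 * b0)) =
      if (a0 * b1 + a1 * b0 + a1 * b1) % 2 = 0 then 1 else -1 := by
  have e1 : (1 + 2 * a0) * b1 - a1 * (1 + 2 * b0) = (b1 + -a1) + 2 * (a0 * b1 - a1 * b0) := by ring
  have e2 : ∀ n m : ℤ, ph (n + 2 * m) = ph n * (if m % 2 = 0 then 1 else -1) := by
    intro n m
    unfold ph
    have hn : n % 4 = 0 ∨ n % 4 = 1 ∨ n % 4 = 2 ∨ n % 4 = 3 := by omega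
    rcases Int.emod_two_eq_zero_or_one m with hm | hm
    · have e : (n + 2 * m) % 4 = n % 4 := by omega
      rw [e, hm]; simp
    · have e : (n + 2 * m) % 4 = (n % 4 + 2) % 4 := by omega
      rw [e, hm]
      rcases hn with hn | hn | hn | hn <;> rw [hn] <;> norm_num
  rw [e1, e2, ph_add]
  have s1 := ph_sq b1
  have s2 := ph_sq (-a1)
  have e3 : (a0 * b1 - a1 * b0) % 2 = (a0 * b1 + a1 * b0) % 2 := by omega
  have e4 : (b1 * -a1) % 2 = (a1 * b1) % 2 := by
    have : b1 * -a1 = -(a1 * b1) := by ring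
    rw [this]; omega
  rw [sgn_mul (a0 * b1 + a1 * b0) (a1 * b1), e3, e4]
  linear_combination ((if a1 * b1 % 2 = 0 then (1 : ℤ) else -1) *
    (if (a0 * b1 + a1 * b0) % 2 = 0 then (1 : ℤ) else -1)) * (ph (-a1) * ph (-a1) * s1 + s2)

/-- `β = ± q` inert, `α` of prime norm. -/
theorem recip_mixed (h : IsEis O w) {x a1 b0 : ℤ} {p q : ℕ} (hp : p.Prime) (hq : q.Prime)
    (hp2 : p % 2 = 1) (hq2 : q % 2 = 1) (hq3 : q % 3 = 2) (hx : x % 2 = 1)
    (hNα : nm x (2 * a1) = p) (hpq : p ≠ q) (hc : 1 + 2 * b0 = q ∨ 1 + 2 * b0 = -q) :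
    qs ((x : O) + ((2 * a1 : ℤ) : O) * w) (((1 + 2 * b0 : ℤ) : O)) *
      qs (((1 + 2 * b0 : ℤ) : O)) ((x : O) + ((2 * a1 : ℤ) : O) * w) =
      if (a1 * b0) % 2 = 0 then 1 else -1 := by
  have hpo : Odd p := Nat.odd_iff.2 hp2
  have hqo : Odd q := Nat.odd_iff.2 hq2
  have hpZ : Prime (p : ℤ) := Nat.prime_iff_prime_int.1 hp
  have hqp : ¬ (q : ℤ) ∣ (p : ℤ) := by
    intro hh
    have h1 : q ∣ p := by exact_mod_cast hh
    exact hpq ((Nat.prime_dvd_prime_iff_eq hq hp).1 h1).symm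
  have hass : Associated (((1 + 2 * b0 : ℤ) : O)) ((q : ℤ) : O) := by
    rcases hc with h1 | h1
    · rw [h1]
    · rw [h1]
      push_cast
      exact Associated.neg_left (Associated.refl _)
  have k1 : qs ((x : O) + ((2 * a1 : ℤ) : O) * w) (((1 + 2 * b0 : ℤ) : O)) = jacobiSym p q := by
    rw [qs_congr_right hass, qs_inert h hq hq2 hq3 (by rw [hNα]; exact hqp), hNα]
  have hcop := isCoprime_of_nm hp hNα
  have hy : ¬ (p : ℤ) ∣ 2 * a1 := by
    intro hd
    have h1 : (p : ℤ) ∣ x ^ 2 := by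
      obtain ⟨e, he⟩ := hd
      refine ⟨1 + x * e - (2 * a1) * e, ?_⟩
      unfold nm at hNα
      linear_combination hNα + (x - 2 * a1) * he
    have h2 : (p : ℤ) ∣ x := hpZ.dvd_of_dvd_pow h1
    have h3 := hcop.isUnit_of_dvd' h2 hd
    exact hpZ.not_unit h3
  have hcp : ¬ (p : ℤ) ∣ (1 + 2 * b0) := by
    intro hh
    have h1 : (p : ℤ) ∣ (q : ℤ) := by
      rcases hc with h1 | h1
      · rw [← h1]; exact hh
      · rw [h1, dvd_neg] at hh; exact hh
    have h2 : p ∣ q := by exact_mod_cast h1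
    exact hpq ((Nat.prime_dvd_prime_iff_eq hp hq).1 h2)
  have k2 : qs (((1 + 2 * b0 : ℤ) : O)) ((x : O) + ((2 * a1 : ℤ) : O) * w) =
      jacobiSym (1 + 2 * b0) p := by
    have e : (((1 + 2 * b0 : ℤ) : O)) = ((1 + 2 * b0 : ℤ) : O) + ((0 : ℤ) : O) * w := by simp
    rw [e, qs_split h hp hNα]
    · rw [show ((1 + 2 * b0) * (2 * a1) - 0 * x) * (2 * a1) = (1 + 2 * b0) * (2 * a1) ^ 2 by ring,
        jacobiSym.mul_left, jacobiSym.sq_one', mul_one]
      rw [← Int.isCoprime_iff_gcd_eq_one, isCoprime_comm]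
      exact (Prime.coprime_iff_not_dvd hpZ).2 hy
    · intro hh
      rw [show (1 + 2 * b0) * (2 * a1) - 0 * x = (1 + 2 * b0) * (2 * a1) by ring] at hh
      rcases hpZ.dvd_or_dvd hh with h1 | h1
      · exact hcp h1
      · exact hy h1
  rw [k1, k2, jacobiSym.quadratic_reciprocity hpo hqo, neg_one_pow_eq]
  have hqp1 : jacobiSym q p = 1 ∨ jacobiSym q p = -1 := by
    apply jacobiSym.eq_one_or_neg_one
    rw [← Int.isCoprime_iff_gcd_eq_one]
    rw [Nat.isCoprime_iff_coprime]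
    exact (Nat.coprime_primes hq hp).2 hpq.symm
  have hsq : jacobiSym q p * jacobiSym q p = 1 := by
    rcases hqp1 with h1 | h1 <;> rw [h1] <;> norm_num
  have hp4 : (p : ℤ) % 4 = (1 + 2 * a1) % 4 := by
    rw [← hNα]
    have hx8 : (x * x) % 4 = 1 := by
      have h4 : x % 4 = 1 ∨ x % 4 = 3 := by omega
      rcases h4 with h | h <;> rw [Int.mul_emod, h] <;> norm_num
    have hxa : (x * a1) % 2 = a1 % 2 := by rw [Int.mul_emod, hx]; omega
    have e : nm x (2 * a1) = x * x - 2 * (x * a1) + 4 * a1 ^ 2 := by unfold nm; ring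
    rw [e]
    omega
  have hph : ((p / 2 : ℕ) : ℤ) % 2 = a1 % 2 := by omega
  have hmulmod : ∀ u v : ℤ, (u * v) % 2 = ((u % 2) * (v % 2)) % 2 := fun u v => Int.mul_emod _ _ _
  rcases hc with h1 | h1
  · have hqh : ((q / 2 : ℕ) : ℤ) = b0 := by omega
    rw [h1]
    have e : ((p / 2 * (q / 2) : ℕ) : ℤ) % 2 = (a1 * b0) % 2 := by
      push_cast
      push_cast at hph hqh
      rw [hmulmod, hph, hqh, ← hmulmod]
    rw [e]
    rw [mul_assoc, hsq, mul_one]
  · have hqh : ((q / 2 : ℕ) : ℤ) = -1 - b0 := by omega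
    rw [h1, jacobiSym.neg _ hpo]
    have e : ((p / 2 * (q / 2) : ℕ) : ℤ) % 2 = (a1 * b0 + a1) % 2 := by
      push_cast
      push_cast at hph hqh
      rw [hmulmod, hph, hqh, ← hmulmod, show a1 * (-1 - b0) = -(a1 * b0 + a1) by ring]
      omega
    have hχ : ZMod.χ₄ (p : ZMod 4) = if a1 % 2 = 0 then 1 else -1 := by
      rw [ZMod.χ₄_nat_eq_if_mod_four]
      rcases Int.emod_two_eq_zero_or_one a1 with h2 | h2
      · rw [if_neg (by omega), if_pos (by omega), if_pos h2]
      · rw [if_neg (by omega), if_neg (by omega), if_neg (by omega)]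
    rw [e, hχ, sgn_mul]
    have hs : (if a1 % 2 = 0 then (1 : ℤ) else -1) * (if a1 % 2 = 0 then (1 : ℤ) else -1) = 1 := by
      split_ifs <;> norm_num
    linear_combination ((if a1 * b0 % 2 = 0 then (1 : ℤ) else -1) *
      ((if a1 % 2 = 0 then (1 : ℤ) else -1) * (if a1 % 2 = 0 then (1 : ℤ) else -1))) * hsq
      + (if a1 * b0 % 2 = 0 then (1 : ℤ) else -1) * hs

theorem IsEis.isDomain (h : IsEis O w) : IsDomain O := by
  haveI : Nontrivial O := by
    refine ⟨⟨0, 1, fun e => ?_⟩⟩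
    have h1 := h.inj 1 0 (by push_cast; rw [← e]; ring)
    omega
  haveI : NoZeroDivisors O := by
    refine ⟨fun {a b} hab => ?_⟩
    obtain ⟨c, d, rfl⟩ := h.span a
    obtain ⟨e, f, rfl⟩ := h.span b
    rw [h.mul_eq] at hab
    obtain ⟨h1, h2⟩ := h.inj _ _ hab
    have h3 := nm_mul c d e f
    rw [h1, h2] at h3
    have h4 : nm c d * nm e f = 0 := by rw [← h3]; norm_num [nm]
    rcases mul_eq_zero.1 h4 with h5 | h5
    · left
      obtain ⟨rfl, rfl⟩ := nm_eq_zero h5
      simp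
    · right
      obtain ⟨rfl, rfl⟩ := nm_eq_zero h5
      simp
  exact NoZeroDivisors.to_isDomain O

/-- Divisibility between primes. -/
theorem IsEis.assoc_of_dvd (h : IsEis O w) {α β : O} (hα : Prime α) (hβ : Prime β) (hd : α ∣ β) :
    Associated α β := by
  haveI := h.isDomain
  exact (hα.dvd_prime_iff_associated hβ).1 hd

/-- An inert rational prime which divides a norm divides the element. -/
theorem IsEis.inert_not_dvd_nm (h : IsEis O w) {q : ℕ} (hq : Prime ((q : ℤ) : O)) {x y : ℤ}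
    (hn : ¬ ((q : ℤ) : O) ∣ (x : O) + (y : O) * w) : ¬ (q : ℤ) ∣ nm x y := by
  rintro ⟨k, hk⟩
  have h1 : ((q : ℤ) : O) ∣ ((x : O) + (y : O) * w) * (((x - y : ℤ) : O) + ((-y : ℤ) : O) * w) := by
    rw [h.mul_conj, hk]
    exact ⟨(k : O), by push_cast; ring⟩
  rcases hq.dvd_or_dvd h1 with h2 | h2
  · exact hn h2
  · apply hn
    rw [h.int_dvd_iff] at h2 ⊢
    obtain ⟨h3, h4⟩ := h2
    rw [dvd_neg] at h4
    refine ⟨?_, h4⟩
    have := dvd_add h3 h4
    rwa [sub_add_cancel] at this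

/-- **Quadratic reciprocity in `ℤ[w]`**, for primes congruent to `1` modulo `2`. -/
theorem recip (h : IsEis O w) (a0 a1 b0 b1 : ℤ)
    (hα : Prime (((1 + 2 * a0 : ℤ) : O) + ((2 * a1 : ℤ) : O) * w))
    (hβ : Prime (((1 + 2 * b0 : ℤ) : O) + ((2 * b1 : ℤ) : O) * w))
    (hne : ¬ Associated (((1 + 2 * a0 : ℤ) : O) + ((2 * a1 : ℤ) : O) * w)
      (((1 + 2 * b0 : ℤ) : O) + ((2 * b1 : ℤ) : O) * w)) :
    qs (((1 + 2 * a0 : ℤ) : O) + ((2 * a1 : ℤ) : O) * w)
        (((1 + 2 * b0 : ℤ) : O) + ((2 * b1 : ℤ) : O) * w) *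
      qs (((1 + 2 * b0 : ℤ) : O) + ((2 * b1 : ℤ) : O) * w)
        (((1 + 2 * a0 : ℤ) : O) + ((2 * a1 : ℤ) : O) * w) =
      if (a0 * b1 + a1 * b0 + a1 * b1) % 2 = 0 then 1 else -1 := by
  have hab : ¬ (((1 + 2 * a0 : ℤ) : O) + ((2 * a1 : ℤ) : O) * w) ∣
      (((1 + 2 * b0 : ℤ) : O) + ((2 * b1 : ℤ) : O) * w) := fun hd => hne (h.assoc_of_dvd hα hβ hd)
  have hba : ¬ (((1 + 2 * b0 : ℤ) : O) + ((2 * b1 : ℤ) : O) * w) ∣
      (((1 + 2 * a0 : ℤ) : O) + ((2 * a1 : ℤ) : O) * w) :=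
    fun hd => hne (h.assoc_of_dvd hβ hα hd).symm
  have zero_w : ∀ n : ℤ, (n : O) + ((2 * 0 : ℤ) : O) * w = (n : O) := by
    intro n; simp
  rcases prime_cases h hα (by omega) (by omega) with ⟨p', hp', hNα, hp'2⟩ | ⟨q', hq', hq'2, hq'3, hc', hd'⟩
  · rcases prime_cases h hβ (by omega) (by omega) with ⟨p, hp, hNβ, hp2⟩ | ⟨q, hq, hq2, hq3, hc, hd⟩
    · -- both of prime norm
      rw [recip_split h hp hp' hp2 hp'2 (by omega) (by omega) hNβ hNα, ph_combine]
      · intro hh
        exact hba ((h.dvd_split_iff hp hNβ _ _).2 hh)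
      · intro hh
        apply hab
        rw [h.dvd_split_iff hp' hNα, ← dvd_neg]
        rw [show -((1 + 2 * b0) * (2 * a1) - 2 * b1 * (1 + 2 * a0)) =
          (1 + 2 * a0) * (2 * b1) - 2 * a1 * (1 + 2 * b0) by ring]
        exact hh
    · -- `β` inert
      have hb1 : b1 = 0 := by omega
      subst hb1
      rw [zero_w] at hβ hba ⊢
      have hqp : p' ≠ q := by
        rintro rfl
        have hpr : Prime ((p' : ℤ) : O) := by
          rcases hc with h1 | h1
          · rwa [h1] at hβ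
          · rw [h1] at hβ
            have h3 : Associated (((-(p' : ℤ)) : ℤ) : O) ((p' : ℤ) : O) := by
              push_cast
              exact Associated.neg_left (Associated.refl _)
            exact h3.prime hβ
        refine h.inert_not_dvd_nm hpr ?_ (x := 1 + 2 * a0) (y := 2 * a1) (by rw [hNα])
        intro hh
        apply hba
        refine dvd_trans ?_ hh
        rcases hc with h1 | h1
        · rw [h1]
        · rw [h1]
          push_cast
          rw [neg_dvd]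
      rw [recip_mixed h hp' hq hp'2 hq2 hq3 (by omega) hNα hqp hc]
      rw [show a0 * 0 + a1 * b0 + a1 * 0 = a1 * b0 by ring]
  · have ha1 : a1 = 0 := by omega
    subst ha1
    rw [zero_w] at hα hab hba ⊢
    rcases prime_cases h hβ (by omega) (by omega) with ⟨p, hp, hNβ, hp2⟩ | ⟨q, hq, hq2, hq3, hc, hd⟩
    · have hqp : p ≠ q' := by
        rintro rfl
        have hpr : Prime ((p : ℤ) : O) := by
          rcases hc' with h1 | h1
          · rwa [h1] at hα
          · rw [h1] at hα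
            have h3 : Associated (((-(p : ℤ)) : ℤ) : O) ((p : ℤ) : O) := by
              push_cast
              exact Associated.neg_left (Associated.refl _)
            exact h3.prime hα
        refine h.inert_not_dvd_nm hpr ?_ (x := 1 + 2 * b0) (y := 2 * b1) (by rw [hNβ])
        intro hh
        apply hab
        refine dvd_trans ?_ hh
        rcases hc' with h1 | h1
        · rw [h1]
        · rw [h1]
          push_cast
          rw [neg_dvd]
      rw [mul_comm, recip_mixed h hp hq' hp2 hq'2 hq'3 (by omega) hNβ hqp hc']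
      rw [show a0 * b1 + 0 * b0 + 0 * b1 = b1 * a0 by ring]
    · have hb1 : b1 = 0 := by omega
      subst hb1
      rw [zero_w] at hβ hab hba ⊢
      -- both inert
      have key : ∀ (m n : ℤ) (r : ℕ), r.Prime → r % 2 = 1 → r % 3 = 2 → (n = r ∨ n = -r) →
          ¬ (r : ℤ) ∣ m → qs (m : O) (n : O) = 1 := by
        intro m n r hr hr2 hr3 hn hm
        have hass : Associated ((n : ℤ) : O) ((r : ℤ) : O) := by
          rcases hn with h1 | h1
          · rw [h1]
          · rw [h1]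
            push_cast
            exact Associated.neg_left (Associated.refl _)
        have hrZ : Prime (r : ℤ) := Nat.prime_iff_prime_int.1 hr
        have e : (m : O) = (m : O) + ((0 : ℤ) : O) * w := by simp
        have e2 : nm m 0 = m ^ 2 := by unfold nm; ring
        rw [qs_congr_right hass, e, qs_inert h hr hr2 hr3, e2]
        · apply jacobiSym.sq_one'
          rw [← Int.isCoprime_iff_gcd_eq_one, isCoprime_comm]
          exact (Prime.coprime_iff_not_dvd hrZ).2 hm
        · rw [e2]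
          intro hh
          exact hm (hrZ.dvd_of_dvd_pow hh)
      have hdvd : ∀ (m n : ℤ) (r : ℕ), (n = r ∨ n = -r) → ¬ ((n : O) ∣ (m : O)) → ¬ (r : ℤ) ∣ m := by
        intro m n r hn hnd hh
        apply hnd
        have h1 : n ∣ m := by
          rcases hn with h1 | h1
          · rw [h1]; exact hh
          · rw [h1, neg_dvd]; exact hh
        obtain ⟨k, rfl⟩ := h1
        exact ⟨(k : O), by push_cast; ring⟩
      rw [key _ _ q hq hq2 hq3 hc (hdvd _ _ q hc hba), key _ _ q' hq' hq'2 hq'3 hc' (hdvd _ _ q' hc' hab)]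
      simp

end Pool.Agent.Lib.MP_1a91b9_ntH.R
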